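import Mathlib
import Pool.Agent.BFT.Defs

/-! # Duality: the reversed order (owner: helper18) -/

set_option autoImplicit false

namespace Pool.Agent.BFT2

open Finset Pool.Agent.Helper1.Balance Pool.Agent.Helper8.KS Pool.Agent.Helper18.KSC Pool.Agent.BFT

variable {n : ℕ} {r : Fin n → Fin n → Prop}

/-- the dual relation -/
def op (r : Fin n → Fin n → Prop) : Fin n → Fin n → Prop := fun a b => r b a

/-- reversal of positions -/
def rv (σ : Equiv.Perm (Fin n)) : Equiv.Perm (Fin n) := σ.trans Fin.revPerm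

theorem rv_rv (σ : Equiv.Perm (Fin n)) : rv (rv σ) = σ := by
  ext a
  simp [rv]

theorem rv_apply (σ : Equiv.Perm (Fin n)) (a : Fin n) : rv σ a = Fin.rev (σ a) := rfl

theorem op_isPoset (hr : IsPoset r) : IsPoset (op r) :=
  ⟨fun a => hr.1 a, fun a b c h1 h2 => hr.2.1 c b a h2 h1, fun a b h1 h2 => hr.2.2 a b h2 h1⟩

theorem op_inc {x y : Fin n} : Inc (op r) x y ↔ Inc r x y :=
  ⟨fun h => ⟨h.2, h.1⟩, fun h => ⟨h.2, h.1⟩⟩

theorem mem_op {σ : Equiv.Perm (Fin n)} : rv σ ∈ LEs (op r) ↔ σ ∈ LEs r := by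
  rw [mem_LEs, mem_LEs]
  constructor
  · intro h a b hab
    have := h b a hab
    rw [rv_apply, rv_apply, Fin.rev_le_rev] at this
    exact this
  · intro h a b hab
    rw [rv_apply, rv_apply, Fin.rev_le_rev]
    exact h b a hab

theorem D_rv (x y : Fin n) (σ : Equiv.Perm (Fin n)) : D x y (rv σ) = D y x σ := by
  unfold D
  rw [rv_apply, rv_apply, Fin.val_rev, Fin.val_rev]
  have h1 := (σ x).2
  have h2 := (σ y).2
  omega

theorem Ex_op (f : Equiv.Perm (Fin n) → ℝ) : Ex (op r) f = Ex r (fun σ => f (rv σ)) := by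
  classical
  have h1 : ∑ σ ∈ LEs (op r), f σ = ∑ σ ∈ LEs r, f (rv σ) := by
    refine Finset.sum_bij' (fun σ _ => rv σ) (fun σ _ => rv σ) ?_ ?_ ?_ ?_ ?_
    · intro σ hσ
      rw [← mem_op (r := r), rv_rv]
      exact hσ
    · intro σ hσ
      exact mem_op.2 hσ
    · intro σ _
      exact rv_rv σ
    · intro σ _
      exact rv_rv σ
    · intro σ _
      rw [rv_rv]
  have h2 : (LEs (op r)).card = (LEs r).card := by
    refine Finset.card_bij' (fun σ _ => rv σ) (fun σ _ => rv σ) ?_ ?_ ?_ ?_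
    · intro σ hσ
      rw [← mem_op (r := r), rv_rv]
      exact hσ
    · intro σ hσ
      exact mem_op.2 hσ
    · intro σ _
      exact rv_rv σ
    · intro σ _
      exact rv_rv σ
  unfold Ex
  rw [h1, h2]

theorem Pr_op (p : Equiv.Perm (Fin n) → Prop) : Pr (op r) p = Pr r (fun σ => p (rv σ)) := by
  unfold Pr
  rw [Ex_op]

theorem prob_op (x y : Fin n) : prob (op r) x y = prob r y x := by
  rw [prob_eq_Pr, prob_eq_Pr, Pr_op]
  congr 1
  funext σ
  rw [rv_apply, rv_apply, Fin.rev_lt_rev]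

theorem gp_op (x y : Fin n) (k : ℤ) : gp (op r) x y k = gp r y x k := by
  unfold gp
  rw [Pr_op]
  simp only [D_rv]

theorem mn_op (x y : Fin n) : mn (op r) x y = mn r y x := by
  unfold mn
  rw [Ex_op]
  simp only [D_rv]

theorem mneg_op (x y : Fin n) : mneg (op r) x y = mneg r y x := by
  unfold mneg
  rw [Ex_op]
  simp only [D_rv]

theorem F_op (x y z : Fin n) (k l : ℤ) : F (op r) x y z k l = F r z y x l k := by
  unfold F
  rw [Pr_op]
  simp only [D_rv]
  congr 1
  funext σ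
  exact propext and_comm

end Pool.Agent.BFT2
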