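import Mathlib
import Pool.Agent.BFT.TripleOne
import Pool.Agent.BFT.Swap
import Pool.Agent.BFT2.Dual

/-! # Counting the elements between two comparable elements (owner: helper18) -/

set_option autoImplicit false

namespace Pool.Agent.BFT2

open Finset Pool.Agent.Helper1.Balance Pool.Agent.Helper8.KS Pool.Agent.Helper18.KSC Pool.Agent.BFT
open Pool.Agent.BFT.One

variable {n : ℕ} {r : Fin n → Fin n → Prop}

/-- `w` lies strictly between `x` and `z` in `σ` -/
def bt (x z w : Fin n) (σ : Equiv.Perm (Fin n)) : Prop := 0 < D x w σ ∧ 0 < D w z σ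

open Classical in
/-- the adjacency probability of an incomparable pair, zero for a comparable pair -/
noncomputable def be (r : Fin n → Fin n → Prop) (x y : Fin n) : ℝ :=
  if Inc r x y then gp r x y 1 else 0

theorem be_nonneg (x y : Fin n) : 0 ≤ be r x y := by
  unfold be
  split_ifs
  · exact Pr_nonneg _
  · exact le_refl _

theorem be_inc {x y : Fin n} (h : Inc r x y) : be r x y = gp r x y 1 := by
  unfold be
  rw [if_pos h]

theorem be_comp {x y : Fin n} (h : ¬ Inc r x y) : be r x y = 0 := by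
  unfold be
  rw [if_neg h]

open Classical in
/-- counting -/
theorem bt_card {x z : Fin n} {σ : Equiv.Perm (Fin n)} (h : 1 ≤ D x z σ) (S : Finset (Fin n)) :
    1 + ((S.filter (fun w => bt x z w σ)).card : ℤ) ≤ D x z σ := by
  have h1 : ((S.filter (fun w => bt x z w σ)).image (fun w => D x w σ)) ⊆
      Finset.Ioo 0 (D x z σ) := by
    intro t ht
    rw [Finset.mem_image] at ht
    obtain ⟨w, hw, rfl⟩ := ht
    rw [Finset.mem_filter] at hw
    obtain ⟨_, h2, h3⟩ := hw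
    have := BFT.One.D_add x w z σ
    rw [Finset.mem_Ioo]
    omega
  have h2 := Finset.card_le_card h1
  rw [Finset.card_image_of_injOn] at h2
  · rw [Int.card_Ioo] at h2
    omega
  · intro a _ b _ hab
    simp only at hab
    unfold D at hab
    apply σ.injective
    apply Fin.ext
    omega

open Classical in
theorem loc_sum (hr : IsPoset r) {x z : Fin n} (hxz : r x z) (hne : x ≠ z) (S : Finset (Fin n)) :
    1 + ∑ w ∈ S, Pr r (bt x z w) ≤ mn r x z := by
  have h1 : ∑ w ∈ S, Pr r (bt x z w) =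
      Ex r (fun σ => ((S.filter (fun w => bt x z w σ)).card : ℝ)) := by
    exact sum_Pr S (fun w σ => bt x z w σ) (fun σ w => bt x z w σ) (fun _ _ => Iff.rfl)
  rw [h1, ← Ex_const hr 1, ← Ex_add]
  unfold mn
  refine Ex_mono_on (fun σ hσ => ?_)
  have := bt_card (BFT.One.D_pos hxz hne hσ) S
  exact_mod_cast this

theorem loc_one (hr : IsPoset r) {x z : Fin n} (hxz : r x z) (hne : x ≠ z) (w : Fin n) :
    1 + Pr r (bt x z w) ≤ mn r x z := by
  classical
  have h := loc_sum hr hxz hne {w}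
  rwa [Finset.sum_singleton] at h

theorem loc_two (hr : IsPoset r) {x z : Fin n} (hxz : r x z) (hne : x ≠ z) {w y : Fin n}
    (h1 : w ≠ y) : 1 + Pr r (bt x z w) + Pr r (bt x z y) ≤ mn r x z := by
  classical
  have h := loc_sum hr hxz hne {w, y}
  rw [Finset.sum_pair h1] at h
  linarith

theorem loc_three (hr : IsPoset r) {x z : Fin n} (hxz : r x z) (hne : x ≠ z) {w y v : Fin n}
    (h1 : w ≠ y) (h2 : w ≠ v) (h3 : y ≠ v) :
    1 + Pr r (bt x z w) + Pr r (bt x z y) + Pr r (bt x z v) ≤ mn r x z := by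
  classical
  have h := loc_sum hr hxz hne {w, y, v}
  rw [Finset.sum_insert (by simp [h1, h2]), Finset.sum_pair h3] at h
  linarith

/-! ## the probability of lying between -/

/-- `x < y < z` -/
theorem bt_chain (hr : IsPoset r) {x y z : Fin n} (hxy : r x y) (hyz : r y z) (h1 : x ≠ y)
    (h2 : y ≠ z) : Pr r (bt x z y) = 1 := by
  rw [← Ex_const hr 1]
  unfold Pr
  refine Ex_congr_on (fun σ hσ => ?_)
  have e1 := BFT.One.D_pos hxy h1 hσ
  have e2 := BFT.One.D_pos hyz h2 hσ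
  rw [if_pos]
  exact ⟨by omega, by omega⟩

/-- `x < z`, any `y` -/
theorem bt_mid (hr : IsPoset r) {x y z : Fin n} (hxz : r x z) (hne : x ≠ z) (h1 : x ≠ y)
    (h2 : y ≠ z) : Pr r (bt x z y) = 1 - prob r y x - prob r z y := by
  classical
  have key : Pr r (bt x z y) + Pr r (fun σ => D x y σ < 0) + Pr r (fun σ => D y z σ < 0) = 1 := by
    rw [← Ex_ii, ← Ex_ii (fun σ => D x y σ < 0), ← Ex_ii (fun σ => D y z σ < 0), ← Ex_add,
      ← Ex_add, ← Ex_const hr 1]
    refine Ex_congr_on (fun σ hσ => ?_)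
    have e1 := BFT.One.D_pos hxz hne hσ
    have e2 := BFT.One.D_add x y z σ
    have e3 := BFT.One.D_ne h1 σ
    have e4 := BFT.One.D_ne h2 σ
    have : ii (bt x z y σ) + ii (D x y σ < 0) + ii (D y z σ < 0) = 1 := by
      unfold ii bt
      split_ifs <;> omega
    exact_mod_cast this
  rw [← prob_D, ← prob_D] at key
  linarith

/-- `x < z`, `w < z` -/
theorem bt_left {x z w : Fin n} (hwz : r w z) (h1 : w ≠ z) :
    Pr r (bt x z w) = prob r x w := by
  rw [prob_D, ← Ex_ii, ← Ex_ii (fun σ => D w x σ < 0)]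
  refine Ex_congr_on (fun σ hσ => ?_)
  have e1 := BFT.One.D_pos hwz h1 hσ
  have e2 : D w x σ = - D x w σ := by unfold D; ring
  have : ii (bt x z w σ) = ii (D w x σ < 0) := by
    unfold ii bt
    split_ifs <;> omega
  exact_mod_cast this

/-- `x < z`, `x < v` -/
theorem bt_right {x z v : Fin n} (hxv : r x v) (h1 : x ≠ v) :
    Pr r (bt x z v) = prob r v z := by
  rw [prob_D, ← Ex_ii, ← Ex_ii (fun σ => D z v σ < 0)]
  refine Ex_congr_on (fun σ hσ => ?_)
  have e1 := BFT.One.D_pos hxv h1 hσ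
  have e2 : D z v σ = - D v z σ := by unfold D; ring
  have : ii (bt x z v σ) = ii (D z v σ < 0) := by
    unfold ii bt
    split_ifs <;> omega
  exact_mod_cast this

/-- `w` right after `x` -/
theorem be_le_left (hr : IsPoset r) {x z w : Fin n} (hxz : r x z) (hne : x ≠ z) (h1 : w ≠ z) :
    be r w x ≤ Pr r (bt x z w) := by
  by_cases h : Inc r w x
  · rw [be_inc h, ← gp_neg_one hr h]
    unfold gp
    rw [← Ex_ii, ← Ex_ii (bt x z w)]
    refine Ex_mono_on (fun σ hσ => ?_)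
    have e1 := BFT.One.D_pos hxz hne hσ
    have e2 : D w x σ = - D x w σ := by unfold D; ring
    have e3 := BFT.One.D_add x w z σ
    have e4 := BFT.One.D_ne h1 σ
    have : ii (D w x σ = -1) ≤ ii (bt x z w σ) := by
      unfold ii bt
      split_ifs <;> omega
    exact_mod_cast this
  · rw [be_comp h]
    exact Pr_nonneg _

/-- `v` right before `z` -/
theorem be_le_right (hr : IsPoset r) {x z v : Fin n} (hxz : r x z) (hne : x ≠ z) (h1 : x ≠ v) :
    be r z v ≤ Pr r (bt x z v) := by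
  by_cases h : Inc r z v
  · rw [be_inc h, ← gp_neg_one hr h]
    unfold gp
    rw [← Ex_ii, ← Ex_ii (bt x z v)]
    refine Ex_mono_on (fun σ hσ => ?_)
    have e1 := BFT.One.D_pos hxz hne hσ
    have e2 : D z v σ = - D v z σ := by unfold D; ring
    have e3 := BFT.One.D_add x v z σ
    have e4 := BFT.One.D_ne h1 σ
    have : ii (D z v σ = -1) ≤ ii (bt x z v σ) := by
      unfold ii bt
      split_ifs <;> omega
    exact_mod_cast this
  · rw [be_comp h]
    exact Pr_nonneg _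

/-! ## the local inequalities (`x0, x1, x2, x3, x4` consecutive) -/

/-- a comparable pair `x1 < x2` -/
theorem loc_C (hr : IsPoset r) {x0 x1 x2 x3 : Fin n} (h12 : r x1 x2) (n12 : x1 ≠ x2)
    (n02 : x0 ≠ x2) (n13 : x1 ≠ x3) (n03 : x0 ≠ x3) :
    1 + be r x0 x1 + be r x2 x3 ≤ mn r x1 x2 := by
  have h := loc_two hr h12 n12 n03
  have h1 := be_le_left hr h12 n12 n02
  have h2 := be_le_right hr h12 n12 n13
  linarith

/-- two comparable pairs `x1 < x2 < x3` -/
theorem loc_CC (hr : IsPoset r) {x0 x1 x2 x3 x4 : Fin n} (h12 : r x1 x2) (h23 : r x2 x3)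
    (n12 : x1 ≠ x2) (n23 : x2 ≠ x3) (n13 : x1 ≠ x3) (n02 : x0 ≠ x2) (n03 : x0 ≠ x3)
    (n04 : x0 ≠ x4) (n14 : x1 ≠ x4) (n24 : x2 ≠ x4) :
    2 + be r x0 x1 + be r x3 x4 ≤ mn r x1 x3 := by
  have h13 : r x1 x3 := hr.2.1 x1 x2 x3 h12 h23
  have h := loc_three hr h13 n13 n02 n04 n24
  have h1 := be_le_left hr h13 n13 n03
  have h2 := be_le_right hr h13 n13 n14
  have h3 := bt_chain hr h12 h23 n12 n23
  linarith

/-- type (1), any neighbours -/
theorem loc_bb (hr : IsPoset r) {x0 x1 x2 x3 x4 : Fin n} (h13 : r x1 x3)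
    (n12 : x1 ≠ x2) (n23 : x2 ≠ x3) (n13 : x1 ≠ x3) (n02 : x0 ≠ x2) (n03 : x0 ≠ x3)
    (n04 : x0 ≠ x4) (n14 : x1 ≠ x4) (n24 : x2 ≠ x4) :
    2 + (be r x0 x1 - prob r x2 x1 - prob r x3 x2 + be r x3 x4) ≤ mn r x1 x3 := by
  have h := loc_three hr h13 n13 n02 n04 n24
  have h1 := be_le_left hr h13 n13 n03
  have h2 := be_le_right hr h13 n13 n14
  have h3 := bt_mid hr h13 n13 n12 n23
  linarith

/-- type (1), no defect on the left (`x0 < x3`) -/
theorem loc_qb (hr : IsPoset r) {x0 x1 x2 x3 x4 : Fin n} (h13 : r x1 x3) (h03 : r x0 x3)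
    (n12 : x1 ≠ x2) (n23 : x2 ≠ x3) (n13 : x1 ≠ x3) (n02 : x0 ≠ x2) (n03 : x0 ≠ x3)
    (n04 : x0 ≠ x4) (n14 : x1 ≠ x4) (n24 : x2 ≠ x4) :
    2 + (prob r x1 x0 - prob r x2 x1 - prob r x3 x2 + be r x3 x4) ≤ mn r x1 x3 := by
  have h := loc_three hr h13 n13 n02 n04 n24
  have h1 := bt_left (x := x1) h03 n03
  have h2 := be_le_right hr h13 n13 n14
  have h3 := bt_mid hr h13 n13 n12 n23
  linarith

/-- type (1), no defect on the right (`x1 < x4`) -/
theorem loc_bq (hr : IsPoset r) {x0 x1 x2 x3 x4 : Fin n} (h13 : r x1 x3) (h14 : r x1 x4)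
    (n12 : x1 ≠ x2) (n23 : x2 ≠ x3) (n13 : x1 ≠ x3) (n02 : x0 ≠ x2) (n03 : x0 ≠ x3)
    (n04 : x0 ≠ x4) (n14 : x1 ≠ x4) (n24 : x2 ≠ x4) :
    2 + (be r x0 x1 - prob r x2 x1 - prob r x3 x2 + prob r x4 x3) ≤ mn r x1 x3 := by
  have h := loc_three hr h13 n13 n02 n04 n24
  have h1 := be_le_left hr h13 n13 n03
  have h2 := bt_right (z := x3) h14 n14
  have h3 := bt_mid hr h13 n13 n12 n23
  linarith

/-- type (1), NO DEFECT (`x0 < x3`, `x1 < x4`) -/
theorem loc_qq (hr : IsPoset r) {x0 x1 x2 x3 x4 : Fin n} (h13 : r x1 x3) (h03 : r x0 x3)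
    (h14 : r x1 x4)
    (n12 : x1 ≠ x2) (n23 : x2 ≠ x3) (n13 : x1 ≠ x3) (n02 : x0 ≠ x2) (n03 : x0 ≠ x3)
    (n04 : x0 ≠ x4) (n14 : x1 ≠ x4) (n24 : x2 ≠ x4) :
    2 + (prob r x1 x0 - prob r x2 x1 - prob r x3 x2 + prob r x4 x3) ≤ mn r x1 x3 := by
  have h := loc_three hr h13 n13 n02 n04 n24
  have h1 := bt_left (x := x1) h03 n03
  have h2 := bt_right (z := x3) h14 n14
  have h3 := bt_mid hr h13 n13 n12 n23
  linarith

end Pool.Agent.BFT2
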