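import Mathlib
import Pool.Agent.BFT.TripleOne
import Pool.Agent.BFT.CP
import Pool.Agent.BFT2.Dual

/-! # Type (1) triples, sharp forms (owner: helper18) -/

set_option autoImplicit false

namespace Pool.Agent.BFT2

open Finset Pool.Agent.Helper1.Balance Pool.Agent.Helper8.KS Pool.Agent.Helper18.KSC Pool.Agent.BFT
open Pool.Agent.BFT.One

variable {n : ℕ} {r : Fin n → Fin n → Prop}

/-- mass of `D x y = 1, D y z ≥ 3` (for `x < z`, `y` incomparable to both) -/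
noncomputable def Ta (r : Fin n → Fin n → Prop) (x y z : Fin n) : ℝ :=
  gp r x y 1 - F r x y z 1 1 - F r x y z 1 2

/-- mass of `D x y ≥ 3, D y z = 1` -/
noncomputable def Tb (r : Fin n → Fin n → Prop) (x y z : Fin n) : ℝ :=
  gp r y z 1 - F r x y z 1 1 - F r x y z 2 1

theorem Ta_eq {x y z : Fin n} (hxz : r x z) (hne : x ≠ z) (hyz : y ≠ z) :
    Ta r x y z = Pr r (fun σ => D x y σ = 1 ∧ 3 ≤ D y z σ) := by
  classical
  unfold Ta gp F
  rw [sub_sub, sub_eq_iff_eq_add]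
  rw [← Ex_ii, ← Ex_ii (fun σ => D x y σ = 1 ∧ 3 ≤ D y z σ),
    ← Ex_ii (fun σ => D x y σ = 1 ∧ D y z σ = 1), ← Ex_ii (fun σ => D x y σ = 1 ∧ D y z σ = 2),
    ← Ex_add, ← Ex_add]
  refine Ex_congr_on (fun σ hσ => ?_)
  have h1 := BFT.One.D_pos hxz hne hσ
  have h2 := BFT.One.D_add x y z σ
  have h3 := BFT.One.D_ne hyz σ
  have : ii (D x y σ = 1) = ii (D x y σ = 1 ∧ 3 ≤ D y z σ) +
      (ii (D x y σ = 1 ∧ D y z σ = 1) + ii (D x y σ = 1 ∧ D y z σ = 2)) := by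
    unfold ii
    split_ifs <;> omega
  exact_mod_cast this

theorem Tb_eq {x y z : Fin n} (hxz : r x z) (hne : x ≠ z) (hxy : x ≠ y) :
    Tb r x y z = Pr r (fun σ => 3 ≤ D x y σ ∧ D y z σ = 1) := by
  classical
  unfold Tb gp F
  rw [sub_sub, sub_eq_iff_eq_add]
  rw [← Ex_ii, ← Ex_ii (fun σ => 3 ≤ D x y σ ∧ D y z σ = 1),
    ← Ex_ii (fun σ => D x y σ = 1 ∧ D y z σ = 1), ← Ex_ii (fun σ => D x y σ = 2 ∧ D y z σ = 1),
    ← Ex_add, ← Ex_add]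
  refine Ex_congr_on (fun σ hσ => ?_)
  have h1 := BFT.One.D_pos hxz hne hσ
  have h2 := BFT.One.D_add x y z σ
  have h3 := BFT.One.D_ne hxy σ
  have : ii (D y z σ = 1) = ii (3 ≤ D x y σ ∧ D y z σ = 1) +
      (ii (D x y σ = 1 ∧ D y z σ = 1) + ii (D x y σ = 2 ∧ D y z σ = 1)) := by
    unfold ii
    split_ifs <;> omega
  exact_mod_cast this

/-- pure integers -/
theorem phiA (X Y : ℤ) (hX : X ≠ 0) (hY : Y ≠ 0) (hZ : 1 ≤ X + Y) :
    4 * (1 - ii (X < 0) - ii (Y < 0)) - 6 * ii (X = 1 ∧ Y = 1) + 2 * ii (X = 1)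
      - 2 * ii (X = 1 ∧ Y = 2) + 2 * ii (Y = 1) - 2 * ii (X = 2 ∧ Y = 1) ≤
      ii (1 ≤ X ∧ 1 ≤ Y) * (X + Y) + ii (X = 1) * Y + ii (Y = 1) * X - ii (X = 1) - ii (Y = 1) := by
  by_cases c1 : X < 0
  · unfold ii
    rw [if_pos c1, if_neg (show ¬ Y < 0 by omega), if_neg (show ¬ (X = 1 ∧ Y = 1) by omega),
      if_neg (show ¬ X = 1 by omega), if_neg (show ¬ (X = 1 ∧ Y = 2) by omega),
      if_neg (show ¬ Y = 1 by omega), if_neg (show ¬ (X = 2 ∧ Y = 1) by omega),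
      if_neg (show ¬ (1 ≤ X ∧ 1 ≤ Y) by omega)]
    omega
  · by_cases c2 : Y < 0
    · unfold ii
      rw [if_neg c1, if_pos c2, if_neg (show ¬ (X = 1 ∧ Y = 1) by omega),
        if_neg (show ¬ X = 1 by omega), if_neg (show ¬ (X = 1 ∧ Y = 2) by omega),
        if_neg (show ¬ Y = 1 by omega), if_neg (show ¬ (X = 2 ∧ Y = 1) by omega),
        if_neg (show ¬ (1 ≤ X ∧ 1 ≤ Y) by omega)]
      omega
    · unfold ii
      rw [if_neg c1, if_neg c2, if_pos (show 1 ≤ X ∧ 1 ≤ Y by omega)]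
      split_ifs <;> omega

theorem phiB (X Y : ℤ) (hX : X ≠ 0) (hY : Y ≠ 0) (hZ : 1 ≤ X + Y) :
    6 * (1 - ii (X < 0) - ii (Y < 0)) - 4 * ii (X = 1 ∧ Y = 1)
      - 2 * ii (X = 1 ∧ Y = 2) - 2 * ii (X = 2 ∧ Y = 1) - 2 * ii (X = 2 ∧ Y = 2)
      - ii (X = 2 ∧ Y = 3) - ii (X = 3 ∧ Y = 2) ≤
      ii (1 ≤ X ∧ 1 ≤ Y) * (X + Y) + ii (X = 1) * Y + ii (Y = 1) * X - ii (X = 1) - ii (Y = 1) := by
  by_cases c1 : X < 0
  · unfold ii
    rw [if_pos c1]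
    split_ifs <;> omega
  · by_cases c2 : Y < 0
    · unfold ii
      rw [if_pos c2, if_neg c1]
      split_ifs <;> omega
    · unfold ii
      rw [if_neg c1, if_neg c2, if_pos (show 1 ≤ X ∧ 1 ≤ Y by omega)]
      by_cases c3 : X = 1
      · rw [if_pos c3]
        split_ifs <;> omega
      · rw [if_neg c3, if_neg (fun h => c3 h.1), if_neg (fun h => c3 h.1)]
        split_ifs <;> omega

/-- (A) with the tails -/
theorem one_A' (hr : IsPoset r) {x y z : Fin n} (hxz : r x z) (hne : x ≠ z) (hxy : Inc r x y)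
    (hyz : Inc r y z) :
    4 - 3 * (prob r y x + prob r z y) - 2 * F r x y z 1 1 + 2 * (Ta r x y z + Tb r x y z)
      ≤ mn r x z := by
  have hxy' := hxy.ne hr
  have hyz' := hyz.ne hr
  have h1 := base hr hxz hne hxy hyz (fun σ => 4 * (1 - ii (D x y σ < 0) - ii (D y z σ < 0))
      - 6 * ii (D x y σ = 1 ∧ D y z σ = 1) + 2 * ii (D x y σ = 1)
      - 2 * ii (D x y σ = 1 ∧ D y z σ = 2) + 2 * ii (D y z σ = 1)
      - 2 * ii (D x y σ = 2 ∧ D y z σ = 1)) (by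
    intro σ hσ
    have hZ := BFT.One.D_pos hxz hne hσ
    have hs := BFT.One.D_add x y z σ
    have := phiA (D x y σ) (D y z σ) (BFT.One.D_ne hxy' σ) (BFT.One.D_ne hyz' σ) (by omega)
    rwa [hs] at this)
  have h2 : Ex r (fun σ => (((4 * (1 - ii (D x y σ < 0) - ii (D y z σ < 0))
      - 6 * ii (D x y σ = 1 ∧ D y z σ = 1) + 2 * ii (D x y σ = 1)
      - 2 * ii (D x y σ = 1 ∧ D y z σ = 2) + 2 * ii (D y z σ = 1)
      - 2 * ii (D x y σ = 2 ∧ D y z σ = 1) : ℤ) : ℝ))) =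
      4 * (1 - prob r y x - prob r z y) - 6 * F r x y z 1 1 + 2 * gp r x y 1
        - 2 * F r x y z 1 2 + 2 * gp r y z 1 - 2 * F r x y z 2 1 := by
    have : Ex r (fun σ => (4 * ((1 : ℝ) - ((ii (D x y σ < 0) : ℤ) : ℝ) -
        ((ii (D y z σ < 0) : ℤ) : ℝ)) - 6 * ((ii (D x y σ = 1 ∧ D y z σ = 1) : ℤ) : ℝ)
        + 2 * ((ii (D x y σ = 1) : ℤ) : ℝ) - 2 * ((ii (D x y σ = 1 ∧ D y z σ = 2) : ℤ) : ℝ)
        + 2 * ((ii (D y z σ = 1) : ℤ) : ℝ) - 2 * ((ii (D x y σ = 2 ∧ D y z σ = 1) : ℤ) : ℝ))) =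
        4 * (1 - prob r y x - prob r z y) - 6 * F r x y z 1 1 + 2 * gp r x y 1
        - 2 * F r x y z 1 2 + 2 * gp r y z 1 - 2 * F r x y z 2 1 := by
      simp only [Ex_add, Ex_sub, Ex_mul_left, Ex_ii, Ex_const hr, prob_D]
      rfl
    rw [← this]
    congr 1
    funext σ
    push_cast
    ring
  rw [h2] at h1
  unfold Ta Tb
  linarith

theorem F23_le (hr : IsPoset r) {x y z : Fin n} (hxz : r x z) (hne : x ≠ z) (hxy : Inc r x y)
    (hyz : y ≠ z) : F r x y z 2 3 ≤ Ta r x y z := by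
  refine (F23 hr hxy).trans ?_
  rw [Ta_eq hxz hne hyz]
  have := Pr_four_le (r := r) (fun σ => D x y σ = 1 ∧ D y z σ = 3)
      (fun σ => D x y σ = 1 ∧ D y z σ = 4) (fun _ => False) (fun _ => False)
      (fun σ => D x y σ = 1 ∧ 3 ≤ D y z σ) (by
        intro σ _
        unfold ii
        rw [if_neg not_false]
        split_ifs <;> omega)
  have h0 := Pr_nonneg (r := r) (fun _ => False)
  unfold F
  linarith

theorem F32_le (hr : IsPoset r) {x y z : Fin n} (hxz : r x z) (hne : x ≠ z) (hxy : x ≠ y)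
    (hyz : Inc r y z) : F r x y z 3 2 ≤ Tb r x y z := by
  refine (F32 hr hyz).trans ?_
  rw [Tb_eq hxz hne hxy]
  have := Pr_four_le (r := r) (fun σ => D x y σ = 3 ∧ D y z σ = 1)
      (fun σ => D x y σ = 4 ∧ D y z σ = 1) (fun _ => False) (fun _ => False)
      (fun σ => 3 ≤ D x y σ ∧ D y z σ = 1) (by
        intro σ _
        unfold ii
        rw [if_neg not_false]
        split_ifs <;> omega)
  have h0 := Pr_nonneg (r := r) (fun _ => False)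
  unfold F
  linarith

/-- (B) with the tails -/
theorem one_B' (hr : IsPoset r) {x y z : Fin n} (hxz : r x z) (hne : x ≠ z) (hxy : Inc r x y)
    (hyz : Inc r y z) :
    6 - 5 * (prob r y x + prob r z y) - 2 * (gp r x y 1 + gp r y z 1)
      + (Ta r x y z + Tb r x y z) - 2 * F r x y z 2 2 ≤ mn r x z := by
  have hxy' := hxy.ne hr
  have hyz' := hyz.ne hr
  have h1 := base hr hxz hne hxy hyz (fun σ => 6 * (1 - ii (D x y σ < 0) - ii (D y z σ < 0)) -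
    4 * ii (D x y σ = 1 ∧ D y z σ = 1) - 2 * ii (D x y σ = 1 ∧ D y z σ = 2) -
    2 * ii (D x y σ = 2 ∧ D y z σ = 1) - 2 * ii (D x y σ = 2 ∧ D y z σ = 2) -
    ii (D x y σ = 2 ∧ D y z σ = 3) - ii (D x y σ = 3 ∧ D y z σ = 2)) (by
    intro σ hσ
    have hZ := BFT.One.D_pos hxz hne hσ
    have hs := BFT.One.D_add x y z σ
    have := phiB (D x y σ) (D y z σ) (BFT.One.D_ne hxy' σ) (BFT.One.D_ne hyz' σ) (by omega)
    rwa [hs] at this)
  have h2 : Ex r (fun σ => (((6 * (1 - ii (D x y σ < 0) - ii (D y z σ < 0)) -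
      4 * ii (D x y σ = 1 ∧ D y z σ = 1) - 2 * ii (D x y σ = 1 ∧ D y z σ = 2) -
      2 * ii (D x y σ = 2 ∧ D y z σ = 1) - 2 * ii (D x y σ = 2 ∧ D y z σ = 2) -
      ii (D x y σ = 2 ∧ D y z σ = 3) - ii (D x y σ = 3 ∧ D y z σ = 2) : ℤ) : ℝ))) =
      6 * (1 - prob r y x - prob r z y) - 4 * F r x y z 1 1 - 2 * F r x y z 1 2 -
      2 * F r x y z 2 1 - 2 * F r x y z 2 2 - F r x y z 2 3 - F r x y z 3 2 := by
    have : Ex r (fun σ => (6 * ((1 : ℝ) - ((ii (D x y σ < 0) : ℤ) : ℝ) -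
        ((ii (D y z σ < 0) : ℤ) : ℝ)) - 4 * ((ii (D x y σ = 1 ∧ D y z σ = 1) : ℤ) : ℝ) -
        2 * ((ii (D x y σ = 1 ∧ D y z σ = 2) : ℤ) : ℝ) -
        2 * ((ii (D x y σ = 2 ∧ D y z σ = 1) : ℤ) : ℝ) -
        2 * ((ii (D x y σ = 2 ∧ D y z σ = 2) : ℤ) : ℝ) -
        ((ii (D x y σ = 2 ∧ D y z σ = 3) : ℤ) : ℝ) -
        ((ii (D x y σ = 3 ∧ D y z σ = 2) : ℤ) : ℝ))) =
        6 * (1 - prob r y x - prob r z y) - 4 * F r x y z 1 1 - 2 * F r x y z 1 2 -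
        2 * F r x y z 2 1 - 2 * F r x y z 2 2 - F r x y z 2 3 - F r x y z 3 2 := by
      simp only [Ex_sub, Ex_mul_left, Ex_ii, Ex_const hr, prob_D]
      rfl
    rw [← this]
    congr 1
    funext σ
    push_cast
    ring
  rw [h2] at h1
  have h3 := F23_le hr hxz hne hxy hyz'
  have h4 := F32_le hr hxz hne hxy' hyz
  unfold Ta at h3
  unfold Tb at h4
  unfold Ta Tb
  linarith

end Pool.Agent.BFT2
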