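import Mathlib
import Pool.Agent.BFT2.One
import Pool.Agent.BFT.Swap

/-! # Type (1) triples with a ladder defect (owner: helper18) -/

set_option autoImplicit false

namespace Pool.Agent.BFT2

open Finset Pool.Agent.Helper1.Balance Pool.Agent.Helper8.KS Pool.Agent.Helper18.KSC Pool.Agent.BFT
open Pool.Agent.BFT.One

variable {n : ℕ} {r : Fin n → Fin n → Prop}

/-- the numbers -/
theorem defect_num {d q0 q1 q2 q3 b1 b2 u v f12 f21 gap : ℝ}
    (h0 : q0 ≤ d) (h1 : q1 ≤ d) (h2 : q2 ≤ d) (h3 : q3 ≤ d) (hb2 : b2 ≤ q2)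
    (hu : 0 ≤ u) (hf12 : 0 ≤ f12) (hf21 : 0 ≤ f21)
    (hT1 : 0 ≤ b1 - u - f12) (hT2 : 0 ≤ b2 - u - f21)
    (hA : 4 - 3 * (q1 + q2) - 2 * u + 2 * ((b1 - u - f12) + (b2 - u - f21)) ≤ gap)
    (hB : 6 - 5 * (q1 + q2) - 2 * (b1 + b2) + ((b1 - u - f12) + (b2 - u - f21)) - 2 * v ≤ gap)
    (hC : u * v ≤ f12 * f21)
    (hD : q1 + q2 + q3 + b2 - 1 ≤ 2 * (q1 - b1) + (b1 - u - f12)) :
    2 + (q0 - q1 - q2 + q3) + (2 - 7 * d) ≤ gap := by
  by_contra hcon
  push Not at hcon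
  -- from (A)
  have hu2 : 6 * d - 2 * q1 - 2 * q2 - q3 + 2 * ((b1 - u - f12) + (b2 - u - f21)) < 2 * u := by
    linarith
  have hupos : 0 < u := by linarith
  -- from (B)
  have hv2 : 1 - 5 * q1 - 4 * q2 + 6 * d + (q2 - b2) + (b2 - u - f21) < 2 * v := by
    linarith
  have hV1 : 2 * f12 ≤ 1 - 5 * q1 - 4 * q2 + 6 * d + (q2 - b2) + (b2 - u - f21) := by
    linarith
  have hfu : f21 ≤ u := by linarith
  have h5 : f12 < v := by linarith
  nlinarith

/-- the combinatorial inequality: `a < c`, `b < e`, all other pairs incomparable -/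
theorem defect_comb (hr : IsPoset r) {a b c e : Fin n} (hac : r a c) (hbe : r b e)
    (hab : Inc r a b) (hbc : Inc r b c) (hce : Inc r c e) (hae : Inc r a e)
    (h1 : a ≠ c) (h2 : b ≠ e) :
    prob r b a + prob r c b + prob r e c + gp r b c 1 - 1 ≤
      2 * (prob r b a - gp r a b 1) + Ta r a b c := by
  classical
  have nab := hab.ne hr
  have nbc := hbc.ne hr
  have nce := hce.ne hr
  have nae := hae.ne hr
  -- union bound
  have hU : Pr r (fun σ => D a b σ < 0) + Pr r (fun σ => D c e σ < 0) +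
      Pr r (fun σ => D b c σ < 0) + Pr r (fun σ => D b c σ = 1) ≤
      1 + Pr r (fun σ => D a b σ < 0 ∧ D c e σ < 0) := by
    rw [← Ex_ii, ← Ex_ii (fun σ => D c e σ < 0), ← Ex_ii (fun σ => D b c σ < 0),
      ← Ex_ii (fun σ => D b c σ = 1), ← Ex_ii (fun σ => D a b σ < 0 ∧ D c e σ < 0),
      ← Ex_const hr 1, ← Ex_add, ← Ex_add, ← Ex_add, ← Ex_add]
    refine Ex_mono_on (fun σ hσ => ?_)
    have p1 := BFT.One.D_pos hac h1 hσ
    have p2 := BFT.One.D_pos hbe h2 hσ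
    have s1 := BFT.One.D_add a b c σ
    have s2 := BFT.One.D_add b c e σ
    have z1 := BFT.One.D_ne nab σ
    have z2 := BFT.One.D_ne nbc σ
    have z3 := BFT.One.D_ne nce σ
    have : ii (D a b σ < 0) + ii (D c e σ < 0) + ii (D b c σ < 0) + ii (D b c σ = 1) ≤
        1 + ii (D a b σ < 0 ∧ D c e σ < 0) := by
      unfold ii
      split_ifs <;> omega
    exact_mod_cast this
  -- the intersection
  have hI : Pr r (fun σ => D a b σ < 0 ∧ D c e σ < 0) ≤
      Pr r (fun σ => D a b σ ≤ -2) + Pr r (fun σ => D a b σ = -1 ∧ 3 ≤ D a c σ) +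
        Pr r (fun σ => D b a σ = 1 ∧ D a e σ = 1 ∧ D e c σ = 1) := by
    rw [← Ex_ii, ← Ex_ii (fun σ => D a b σ ≤ -2), ← Ex_ii (fun σ => D a b σ = -1 ∧ 3 ≤ D a c σ),
      ← Ex_ii (fun σ => D b a σ = 1 ∧ D a e σ = 1 ∧ D e c σ = 1), ← Ex_add, ← Ex_add]
    refine Ex_mono_on (fun σ hσ => ?_)
    have p1 := BFT.One.D_pos hac h1 hσ
    have p2 := BFT.One.D_pos hbe h2 hσ
    have s1 := BFT.One.D_add a b c σ
    have s2 := BFT.One.D_add b c e σ
    have s3 := BFT.One.D_add a e c σ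
    have s4 := BFT.One.D_add b a e σ
    have s5 := BFT.One.D_add a b a σ
    have s6 := BFT.One.D_add c e c σ
    have s7 : D a a σ = 0 := by unfold D; ring
    have s8 : D c c σ = 0 := by unfold D; ring
    have z1 := BFT.One.D_ne nab σ
    have z2 := BFT.One.D_ne nbc σ
    have z3 := BFT.One.D_ne nce σ
    have z4 := BFT.One.D_ne nae σ
    have : ii (D a b σ < 0 ∧ D c e σ < 0) ≤
        ii (D a b σ ≤ -2) + ii (D a b σ = -1 ∧ 3 ≤ D a c σ) +
          ii (D b a σ = 1 ∧ D a e σ = 1 ∧ D e c σ = 1) := by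
      unfold ii
      split_ifs <;> omega
    exact_mod_cast this
  -- `b a e c` against `b e a c`
  have hE : Pr r (fun σ => D b a σ = 1 ∧ D a e σ = 1 ∧ D e c σ = 1) ≤
      Pr r (fun σ => D a b σ ≤ -2) := by
    refine Pr_le_of_inj r _ _ (fun σ => σ * Equiv.swap a e) ?_ ?_
    · rintro σ hσ ⟨e1, e2, e3⟩
      refine ⟨sw_mem hσ e2 hae.1, ?_⟩
      unfold D at e1 e2 ⊢
      rw [sw_left, sw_ne σ (Ne.symm nab) h2]
      omega
    · intro σ _ _ τ _ _ h
      exact mul_right_cancel h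
  -- `X = -1, Z ≥ 3` against `X = 1, Y ≥ 3`
  have hT : Pr r (fun σ => D a b σ = -1 ∧ 3 ≤ D a c σ) ≤ Ta r a b c := by
    rw [Ta_eq hac h1 nbc]
    refine Pr_le_of_inj r _ _ (fun σ => σ * Equiv.swap a b) ?_ ?_
    · rintro σ hσ ⟨e1, e2⟩
      have e3 : D b a σ = 1 := by
        unfold D at e1 ⊢
        omega
      have m := sw_mem hσ e3 hab.2
      rw [Equiv.swap_comm] at m
      refine ⟨m, ?_⟩
      unfold D at e1 e2 ⊢
      rw [sw_left, sw_right, sw_ne σ (Ne.symm h1) (Ne.symm nbc)]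
      omega
    · intro σ _ _ τ _ _ h
      exact mul_right_cancel h
  -- `Pr (X ≤ -2) = q - β`
  have hQ : Pr r (fun σ => D a b σ ≤ -2) = prob r b a - gp r a b 1 := by
    rw [prob_D, ← gp_neg_one hr hab]
    unfold gp
    rw [eq_sub_iff_add_eq, ← Ex_ii, ← Ex_ii (fun σ => D a b σ = -1),
      ← Ex_ii (fun σ => D a b σ < 0), ← Ex_add]
    refine Ex_congr_on (fun σ _ => ?_)
    have : ii (D a b σ ≤ -2) + ii (D a b σ = -1) = ii (D a b σ < 0) := by
      unfold ii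
      split_ifs <;> omega
    exact_mod_cast this
  rw [← prob_D, ← prob_D, ← prob_D] at hU
  unfold gp at hQ ⊢
  linarith

/-- TYPE (1) WITH A DEFECT ON THE RIGHT -/
theorem defect_right (hr : IsPoset r) {a b c e : Fin n} (hac : r a c) (hbe : r b e)
    (hab : Inc r a b) (hbc : Inc r b c) (hce : Inc r c e) (hae : Inc r a e)
    (h1 : a ≠ c) (h2 : b ≠ e) {d q0 : ℝ} (hq0 : q0 ≤ d) (hq1 : prob r b a ≤ d)
    (hq2 : prob r c b ≤ d) (hq3 : prob r e c ≤ d) :
    2 + (q0 - prob r b a - prob r c b + prob r e c) + (2 - 7 * d) ≤ mn r a c := by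
  have nab := hab.ne hr
  have nbc := hbc.ne hr
  have hTa : 0 ≤ Ta r a b c := by
    rw [Ta_eq hac h1 nbc]
    exact Pr_nonneg _
  have hTb : 0 ≤ Tb r a b c := by
    rw [Tb_eq hac h1 nab]
    exact Pr_nonneg _
  have hb2 : gp r b c 1 ≤ prob r c b := by
    rw [← gp_neg_one hr hbc]
    rw [prob_D]
    exact Pr_mono (fun σ h => by omega)
  exact defect_num (d := d) hq0 hq1 hq2 hq3 hb2 (Pr_nonneg _) (Pr_nonneg _) (Pr_nonneg _) hTa hTb
    (one_A' hr hac h1 hab hbc) (one_B' hr hac h1 hab hbc) (cross hr nab nbc h1)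
    (defect_comb hr hac hbe hab hbc hce hae h1 h2)

/-- TYPE (1) WITH A DEFECT ON THE LEFT: the triple `b, c, e` and `a` with `a < c`, `a || e` -/
theorem defect_left (hr : IsPoset r) {a b c e : Fin n} (hac : r a c) (hbe : r b e)
    (hab : Inc r a b) (hbc : Inc r b c) (hce : Inc r c e) (hae : Inc r a e)
    (h1 : a ≠ c) (h2 : b ≠ e) {d q4 : ℝ} (hq1 : prob r b a ≤ d) (hq2 : prob r c b ≤ d)
    (hq3 : prob r e c ≤ d) (hq4 : q4 ≤ d) :
    2 + (prob r b a - prob r c b - prob r e c + q4) + (2 - 7 * d) ≤ mn r b e := by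
  have h := defect_right (r := op r) (a := e) (b := c) (c := b) (e := a) (op_isPoset hr)
    hbe hac (op_inc.2 hce.symm) (op_inc.2 hbc.symm) (op_inc.2 hab.symm) (op_inc.2 hae.symm)
    (Ne.symm h2) (Ne.symm h1) (d := d) (q0 := q4) hq4
    (by rw [prob_op]; exact hq3) (by rw [prob_op]; exact hq2) (by rw [prob_op]; exact hq1)
  rw [prob_op, prob_op, prob_op, mn_op] at h
  linarith

end Pool.Agent.BFT2
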