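import Mathlib
import Pool.Agent.BFT.PairNum

/-! # The pair inequality at the ends of a stretch: numbers (helper81) -/

set_option autoImplicit false

namespace Pool.Agent.BFT2

open Pool.Agent.BFT

lemma log_seven_half : (1.2527 : ℝ) ≤ Real.log (7 / 2) := by
  rw [Real.le_log_iff_exp_le (by norm_num)]
  have h4 := Real.exp_bound' (x := 0.2527) (by norm_num) (by norm_num) (n := 8) (by norm_num)
  have h5 : Real.exp 1.2527 = Real.exp 1 * Real.exp 0.2527 := by
    rw [← Real.exp_add]; norm_num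
  have h6 : Real.exp 1 < 2.7182818286 := Real.exp_one_lt_d9
  rw [h5]
  have h7 : Real.exp 0.2527 ≤ 1.28750 := by
    refine h4.trans ?_
    simp only [Finset.sum_range_succ, Finset.sum_range_zero, Nat.factorial]
    norm_num
  have h8 : 0 < Real.exp 0.2527 := Real.exp_pos _
  have h9 : Real.exp 1 * Real.exp 0.2527 ≤ 2.7182818286 * 1.28750 := by
    apply mul_le_mul h6.le h7 h8.le (by norm_num)
  refine h9.trans ?_
  norm_num

lemma log_tangent {q : ℝ} (h0 : 0 < q) : 2.2527 - 7 / 2 * q ≤ Real.log (1 / q) := by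
  have h1 : 0 < (1 / q) / (7 / 2) := by positivity
  have h2 := Real.one_sub_inv_le_log_of_pos h1
  have h3 : ((1 / q) / (7 / 2))⁻¹ = 7 / 2 * q := by
    field_simp
  rw [h3, Real.log_div (by positivity) (by norm_num)] at h2
  have := log_seven_half
  linarith

variable {q be A2 A3 B2 B3 m EX : ℝ}

theorem fl_num (h : PairIneq q be A2 A3 B2 B3 m EX) (hq : q ≤ 2 / 7) :
    1 + 2 / 21 < EX + 2 * be := by
  have q0 := h.q_pos
  obtain ⟨x, hx⟩ : ∃ x, be = x * q := ⟨be / q, by field_simp⟩
  obtain ⟨mu, hmu⟩ : ∃ mu, m = mu * q := ⟨m / q, by field_simp⟩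
  have hb0 := h.be_pos
  have hm0 := h.m_nonneg
  have hB0 := h.B2_nonneg
  have hA0 := h.A2_nonneg
  have e1 := h.be_le
  have s2 := h.S2
  have s3 := h.S3
  have t1 := h.T1
  have t2 := h.T2
  have E1 := h.E1
  have E2 := h.E2
  subst hx hmu
  have x0 : 0 < x := pos_of_mul_pos_left hb0 q0.le
  have x1 : x ≤ 1 := by
    by_contra hc
    push Not at hc
    nlinarith
  have mu0 : 0 ≤ mu := nonneg_of_mul_nonneg_left hm0 q0
  have t1' : x * mu ≤ 1 := by
    by_contra hc
    push Not at hc
    have : 0 < q ^ 2 * (x * mu - 1) := mul_pos (by positivity) (by linarith)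
    nlinarith
  have lin : ∀ c d : ℝ, 0 ≤ d → c - q * d ≥ c - 2 / 7 * d := by
    intro c d hd
    nlinarith
  have F1 : 3 - 2 / 7 * (3 + 2 * x + mu) ≤ EX + 2 * (x * q) := by
    have := lin 3 (3 + 2 * x + mu) (by linarith)
    nlinarith
  have F2 : 4 - 2 / 7 * (4 + 9 * x + mu) ≤ EX + 2 * (x * q) := by
    have := lin 4 (4 + 9 * x + mu) (by linarith)
    nlinarith
  rcases le_or_gt 0.35 x with h1 | h1
  · have h2 := chord (c := 2) (K := 3.56) x0 h1 x1 t1' (by norm_num) (by norm_num) (by norm_num)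
    linarith
  rcases le_or_gt 0.265 x with h2 | h2
  · have h3 := chord (c := 9) (K := 6.159) x0 h2 h1.le t1' (by norm_num) (by norm_num)
      (by norm_num)
    linarith
  · rcases le_or_gt mu (4 / 7 * x) with h3 | h3
    · linarith
    · have h4 : mu * (Real.log (1 / q) - 1) ≤ EX := by
        have h5 : q * (mu * (Real.log (1 / q) - 1)) ≤ q * EX := by linarith
        exact le_of_mul_le_mul_left h5 q0
      have h5 := log_tangent q0
      have h6 : mu * (1.2527 - 7 / 2 * q) ≤ EX := by
        refine le_trans ?_ h4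
        exact mul_le_mul_of_nonneg_left (by linarith) mu0
      have h7 : 0 ≤ (7 / 2 * mu - 2 * x) * (2 / 7 - q) :=
        mul_nonneg (by linarith) (by linarith)
      have h8 : 0.2527 * mu + 4 / 7 * x ≤ EX + 2 * (x * q) := by nlinarith
      linarith

end Pool.Agent.BFT2
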