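import Mathlib
import Pool.Agent.BFT2.FlNum
import Pool.Agent.BFT.Pair

/-! # The pair inequality at the ends of a stretch (helper81) -/

set_option autoImplicit false

namespace Pool.Agent.BFT2

open Finset Pool.Agent.Helper1.Balance Pool.Agent.Helper8.KS Pool.Agent.Helper18.KSC Pool.Agent.BFT

variable {n : ℕ} {r : Fin n → Fin n → Prop}

theorem fl (hr : IsPoset r) {x y : Fin n} (h : Inc r x y) (hq : prob r y x ≤ 2 / 7) :
    1 + 2 / 21 < mn r x y + 2 * gp r x y 1 := fl_num (pairIneq hr h) hq

end Pool.Agent.BFT2
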