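import Mathlib
import Pool.Agent.BFT.Defs

/-!
# The bound 2/7: the payment of a triple of type (4) (owner: helper16)
-/

set_option autoImplicit false

namespace Pool.Agent.BFT2

/-- the payment of a triple of type (4) to a neighbour -/
noncomputable def pay (s t : ℝ) : ℝ := min s (max 0 (2 / 21 - 4 / 3 * t))

end Pool.Agent.BFT2
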