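import Mathlib

/-!
# Three pairwise incomparable elements: the numerical part of (R4) at 2/7 (owner: helper67)

Generated: a decision tree with 18 cells in `b1, b2, q1 - b1, q2 - b2`; each cell is one linear
programming certificate found by `linarith`.
-/

set_option maxRecDepth 100000
set_option maxHeartbeats 4000000

namespace Pool.Agent.BFT2.FourNum

/-- expanded list of all linear facts about the truncated distance table `f p k l`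
(`p` = order of the three elements, `k`, `l` = consecutive distances, `4` = at least four). -/
structure Fx (f : ℕ → ℕ → ℕ → ℝ) (q1 q2 q3 b1 b2 m1 m2 e1 e2 : ℝ) : Prop where
  sum : f 0 1 1 + f 0 1 2 + f 0 1 3 + f 0 1 4 + f 0 2 1 + f 0 2 2 + f 0 2 3 + f 0 2 4 + f 0 3 1 + f 0 3 2 + f 0 3 3 + f 0 3 4 + f 0 4 1 + f 0 4 2 + f 0 4 3 + f 0 4 4 + f 1 1 1 + f 1 1 2 + f 1 1 3 + f 1 1 4 + f 1 2 1 + f 1 2 2 + f 1 2 3 + f 1 2 4 + f 1 3 1 + f 1 3 2 + f 1 3 3 + f 1 3 4 + f 1 4 1 + f 1 4 2 + f 1 4 3 + f 1 4 4 + f 2 1 1 + f 2 1 2 + f 2 1 3 + f 2 1 4 + f 2 2 1 + f 2 2 2 + f 2 2 3 + f 2 2 4 + f 2 3 1 + f 2 3 2 + f 2 3 3 + f 2 3 4 + f 2 4 1 + f 2 4 2 + f 2 4 3 + f 2 4 4 + f 3 1 1 + f 3 1 2 + f 3 1 3 + f 3 1 4 + f 3 2 1 +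 f 3 2 2 + f 3 2 3 + f 3 2 4 + f 3 3 1 + f 3 3 2 + f 3 3 3 + f 3 3 4 + f 3 4 1 + f 3 4 2 + f 3 4 3 + f 3 4 4 + f 4 1 1 + f 4 1 2 + f 4 1 3 + f 4 1 4 + f 4 2 1 + f 4 2 2 + f 4 2 3 + f 4 2 4 + f 4 3 1 + f 4 3 2 + f 4 3 3 + f 4 3 4 + f 4 4 1 + f 4 4 2 + f 4 4 3 + f 4 4 4 + f 5 1 1 + f 5 1 2 + f 5 1 3 + f 5 1 4 + f 5 2 1 + f 5 2 2 + f 5 2 3 + f 5 2 4 + f 5 3 1 + f 5 3 2 + f 5 3 3 + f 5 3 4 + f 5 4 1 + f 5 4 2 + f 5 4 3 + f 5 4 4 = 1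
  xa_0_1 : f 0 1 1 = f 1 1 1
  E2a_0_1 : f 0 2 1 + f 1 2 1 ≤ f 0 1 1 + f 0 1 2
  xa_0_2 : f 0 1 2 = f 1 1 2
  E2a_0_2 : f 0 2 2 + f 1 2 2 ≤ f 0 1 2 + f 0 1 3
  xa_0_3 : f 0 1 3 = f 1 1 3
  E2a_0_3 : f 0 2 3 + f 1 2 3 ≤ f 0 1 3 + f 0 1 4
  xa_0_4 : f 0 1 4 = f 1 1 4
  E2a_0_4 : f 0 2 4 + f 1 2 4 ≤ 2 * f 0 1 4
  E2a_0_5 : f 0 2 3 + f 0 2 4 + f 1 2 3 + f 1 2 4 ≤ f 0 1 3 + 2 * f 0 1 4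
  xb_0_1 : f 0 1 1 = f 2 1 1
  E2b_0_1 : f 0 1 2 + f 2 1 2 ≤ f 0 1 1 + f 0 2 1
  xb_0_2 : f 0 2 1 = f 2 2 1
  E2b_0_2 : f 0 2 2 + f 2 2 2 ≤ f 0 2 1 + f 0 3 1
  xb_0_3 : f 0 3 1 = f 2 3 1
  E2b_0_3 : f 0 3 2 + f 2 3 2 ≤ f 0 3 1 + f 0 4 1
  xb_0_4 : f 0 4 1 = f 2 4 1
  E2b_0_4 : f 0 4 2 + f 2 4 2 ≤ 2 * f 0 4 1
  E2b_0_5 : f 0 3 2 + f 0 4 2 + f 2 3 2 + f 2 4 2 ≤ f 0 3 1 + 2 * f 0 4 1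
  E3a_0_1 : f 0 3 1 ≤ f 0 2 1 + f 0 2 2
  E3b_0_1 : f 0 1 3 ≤ f 0 1 2 + f 0 2 2
  E3a_0_2 : f 0 3 2 ≤ f 0 2 2 + f 0 2 3
  E3b_0_2 : f 0 2 3 ≤ f 0 2 2 + f 0 3 2
  E3a_0_3 : f 0 3 3 ≤ f 0 2 3 + f 0 2 4
  E3b_0_3 : f 0 3 3 ≤ f 0 3 2 + f 0 4 2
  E3a_0_4 : f 0 3 4 ≤ 2 * f 0 2 4
  E3b_0_4 : f 0 4 3 ≤ 2 * f 0 4 2
  xb_1_1 : f 1 1 1 = f 3 1 1
  E2b_1_1 : f 1 1 2 + f 3 1 2 ≤ f 1 1 1 + f 1 2 1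
  xb_1_2 : f 1 2 1 = f 3 2 1
  E2b_1_2 : f 1 2 2 + f 3 2 2 ≤ f 1 2 1 + f 1 3 1
  xb_1_3 : f 1 3 1 = f 3 3 1
  E2b_1_3 : f 1 3 2 + f 3 3 2 ≤ f 1 3 1 + f 1 4 1
  xb_1_4 : f 1 4 1 = f 3 4 1
  E2b_1_4 : f 1 4 2 + f 3 4 2 ≤ 2 * f 1 4 1
  E2b_1_5 : f 1 3 2 + f 1 4 2 + f 3 3 2 + f 3 4 2 ≤ f 1 3 1 + 2 * f 1 4 1
  E3a_1_1 : f 1 3 1 ≤ f 1 2 1 + f 1 2 2
  E3b_1_1 : f 1 1 3 ≤ f 1 1 2 + f 1 2 2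
  E3a_1_2 : f 1 3 2 ≤ f 1 2 2 + f 1 2 3
  E3b_1_2 : f 1 2 3 ≤ f 1 2 2 + f 1 3 2
  E3a_1_3 : f 1 3 3 ≤ f 1 2 3 + f 1 2 4
  E3b_1_3 : f 1 3 3 ≤ f 1 3 2 + f 1 4 2
  E3a_1_4 : f 1 3 4 ≤ 2 * f 1 2 4
  E3b_1_4 : f 1 4 3 ≤ 2 * f 1 4 2
  xa_2_1 : f 2 1 1 = f 4 1 1
  E2a_2_1 : f 2 2 1 + f 4 2 1 ≤ f 2 1 1 + f 2 1 2
  xa_2_2 : f 2 1 2 = f 4 1 2
  E2a_2_2 : f 2 2 2 + f 4 2 2 ≤ f 2 1 2 + f 2 1 3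
  xa_2_3 : f 2 1 3 = f 4 1 3
  E2a_2_3 : f 2 2 3 + f 4 2 3 ≤ f 2 1 3 + f 2 1 4
  xa_2_4 : f 2 1 4 = f 4 1 4
  E2a_2_4 : f 2 2 4 + f 4 2 4 ≤ 2 * f 2 1 4
  E2a_2_5 : f 2 2 3 + f 2 2 4 + f 4 2 3 + f 4 2 4 ≤ f 2 1 3 + 2 * f 2 1 4
  E3a_2_1 : f 2 3 1 ≤ f 2 2 1 + f 2 2 2
  E3b_2_1 : f 2 1 3 ≤ f 2 1 2 + f 2 2 2
  E3a_2_2 : f 2 3 2 ≤ f 2 2 2 + f 2 2 3
  E3b_2_2 : f 2 2 3 ≤ f 2 2 2 + f 2 3 2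
  E3a_2_3 : f 2 3 3 ≤ f 2 2 3 + f 2 2 4
  E3b_2_3 : f 2 3 3 ≤ f 2 3 2 + f 2 4 2
  E3a_2_4 : f 2 3 4 ≤ 2 * f 2 2 4
  E3b_2_4 : f 2 4 3 ≤ 2 * f 2 4 2
  xa_3_1 : f 3 1 1 = f 5 1 1
  E2a_3_1 : f 3 2 1 + f 5 2 1 ≤ f 3 1 1 + f 3 1 2
  xa_3_2 : f 3 1 2 = f 5 1 2
  E2a_3_2 : f 3 2 2 + f 5 2 2 ≤ f 3 1 2 + f 3 1 3
  xa_3_3 : f 3 1 3 = f 5 1 3
  E2a_3_3 : f 3 2 3 + f 5 2 3 ≤ f 3 1 3 + f 3 1 4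
  xa_3_4 : f 3 1 4 = f 5 1 4
  E2a_3_4 : f 3 2 4 + f 5 2 4 ≤ 2 * f 3 1 4
  E2a_3_5 : f 3 2 3 + f 3 2 4 + f 5 2 3 + f 5 2 4 ≤ f 3 1 3 + 2 * f 3 1 4
  E3a_3_1 : f 3 3 1 ≤ f 3 2 1 + f 3 2 2
  E3b_3_1 : f 3 1 3 ≤ f 3 1 2 + f 3 2 2
  E3a_3_2 : f 3 3 2 ≤ f 3 2 2 + f 3 2 3
  E3b_3_2 : f 3 2 3 ≤ f 3 2 2 + f 3 3 2
  E3a_3_3 : f 3 3 3 ≤ f 3 2 3 + f 3 2 4
  E3b_3_3 : f 3 3 3 ≤ f 3 3 2 + f 3 4 2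
  E3a_3_4 : f 3 3 4 ≤ 2 * f 3 2 4
  E3b_3_4 : f 3 4 3 ≤ 2 * f 3 4 2
  xb_4_1 : f 4 1 1 = f 5 1 1
  E2b_4_1 : f 4 1 2 + f 5 1 2 ≤ f 4 1 1 + f 4 2 1
  xb_4_2 : f 4 2 1 = f 5 2 1
  E2b_4_2 : f 4 2 2 + f 5 2 2 ≤ f 4 2 1 + f 4 3 1
  xb_4_3 : f 4 3 1 = f 5 3 1
  E2b_4_3 : f 4 3 2 + f 5 3 2 ≤ f 4 3 1 + f 4 4 1
  xb_4_4 : f 4 4 1 = f 5 4 1
  E2b_4_4 : f 4 4 2 + f 5 4 2 ≤ 2 * f 4 4 1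
  E2b_4_5 : f 4 3 2 + f 4 4 2 + f 5 3 2 + f 5 4 2 ≤ f 4 3 1 + 2 * f 4 4 1
  E3a_4_1 : f 4 3 1 ≤ f 4 2 1 + f 4 2 2
  E3b_4_1 : f 4 1 3 ≤ f 4 1 2 + f 4 2 2
  E3a_4_2 : f 4 3 2 ≤ f 4 2 2 + f 4 2 3
  E3b_4_2 : f 4 2 3 ≤ f 4 2 2 + f 4 3 2
  E3a_4_3 : f 4 3 3 ≤ f 4 2 3 + f 4 2 4
  E3b_4_3 : f 4 3 3 ≤ f 4 3 2 + f 4 4 2
  E3a_4_4 : f 4 3 4 ≤ 2 * f 4 2 4
  E3b_4_4 : f 4 4 3 ≤ 2 * f 4 4 2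
  E3a_5_1 : f 5 3 1 ≤ f 5 2 1 + f 5 2 2
  E3b_5_1 : f 5 1 3 ≤ f 5 1 2 + f 5 2 2
  E3a_5_2 : f 5 3 2 ≤ f 5 2 2 + f 5 2 3
  E3b_5_2 : f 5 2 3 ≤ f 5 2 2 + f 5 3 2
  E3a_5_3 : f 5 3 3 ≤ f 5 2 3 + f 5 2 4
  E3b_5_3 : f 5 3 3 ≤ f 5 3 2 + f 5 4 2
  E3a_5_4 : f 5 3 4 ≤ 2 * f 5 2 4
  E3b_5_4 : f 5 4 3 ≤ 2 * f 5 4 2
  nn_0_1_1 : 0 ≤ f 0 1 1
  nn_0_1_2 : 0 ≤ f 0 1 2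
  nn_0_1_3 : 0 ≤ f 0 1 3
  nn_0_1_4 : 0 ≤ f 0 1 4
  nn_0_2_1 : 0 ≤ f 0 2 1
  nn_0_2_2 : 0 ≤ f 0 2 2
  nn_0_2_3 : 0 ≤ f 0 2 3
  nn_0_2_4 : 0 ≤ f 0 2 4
  nn_0_3_1 : 0 ≤ f 0 3 1
  nn_0_3_2 : 0 ≤ f 0 3 2
  nn_0_3_3 : 0 ≤ f 0 3 3
  nn_0_3_4 : 0 ≤ f 0 3 4
  nn_0_4_1 : 0 ≤ f 0 4 1
  nn_0_4_2 : 0 ≤ f 0 4 2
  nn_0_4_3 : 0 ≤ f 0 4 3
  nn_0_4_4 : 0 ≤ f 0 4 4
  nn_1_1_1 : 0 ≤ f 1 1 1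
  nn_1_1_2 : 0 ≤ f 1 1 2
  nn_1_1_3 : 0 ≤ f 1 1 3
  nn_1_1_4 : 0 ≤ f 1 1 4
  nn_1_2_1 : 0 ≤ f 1 2 1
  nn_1_2_2 : 0 ≤ f 1 2 2
  nn_1_2_3 : 0 ≤ f 1 2 3
  nn_1_2_4 : 0 ≤ f 1 2 4
  nn_1_3_1 : 0 ≤ f 1 3 1
  nn_1_3_2 : 0 ≤ f 1 3 2
  nn_1_3_3 : 0 ≤ f 1 3 3
  nn_1_3_4 : 0 ≤ f 1 3 4
  nn_1_4_1 : 0 ≤ f 1 4 1
  nn_1_4_2 : 0 ≤ f 1 4 2
  nn_1_4_3 : 0 ≤ f 1 4 3
  nn_1_4_4 : 0 ≤ f 1 4 4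
  nn_2_1_1 : 0 ≤ f 2 1 1
  nn_2_1_2 : 0 ≤ f 2 1 2
  nn_2_1_3 : 0 ≤ f 2 1 3
  nn_2_1_4 : 0 ≤ f 2 1 4
  nn_2_2_1 : 0 ≤ f 2 2 1
  nn_2_2_2 : 0 ≤ f 2 2 2
  nn_2_2_3 : 0 ≤ f 2 2 3
  nn_2_2_4 : 0 ≤ f 2 2 4
  nn_2_3_1 : 0 ≤ f 2 3 1
  nn_2_3_2 : 0 ≤ f 2 3 2
  nn_2_3_3 : 0 ≤ f 2 3 3
  nn_2_3_4 : 0 ≤ f 2 3 4
  nn_2_4_1 : 0 ≤ f 2 4 1
  nn_2_4_2 : 0 ≤ f 2 4 2
  nn_2_4_3 : 0 ≤ f 2 4 3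
  nn_2_4_4 : 0 ≤ f 2 4 4
  nn_3_1_1 : 0 ≤ f 3 1 1
  nn_3_1_2 : 0 ≤ f 3 1 2
  nn_3_1_3 : 0 ≤ f 3 1 3
  nn_3_1_4 : 0 ≤ f 3 1 4
  nn_3_2_1 : 0 ≤ f 3 2 1
  nn_3_2_2 : 0 ≤ f 3 2 2
  nn_3_2_3 : 0 ≤ f 3 2 3
  nn_3_2_4 : 0 ≤ f 3 2 4
  nn_3_3_1 : 0 ≤ f 3 3 1
  nn_3_3_2 : 0 ≤ f 3 3 2
  nn_3_3_3 : 0 ≤ f 3 3 3
  nn_3_3_4 : 0 ≤ f 3 3 4
  nn_3_4_1 : 0 ≤ f 3 4 1
  nn_3_4_2 : 0 ≤ f 3 4 2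
  nn_3_4_3 : 0 ≤ f 3 4 3
  nn_3_4_4 : 0 ≤ f 3 4 4
  nn_4_1_1 : 0 ≤ f 4 1 1
  nn_4_1_2 : 0 ≤ f 4 1 2
  nn_4_1_3 : 0 ≤ f 4 1 3
  nn_4_1_4 : 0 ≤ f 4 1 4
  nn_4_2_1 : 0 ≤ f 4 2 1
  nn_4_2_2 : 0 ≤ f 4 2 2
  nn_4_2_3 : 0 ≤ f 4 2 3
  nn_4_2_4 : 0 ≤ f 4 2 4
  nn_4_3_1 : 0 ≤ f 4 3 1
  nn_4_3_2 : 0 ≤ f 4 3 2
  nn_4_3_3 : 0 ≤ f 4 3 3
  nn_4_3_4 : 0 ≤ f 4 3 4
  nn_4_4_1 : 0 ≤ f 4 4 1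
  nn_4_4_2 : 0 ≤ f 4 4 2
  nn_4_4_3 : 0 ≤ f 4 4 3
  nn_4_4_4 : 0 ≤ f 4 4 4
  nn_5_1_1 : 0 ≤ f 5 1 1
  nn_5_1_2 : 0 ≤ f 5 1 2
  nn_5_1_3 : 0 ≤ f 5 1 3
  nn_5_1_4 : 0 ≤ f 5 1 4
  nn_5_2_1 : 0 ≤ f 5 2 1
  nn_5_2_2 : 0 ≤ f 5 2 2
  nn_5_2_3 : 0 ≤ f 5 2 3
  nn_5_2_4 : 0 ≤ f 5 2 4
  nn_5_3_1 : 0 ≤ f 5 3 1
  nn_5_3_2 : 0 ≤ f 5 3 2
  nn_5_3_3 : 0 ≤ f 5 3 3
  nn_5_3_4 : 0 ≤ f 5 3 4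
  nn_5_4_1 : 0 ≤ f 5 4 1
  nn_5_4_2 : 0 ≤ f 5 4 2
  nn_5_4_3 : 0 ≤ f 5 4 3
  nn_5_4_4 : 0 ≤ f 5 4 4
  hq_1 : q1 = f 1 1 1 + f 1 1 2 + f 1 1 3 + f 1 1 4 + f 1 2 1 + f 1 2 2 + f 1 2 3 + f 1 2 4 + f 1 3 1 + f 1 3 2 + f 1 3 3 + f 1 3 4 + f 1 4 1 + f 1 4 2 + f 1 4 3 + f 1 4 4 + f 3 1 1 + f 3 1 2 + f 3 1 3 + f 3 1 4 + f 3 2 1 + f 3 2 2 + f 3 2 3 + f 3 2 4 + f 3 3 1 + f 3 3 2 + f 3 3 3 + f 3 3 4 + f 3 4 1 + f 3 4 2 + f 3 4 3 + f 3 4 4 + f 5 1 1 + f 5 1 2 + f 5 1 3 + f 5 1 4 + f 5 2 1 + f 5 2 2 + f 5 2 3 + f 5 2 4 + f 5 3 1 + f 5 3 2 + f 5 3 3 + f 5 3 4 + f 5 4 1 + f 5 4 2 + f 5 4 3 + f 5 4 4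
  hq_2 : q2 = f 2 1 1 + f 2 1 2 + f 2 1 3 + f 2 1 4 + f 2 2 1 + f 2 2 2 + f 2 2 3 + f 2 2 4 + f 2 3 1 + f 2 3 2 + f 2 3 3 + f 2 3 4 + f 2 4 1 + f 2 4 2 + f 2 4 3 + f 2 4 4 + f 4 1 1 + f 4 1 2 + f 4 1 3 + f 4 1 4 + f 4 2 1 + f 4 2 2 + f 4 2 3 + f 4 2 4 + f 4 3 1 + f 4 3 2 + f 4 3 3 + f 4 3 4 + f 4 4 1 + f 4 4 2 + f 4 4 3 + f 4 4 4 + f 5 1 1 + f 5 1 2 + f 5 1 3 + f 5 1 4 + f 5 2 1 + f 5 2 2 + f 5 2 3 + f 5 2 4 + f 5 3 1 + f 5 3 2 + f 5 3 3 + f 5 3 4 + f 5 4 1 + f 5 4 2 + f 5 4 3 + f 5 4 4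
  hq_3 : q3 = f 3 1 1 + f 3 1 2 + f 3 1 3 + f 3 1 4 + f 3 2 1 + f 3 2 2 + f 3 2 3 + f 3 2 4 + f 3 3 1 + f 3 3 2 + f 3 3 3 + f 3 3 4 + f 3 4 1 + f 3 4 2 + f 3 4 3 + f 3 4 4 + f 4 1 1 + f 4 1 2 + f 4 1 3 + f 4 1 4 + f 4 2 1 + f 4 2 2 + f 4 2 3 + f 4 2 4 + f 4 3 1 + f 4 3 2 + f 4 3 3 + f 4 3 4 + f 4 4 1 + f 4 4 2 + f 4 4 3 + f 4 4 4 + f 5 1 1 + f 5 1 2 + f 5 1 3 + f 5 1 4 + f 5 2 1 + f 5 2 2 + f 5 2 3 + f 5 2 4 + f 5 3 1 + f 5 3 2 + f 5 3 3 + f 5 3 4 + f 5 4 1 + f 5 4 2 + f 5 4 3 + f 5 4 4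
  hb_1 : b1 = f 0 1 1 + f 0 1 2 + f 0 1 3 + f 0 1 4 + f 4 1 1 + f 4 2 1 + f 4 3 1 + f 4 4 1
  hb_2 : b2 = f 0 1 1 + f 0 2 1 + f 0 3 1 + f 0 4 1 + f 3 1 1 + f 3 1 2 + f 3 1 3 + f 3 1 4
  mt_1 : f 1 1 1 + f 1 1 2 + f 1 1 3 + f 1 1 4 + 2 * f 1 2 1 + 2 * f 1 2 2 + 2 * f 1 2 3 + 2 * f 1 2 4 + 3 * f 1 3 1 + 3 * f 1 3 2 + 3 * f 1 3 3 + 3 * f 1 3 4 + 4 * f 1 4 1 + 4 * f 1 4 2 + 4 * f 1 4 3 + 4 * f 1 4 4 + 2 * f 3 1 1 + 3 * f 3 1 2 + 4 * f 3 1 3 + 5 * f 3 1 4 + 3 * f 3 2 1 + 4 * f 3 2 2 + 5 * f 3 2 3 + 6 * f 3 2 4 + 4 * f 3 3 1 + 5 * f 3 3 2 + 6 * f 3 3 3 + 7 * f 3 3 4 + 5 * f 3 4 1 + 6 * f 3 4 2 + 7 * f 3 4 3 + 8 * f 3 4 4 + f 5 1 1 + 2 * f 5 1 2 + 3 * f 5 1 3 + 4 * f 5 1 4 + f 5 2 1 + 2 * f 5 2 2 + 3 * f 5 2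 3 + 4 * f 5 2 4 + f 5 3 1 + 2 * f 5 3 2 + 3 * f 5 3 3 + 4 * f 5 3 4 + f 5 4 1 + 2 * f 5 4 2 + 3 * f 5 4 3 + 4 * f 5 4 4 ≤ m1
  et_1 : f 0 1 1 + f 0 1 2 + f 0 1 3 + f 0 1 4 + 2 * f 0 2 1 + 2 * f 0 2 2 + 2 * f 0 2 3 + 2 * f 0 2 4 + 3 * f 0 3 1 + 3 * f 0 3 2 + 3 * f 0 3 3 + 3 * f 0 3 4 + 4 * f 0 4 1 + 4 * f 0 4 2 + 4 * f 0 4 3 + 4 * f 0 4 4 + 2 * f 2 1 1 + 3 * f 2 1 2 + 4 * f 2 1 3 + 5 * f 2 1 4 + 3 * f 2 2 1 + 4 * f 2 2 2 + 5 * f 2 2 3 + 6 * f 2 2 4 + 4 * f 2 3 1 + 5 * f 2 3 2 + 6 * f 2 3 3 + 7 * f 2 3 4 + 5 * f 2 4 1 + 6 * f 2 4 2 + 7 * f 2 4 3 + 8 * f 2 4 4 + f 4 1 1 + 2 * f 4 1 2 + 3 * f 4 1 3 + 4 * f 4 1 4 + f 4 2 1 + 2 * f 4 2 2 + 3 * f 4 2 3 + 4 * f 4 2 4 + f 4 3 1 + 2 * f 4 3 2 + 3 * f 4 3 3 + 4 *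 f 4 3 4 + f 4 4 1 + 2 * f 4 4 2 + 3 * f 4 4 3 + 4 * f 4 4 4 ≤ e1 + m1
  T2_1 : 2527/10000 * m1 ≤ 2/7 * e1
  mt_2 : f 2 1 1 + 2 * f 2 1 2 + 3 * f 2 1 3 + 4 * f 2 1 4 + f 2 2 1 + 2 * f 2 2 2 + 3 * f 2 2 3 + 4 * f 2 2 4 + f 2 3 1 + 2 * f 2 3 2 + 3 * f 2 3 3 + 4 * f 2 3 4 + f 2 4 1 + 2 * f 2 4 2 + 3 * f 2 4 3 + 4 * f 2 4 4 + 2 * f 4 1 1 + 3 * f 4 1 2 + 4 * f 4 1 3 + 5 * f 4 1 4 + 3 * f 4 2 1 + 4 * f 4 2 2 + 5 * f 4 2 3 + 6 * f 4 2 4 + 4 * f 4 3 1 + 5 * f 4 3 2 + 6 * f 4 3 3 + 7 * f 4 3 4 + 5 * f 4 4 1 + 6 * f 4 4 2 + 7 * f 4 4 3 + 8 * f 4 4 4 + f 5 1 1 + f 5 1 2 + f 5 1 3 + f 5 1 4 + 2 * f 5 2 1 + 2 * f 5 2 2 + 2 * f 5 2 3 + 2 * f 5 2 4 + 3 * f 5 3 1 + 3 * f 5 3 2 + 3 * f 5 3 3 + 3 * f 5 3 4 + 4 * f 5 4 1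 + 4 * f 5 4 2 + 4 * f 5 4 3 + 4 * f 5 4 4 ≤ m2
  et_2 : f 0 1 1 + 2 * f 0 1 2 + 3 * f 0 1 3 + 4 * f 0 1 4 + f 0 2 1 + 2 * f 0 2 2 + 3 * f 0 2 3 + 4 * f 0 2 4 + f 0 3 1 + 2 * f 0 3 2 + 3 * f 0 3 3 + 4 * f 0 3 4 + f 0 4 1 + 2 * f 0 4 2 + 3 * f 0 4 3 + 4 * f 0 4 4 + 2 * f 1 1 1 + 3 * f 1 1 2 + 4 * f 1 1 3 + 5 * f 1 1 4 + 3 * f 1 2 1 + 4 * f 1 2 2 + 5 * f 1 2 3 + 6 * f 1 2 4 + 4 * f 1 3 1 + 5 * f 1 3 2 + 6 * f 1 3 3 + 7 * f 1 3 4 + 5 * f 1 4 1 + 6 * f 1 4 2 + 7 * f 1 4 3 + 8 * f 1 4 4 + f 3 1 1 + f 3 1 2 + f 3 1 3 + f 3 1 4 + 2 * f 3 2 1 + 2 * f 3 2 2 + 2 * f 3 2 3 + 2 * f 3 2 4 + 3 * f 3 3 1 + 3 * f 3 3 2 + 3 * f 3 3 3 + 3 * f 3 3 4 + 4 * f 3 4 1 + 4 * f 3 4 2 + 4 * f 3 4 3 + 4 * f 3 4 4 ≤ e2 + m2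
  T2_2 : 2527/10000 * m2 ≤ 2/7 * e2
  qd_1 : q1 ≤ 2/7
  qd_2 : q2 ≤ 2/7
  qd_3 : q3 ≤ 2/7
  R_1 : f 5 1 1 + f 5 1 2 + f 5 1 3 + f 5 1 4 + f 5 2 1 + f 5 2 2 + f 5 2 3 + f 5 2 4 + f 5 3 1 + f 5 3 2 + f 5 3 3 + f 5 3 4 + f 5 4 1 + f 5 4 2 + f 5 4 3 + f 5 4 4 ≤ 2/7 * q1
  R_2 : f 5 1 1 + f 5 1 2 + f 5 1 3 + f 5 1 4 + f 5 2 1 + f 5 2 2 + f 5 2 3 + f 5 2 4 + f 5 3 1 + f 5 3 2 + f 5 3 3 + f 5 3 4 + f 5 4 1 + f 5 4 2 + f 5 4 3 + f 5 4 4 ≤ 2/7 * q2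

variable {f : ℕ → ℕ → ℕ → ℝ} {q1 q2 q3 b1 b2 m1 m2 e1 e2 P1 P2 : ℝ}

theorem cell0 (h : Fx f q1 q2 q3 b1 b2 m1 m2 e1 e2) (Pe_1 : P1 ≤ 2/21 - 1/3 * (q1 - b1)) (Pe_2 : P2 ≤ 2/21 - 4/3 * (q2 - b2)) (Pt_1 : P1 ≤ q2 - b2) (bh_1 : b1 ≤ 1/14) (bh_2 : b2 ≤ 1/14) :
    2 + (4/7 - (q1 + q2)) + P1 + P2 ≤ e1 + e2 := by
  linarith only [h.E2a_0_1, h.E2a_0_2, h.E2a_0_5, h.E2a_2_2, h.E2a_2_3, h.E2a_3_2, h.E2a_3_5, h.E2b_0_1, h.E2b_0_2, h.E2b_0_3, h.E2b_0_5, h.E2b_1_1, h.E2b_1_3, h.E2b_1_5, h.E2b_4_1, h.E2b_4_4, h.E2b_4_5, h.E3a_0_4, h.E3a_2_1, h.E3a_3_1, h.E3a_3_2, h.E3a_3_4, h.E3a_4_3, h.E3a_5_3, h.E3b_0_1, h.E3b_0_2, h.E3b_0_3, h.E3b_0_4, h.E3b_2_1, h.E3b_3_3, h.E3b_4_4, h.E3b_5_1, h.E3b_5_4, h.T2_1, h.T2_2, h.et_1,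 h.et_2, h.mt_1, h.nn_0_4_4, h.nn_1_2_3, h.nn_1_2_4, h.nn_1_3_2, h.nn_1_3_3, h.nn_1_3_4, h.nn_1_4_1, h.nn_1_4_2, h.nn_1_4_3, h.nn_1_4_4, h.nn_2_1_2, h.nn_2_1_4, h.nn_2_2_2, h.nn_2_2_3, h.nn_2_2_4, h.nn_2_3_2, h.nn_2_3_3, h.nn_2_3_4, h.nn_2_4_2, h.nn_2_4_3, h.nn_2_4_4, h.nn_3_4_3, h.nn_3_4_4, h.nn_4_1_4, h.nn_4_2_1, h.nn_4_2_4, h.nn_4_3_1, h.nn_4_3_4, h.nn_4_4_4, h.nn_5_2_2, h.nn_5_2_3, h.nn_5_2_4, h.nn_5_3_2, h.nn_5_3_4, h.nn_5_4_2, h.nn_5_4_4, h.sum, h.xa_0_1, h.xa_0_2, h.xa_0_3, h.xa_0_4, h.xa_2_1, h.xa_2_2, h.xa_2_3, h.xa_3_1, h.xa_3_2, h.xa_3_3, h.xa_3_4, h.xb_0_1, h.xb_0_2, h.xb_0_3, h.xb_0_4, h.xb_1_1, h.xb_1_2, h.xb_1_3, h.xb_1_4, h.xb_4_2, h.xb_4_3, h.xb_4_4, h.hq_1, h.hq_2, h.hb_1, h.hb_2, Pe_1,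 Pe_2, Pt_1, bh_1, bh_2]

theorem cell1 (h : Fx f q1 q2 q3 b1 b2 m1 m2 e1 e2) (Pe_1 : P1 ≤ 2/21 - 1/3 * (q1 - b1)) (Pe_2 : P2 ≤ 0 - 0 * (q2 - b2)) (bh_1 : b1 ≤ 1/14) (bh_2 : b2 ≤ 1/14) :
    2 + (4/7 - (q1 + q2)) + P1 + P2 ≤ e1 + e2 := by
  linarith only [h.E2a_0_1, h.E2a_0_2, h.E2a_0_3, h.E2a_0_5, h.E2a_2_1, h.E2a_2_2, h.E2a_2_4, h.E2a_2_5, h.E2a_3_1, h.E2a_3_2, h.E2a_3_5, h.E2b_0_1, h.E2b_0_2, h.E2b_0_3, h.E2b_0_5, h.E2b_1_1, h.E2b_1_2, h.E2b_1_4, h.E2b_4_1, h.E2b_4_2, h.E2b_4_5, h.E3a_0_1, h.E3a_0_3, h.E3a_0_4, h.E3a_3_1, h.E3a_3_2, h.E3a_3_4, h.E3a_4_3, h.E3a_5_1, h.E3a_5_3, h.E3a_5_4, h.E3b_0_3, h.E3b_0_4, h.E3b_1_1, h.E3b_3_3, h.E3b_4_1, h.E3b_4_2, h.E3b_4_4, h.E3b_5_1, h.R_1, h.T2_1, h.T2_2, h.et_1,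 h.et_2, h.mt_2, h.nn_0_4_4, h.nn_1_2_3, h.nn_1_2_4, h.nn_1_3_2, h.nn_1_3_3, h.nn_1_3_4, h.nn_1_4_1, h.nn_1_4_2, h.nn_1_4_3, h.nn_1_4_4, h.nn_2_2_3, h.nn_2_2_4, h.nn_2_3_2, h.nn_2_3_3, h.nn_2_3_4, h.nn_2_4_2, h.nn_2_4_3, h.nn_2_4_4, h.nn_3_1_2, h.nn_3_4_3, h.nn_3_4_4, h.nn_4_3_4, h.nn_4_4_4, h.nn_5_2_2, h.nn_5_2_3, h.nn_5_2_4, h.nn_5_3_2, h.nn_5_4_2, h.qd_3, h.sum, h.xa_0_1, h.xa_0_2, h.xa_0_3, h.xa_0_4, h.xa_2_1, h.xa_2_2, h.xa_2_3, h.xa_2_4, h.xa_3_1, h.xa_3_3, h.xa_3_4, h.xb_0_1, h.xb_0_2, h.xb_0_3, h.xb_0_4, h.xb_1_1, h.xb_1_2, h.xb_1_3, h.xb_1_4, h.xb_4_3, h.hq_1, h.hq_2, h.hb_1, h.hb_2, h.hq_3, Pe_1, Pe_2, bh_1, bh_2]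

theorem cell2 (h : Fx f q1 q2 q3 b1 b2 m1 m2 e1 e2) (Pe_1 : P1 ≤ 2/21 - 4/9 * (q1 - b1)) (Pe_2 : P2 ≤ 2/21 - 1/3 * (q2 - b2)) (T1c_1 : 1/98 * m1 + 4/49 * b1 ≤ 6/343) (bh_2 : b2 ≤ 1/28) :
    2 + (4/7 - (q1 + q2)) + P1 + P2 ≤ e1 + e2 := by
  linarith only [h.E2a_0_1, h.E2a_0_2, h.E2a_0_4, h.E2a_0_5, h.E2a_2_2, h.E2a_2_4, h.E2a_3_1, h.E2a_3_2, h.E2a_3_3, h.E2a_3_5, h.E2b_0_1, h.E2b_0_3, h.E2b_0_4, h.E2b_0_5, h.E2b_1_1, h.E2b_4_1, h.E2b_4_2, h.E2b_4_5, h.E3a_0_2, h.E3a_0_4, h.E3a_1_2, h.E3a_2_1, h.E3a_3_1, h.E3a_3_2, h.E3a_3_3, h.E3a_3_4, h.E3a_4_3, h.E3a_5_1, h.E3a_5_3, h.E3b_0_3, h.E3b_0_4, h.E3b_1_1, h.E3b_3_3, h.E3b_4_1, h.E3b_4_2, h.E3b_4_4, h.E3b_5_1, h.E3b_5_4, h.R_2, h.T2_2, h.et_1, h.et_2, h.mt_1,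 h.nn_0_4_4, h.nn_1_2_2, h.nn_1_2_3, h.nn_1_2_4, h.nn_1_3_3, h.nn_1_3_4, h.nn_1_4_2, h.nn_1_4_3, h.nn_1_4_4, h.nn_2_1_4, h.nn_2_2_3, h.nn_2_2_4, h.nn_2_3_2, h.nn_2_3_3, h.nn_2_3_4, h.nn_2_4_2, h.nn_2_4_3, h.nn_2_4_4, h.nn_3_1_2, h.nn_3_4_3, h.nn_3_4_4, h.nn_4_3_4, h.nn_4_4_4, h.nn_5_2_2, h.nn_5_2_3, h.nn_5_2_4, h.nn_5_3_2, h.nn_5_4_2, h.qd_1, h.qd_3, h.sum, h.xa_0_1, h.xa_0_2, h.xa_0_3, h.xa_0_4, h.xa_2_1, h.xa_2_2, h.xa_2_3, h.xa_2_4, h.xa_3_1, h.xa_3_2, h.xa_3_3, h.xb_0_1, h.xb_0_2, h.xb_0_3, h.xb_0_4, h.xb_1_1, h.xb_1_2, h.xb_1_3, h.xb_1_4, h.xb_4_3, h.xb_4_4, h.hq_1, h.hq_2, h.hb_1, h.hb_2, h.hq_3, Pe_1, Pe_2, T1c_1, bh_2]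

theorem cell3 (h : Fx f q1 q2 q3 b1 b2 m1 m2 e1 e2) (Pe_1 : P1 ≤ 2/21 - 4/9 * (q1 - b1)) (Pe_2 : P2 ≤ 2/21 - 8/21 * (q2 - b2)) (T1c_1 : 1/98 * m1 + 4/49 * b1 ≤ 6/343) (T1c_2 : 1/392 * m2 + 4/49 * b2 ≤ 3/343) :
    2 + (4/7 - (q1 + q2)) + P1 + P2 ≤ e1 + e2 := by
  linarith only [h.E2a_0_1, h.E2a_0_2, h.E2a_0_4, h.E2a_0_5, h.E2a_2_2, h.E2a_2_4, h.E2a_3_2, h.E2a_3_5, h.E2b_0_1, h.E2b_0_3, h.E2b_0_5, h.E2b_1_1, h.E2b_4_1, h.E2b_4_2, h.E2b_4_5, h.E3a_0_2, h.E3a_0_4, h.E3a_1_2, h.E3a_2_1, h.E3a_3_1, h.E3a_3_2, h.E3a_3_3, h.E3a_3_4, h.E3a_4_3, h.E3a_5_1, h.E3a_5_3, h.E3b_0_3, h.E3b_0_4, h.E3b_1_1, h.E3b_3_3, h.E3b_4_1, h.E3b_4_2, h.E3b_4_4, h.E3b_5_1, h.E3b_5_4, h.R_1, h.R_2, h.T2_2, h.et_1, h.et_2, h.mt_1,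 h.nn_0_4_4, h.nn_1_2_2, h.nn_1_2_3, h.nn_1_2_4, h.nn_1_3_3, h.nn_1_3_4, h.nn_1_4_2, h.nn_1_4_3, h.nn_1_4_4, h.nn_2_1_4, h.nn_2_2_3, h.nn_2_2_4, h.nn_2_3_2, h.nn_2_3_3, h.nn_2_3_4, h.nn_2_4_2, h.nn_2_4_3, h.nn_2_4_4, h.nn_3_1_2, h.nn_3_2_3, h.nn_3_4_3, h.nn_3_4_4, h.nn_4_3_4, h.nn_4_4_4, h.nn_5_2_2, h.nn_5_2_3, h.nn_5_2_4, h.nn_5_3_2, h.nn_5_4_2, h.qd_1, h.qd_3, h.sum, h.xa_0_1, h.xa_0_2, h.xa_0_3, h.xa_0_4, h.xa_2_1, h.xa_2_2, h.xa_2_3, h.xa_2_4, h.xa_3_1, h.xa_3_2, h.xa_3_3, h.xb_0_1, h.xb_0_2, h.xb_0_3, h.xb_0_4, h.xb_1_1, h.xb_1_2, h.xb_1_3, h.xb_1_4, h.xb_4_2, h.xb_4_3, h.xb_4_4, h.hq_1, h.hq_2, h.hb_1, h.hb_2, h.hq_3, Pe_1, Pe_2, T1c_1, T1c_2]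

theorem cell4 (h : Fx f q1 q2 q3 b1 b2 m1 m2 e1 e2) (Pe_1 : P1 ≤ 2/21 - 4/3 * (q1 - b1)) (Pe_2 : P2 ≤ 2/21 - 1/3 * (q2 - b2)) (T1c_1 : 3/98 * m1 + 4/49 * b1 ≤ 10/343) (bh_1 : b1 ≤ 3/14) (bh_2 : b2 ≤ 1/14) :
    2 + (4/7 - (q1 + q2)) + P1 + P2 ≤ e1 + e2 := by
  linarith only [h.E2a_0_1, h.E2a_0_5, h.E2a_2_1, h.E2a_3_1, h.E2a_3_2, h.E2a_3_3, h.E2a_3_4, h.E2b_0_1, h.E2b_0_2, h.E2b_0_3, h.E2b_1_2, h.E2b_4_2, h.E2b_4_5, h.E3b_0_2, h.E3b_0_3, h.E3b_1_1, h.T2_2, h.et_1, h.et_2, h.mt_1, h.nn_0_3_4, h.nn_0_4_1, h.nn_0_4_2, h.nn_0_4_3, h.nn_0_4_4, h.nn_1_2_3, h.nn_1_2_4, h.nn_1_3_2, h.nn_1_3_3, h.nn_1_3_4, h.nn_1_4_1, h.nn_1_4_2, h.nn_1_4_3, h.nn_1_4_4, h.nn_2_1_3, h.nn_2_1_4, h.nn_2_2_2, h.nn_2_2_3, h.nn_2_2_4,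 h.nn_2_3_2, h.nn_2_3_3, h.nn_2_3_4, h.nn_2_4_1, h.nn_2_4_2, h.nn_2_4_3, h.nn_2_4_4, h.nn_3_1_2, h.nn_3_1_3, h.nn_3_1_4, h.nn_3_3_2, h.nn_3_3_3, h.nn_3_3_4, h.nn_3_4_1, h.nn_3_4_2, h.nn_3_4_3, h.nn_3_4_4, h.nn_4_1_3, h.nn_4_1_4, h.nn_4_2_1, h.nn_4_2_3, h.nn_4_2_4, h.nn_4_3_3, h.nn_4_3_4, h.nn_4_4_3, h.nn_4_4_4, h.nn_5_1_3, h.nn_5_1_4, h.nn_5_2_1, h.nn_5_2_2, h.nn_5_2_3, h.nn_5_2_4, h.nn_5_3_2, h.nn_5_3_3, h.nn_5_3_4, h.nn_5_4_2, h.nn_5_4_3, h.nn_5_4_4, h.qd_2, h.sum, h.xa_0_1, h.xa_0_2, h.xa_0_3, h.xa_0_4, h.xa_2_1, h.xa_2_2, h.xa_3_1, h.xa_3_2, h.xb_0_1, h.xb_0_2, h.xb_0_3, h.xb_1_1, h.xb_1_2, h.xb_1_3, h.xb_4_3, h.xb_4_4, h.hq_1, h.hq_2, h.hb_1, h.hb_2, Pe_1, Pe_2, T1c_1, bh_1, bh_2]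

theorem cell5 (h : Fx f q1 q2 q3 b1 b2 m1 m2 e1 e2) (Pe_1 : P1 ≤ 0 - 0 * (q1 - b1)) (Pe_2 : P2 ≤ 2/21 - 1/3 * (q2 - b2)) (T1c_1 : 3/98 * m1 + 4/49 * b1 ≤ 10/343) (bh_2 : b2 ≤ 1/14) :
    2 + (4/7 - (q1 + q2)) + P1 + P2 ≤ e1 + e2 := by
  linarith only [h.E2a_0_1, h.E2a_0_2, h.E2a_0_5, h.E2a_2_1, h.E2a_3_1, h.E2b_0_1, h.E2b_0_2, h.E2b_0_3, h.E2b_0_4, h.E2b_1_2, h.E2b_4_2, h.E2b_4_5, h.E3a_2_1, h.E3b_0_2, h.E3b_0_3, h.E3b_1_1, h.T2_2, h.et_1, h.et_2, h.mt_1, h.nn_0_3_4, h.nn_0_4_1, h.nn_0_4_3, h.nn_0_4_4, h.nn_1_2_3, h.nn_1_2_4, h.nn_1_3_2, h.nn_1_3_3, h.nn_1_3_4, h.nn_1_4_1, h.nn_1_4_2, h.nn_1_4_3, h.nn_1_4_4, h.nn_2_1_3, h.nn_2_1_4, h.nn_2_2_2, h.nn_2_2_3, h.nn_2_2_4, h.nn_2_3_2, h.nn_2_3_3, h.nn_2_3_4,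 h.nn_2_4_1, h.nn_2_4_2, h.nn_2_4_3, h.nn_2_4_4, h.nn_3_1_2, h.nn_3_1_3, h.nn_3_1_4, h.nn_3_2_2, h.nn_3_2_3, h.nn_3_2_4, h.nn_3_3_2, h.nn_3_3_3, h.nn_3_3_4, h.nn_3_4_1, h.nn_3_4_2, h.nn_3_4_3, h.nn_3_4_4, h.nn_4_1_3, h.nn_4_1_4, h.nn_4_2_1, h.nn_4_2_3, h.nn_4_2_4, h.nn_4_3_3, h.nn_4_3_4, h.nn_4_4_3, h.nn_4_4_4, h.nn_5_1_3, h.nn_5_2_2, h.nn_5_2_3, h.nn_5_2_4, h.nn_5_3_2, h.nn_5_3_3, h.nn_5_3_4, h.nn_5_4_2, h.nn_5_4_3, h.nn_5_4_4, h.qd_2, h.sum, h.xa_0_1, h.xa_0_2, h.xa_0_3, h.xa_0_4, h.xa_2_1, h.xa_2_2, h.xa_3_1, h.xa_3_2, h.xa_3_4, h.xb_0_1, h.xb_0_2, h.xb_0_3, h.xb_1_1, h.xb_1_2, h.xb_1_3, h.xb_4_3, h.xb_4_4, h.hq_1, h.hq_2, h.hb_1, h.hb_2, Pe_1, Pe_2, T1c_1, bh_2]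

theorem cell6 (h : Fx f q1 q2 q3 b1 b2 m1 m2 e1 e2) (Pe_1 : P1 ≤ 2/21 - 4/3 * (q1 - b1)) (Pe_2 : P2 ≤ 2/21 - 4/3 * (q2 - b2)) (Pt_1 : P1 ≤ q2 - b2) (T1c_1 : 3/49 * m1 + 4/49 * b1 ≤ 2/49) (bh_2 : b2 ≤ 1/14) :
    2 + (4/7 - (q1 + q2)) + P1 + P2 ≤ e1 + e2 := by
  linarith only [h.E2a_0_5, h.E2a_2_1, h.E2b_0_2, h.E2b_0_3, h.E2b_1_1, h.E2b_4_2, h.E2b_4_3, h.E2b_4_4, h.E3b_0_2, h.E3b_1_1, h.T2_2, h.et_1, h.et_2, h.nn_0_3_1, h.nn_0_3_3, h.nn_0_3_4, h.nn_0_4_1, h.nn_0_4_2, h.nn_0_4_3, h.nn_0_4_4, h.nn_1_2_2, h.nn_1_2_3, h.nn_1_2_4, h.nn_1_3_1, h.nn_1_3_2, h.nn_1_3_3, h.nn_1_3_4, h.nn_1_4_1, h.nn_1_4_2, h.nn_1_4_3, h.nn_1_4_4, h.nn_2_1_3, h.nn_2_1_4, h.nn_2_2_2, h.nn_2_2_3, h.nn_2_2_4, h.nn_2_3_2, h.nn_2_3_3,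 h.nn_2_3_4, h.nn_2_4_2, h.nn_2_4_3, h.nn_2_4_4, h.nn_3_1_2, h.nn_3_1_3, h.nn_3_1_4, h.nn_3_2_2, h.nn_3_2_3, h.nn_3_2_4, h.nn_3_3_1, h.nn_3_3_2, h.nn_3_3_3, h.nn_3_3_4, h.nn_3_4_1, h.nn_3_4_2, h.nn_3_4_3, h.nn_3_4_4, h.nn_4_1_3, h.nn_4_1_4, h.nn_4_2_1, h.nn_4_2_3, h.nn_4_2_4, h.nn_4_3_3, h.nn_4_3_4, h.nn_4_4_3, h.nn_4_4_4, h.nn_5_1_2, h.nn_5_1_3, h.nn_5_1_4, h.nn_5_2_2, h.nn_5_2_3, h.nn_5_2_4, h.nn_5_3_1, h.nn_5_3_2, h.nn_5_3_3, h.nn_5_3_4, h.nn_5_4_1, h.nn_5_4_2, h.nn_5_4_3, h.nn_5_4_4, h.qd_1, h.sum, h.xa_0_1, h.xa_0_2, h.xa_0_3, h.xa_0_4, h.xa_2_1, h.xa_2_2, h.xa_3_1, h.xb_0_1, h.xb_0_2, h.xb_0_3, h.xb_0_4, h.xb_1_1, h.xb_1_2, h.xb_4_2, h.xb_4_3, h.xb_4_4, h.hq_1, h.hq_2, h.hb_1, h.hb_2, Pe_1, Pe_2,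 Pt_1, T1c_1, bh_2]

theorem cell7 (h : Fx f q1 q2 q3 b1 b2 m1 m2 e1 e2) (Pe_1 : P1 ≤ 2/21 - 4/3 * (q1 - b1)) (Pe_2 : P2 ≤ 0 - 0 * (q2 - b2)) (T1c_1 : 3/49 * m1 + 4/49 * b1 ≤ 2/49) (bh_2 : b2 ≤ 1/14) :
    2 + (4/7 - (q1 + q2)) + P1 + P2 ≤ e1 + e2 := by
  linarith only [h.E2a_0_1, h.E2a_0_5, h.E2a_2_1, h.E2b_0_2, h.E2b_0_3, h.E2b_1_1, h.E2b_4_2, h.E2b_4_5, h.E3b_0_2, h.E3b_1_1, h.T2_2, h.et_1, h.et_2, h.nn_0_3_1, h.nn_0_3_3, h.nn_0_3_4, h.nn_0_4_1, h.nn_0_4_2, h.nn_0_4_3, h.nn_0_4_4, h.nn_1_2_2, h.nn_1_2_3, h.nn_1_2_4, h.nn_1_3_1, h.nn_1_3_2, h.nn_1_3_3, h.nn_1_3_4, h.nn_1_4_1, h.nn_1_4_2, h.nn_1_4_3, h.nn_1_4_4, h.nn_2_1_3, h.nn_2_1_4, h.nn_2_2_2, h.nn_2_2_3, h.nn_2_2_4, h.nn_2_3_2, h.nn_2_3_3, h.nn_2_3_4,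 h.nn_2_4_1, h.nn_2_4_2, h.nn_2_4_3, h.nn_2_4_4, h.nn_3_1_2, h.nn_3_1_3, h.nn_3_1_4, h.nn_3_2_2, h.nn_3_2_3, h.nn_3_2_4, h.nn_3_3_1, h.nn_3_3_2, h.nn_3_3_3, h.nn_3_3_4, h.nn_3_4_1, h.nn_3_4_2, h.nn_3_4_3, h.nn_3_4_4, h.nn_4_1_3, h.nn_4_1_4, h.nn_4_2_1, h.nn_4_2_3, h.nn_4_2_4, h.nn_4_3_3, h.nn_4_3_4, h.nn_4_4_3, h.nn_4_4_4, h.nn_5_1_2, h.nn_5_1_3, h.nn_5_2_2, h.nn_5_2_3, h.nn_5_2_4, h.nn_5_3_2, h.nn_5_3_3, h.nn_5_3_4, h.nn_5_4_2, h.nn_5_4_3, h.nn_5_4_4, h.qd_1, h.qd_2, h.sum, h.xa_0_1, h.xa_0_2, h.xa_0_3, h.xa_0_4, h.xa_2_1, h.xa_2_2, h.xa_3_4, h.xb_0_1, h.xb_0_2, h.xb_0_3, h.xb_1_1, h.xb_1_2, h.xb_4_1, h.xb_4_2, h.xb_4_3, h.xb_4_4, h.hq_1, h.hq_2, h.hb_1, h.hb_2, Pe_1, Pe_2, T1c_1, bh_2]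

theorem cell8 (h : Fx f q1 q2 q3 b1 b2 m1 m2 e1 e2) (Pe_1 : P1 ≤ 2/21 - 1/3 * (q1 - b1)) (Pe_2 : P2 ≤ 2/21 - 4/9 * (q2 - b2)) (T1c_2 : 1/98 * m2 + 4/49 * b2 ≤ 6/343) (bh_1 : b1 ≤ 1/28) :
    2 + (4/7 - (q1 + q2)) + P1 + P2 ≤ e1 + e2 := by
  linarith only [h.E2a_0_1, h.E2a_0_3, h.E2a_0_4, h.E2a_0_5, h.E2a_2_1, h.E2a_3_1, h.E2a_3_2, h.E2a_3_5, h.E2b_0_1, h.E2b_0_2, h.E2b_0_4, h.E2b_0_5, h.E2b_1_1, h.E2b_1_2, h.E2b_1_4, h.E2b_4_2, h.E2b_4_3, h.E2b_4_5, h.E3a_0_3, h.E3a_0_4, h.E3a_2_1, h.E3a_3_1, h.E3a_3_2, h.E3a_3_4, h.E3a_4_3, h.E3a_5_1, h.E3a_5_3, h.E3a_5_4, h.E3b_0_2, h.E3b_0_4, h.E3b_1_1, h.E3b_2_2, h.E3b_3_3, h.E3b_4_1, h.E3b_4_2, h.E3b_4_3, h.E3b_4_4, h.E3b_5_1, h.R_1, h.T2_1, h.et_1, h.et_2, h.mt_2,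 h.nn_0_4_4, h.nn_1_2_3, h.nn_1_2_4, h.nn_1_3_2, h.nn_1_3_3, h.nn_1_3_4, h.nn_1_4_1, h.nn_1_4_2, h.nn_1_4_3, h.nn_1_4_4, h.nn_2_2_2, h.nn_2_2_4, h.nn_2_3_2, h.nn_2_3_3, h.nn_2_3_4, h.nn_2_4_2, h.nn_2_4_3, h.nn_2_4_4, h.nn_3_4_3, h.nn_3_4_4, h.nn_4_2_1, h.nn_4_3_4, h.nn_4_4_4, h.nn_5_2_2, h.nn_5_2_3, h.nn_5_2_4, h.nn_5_3_2, h.nn_5_4_2, h.qd_2, h.qd_3, h.sum, h.xa_0_1, h.xa_0_2, h.xa_0_3, h.xa_0_4, h.xa_2_1, h.xa_2_2, h.xa_2_3, h.xa_2_4, h.xa_3_1, h.xa_3_2, h.xa_3_3, h.xa_3_4, h.xb_0_1, h.xb_0_2, h.xb_0_3, h.xb_0_4, h.xb_1_1, h.xb_1_2, h.xb_1_3, h.xb_1_4, h.xb_4_3, h.hq_1, h.hq_2, h.hb_1, h.hb_2, h.hq_3, Pe_1, Pe_2, T1c_2, bh_1]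

theorem cell9 (h : Fx f q1 q2 q3 b1 b2 m1 m2 e1 e2) (Pe_1 : P1 ≤ 2/21 - 8/21 * (q1 - b1)) (Pe_2 : P2 ≤ 2/21 - 4/9 * (q2 - b2)) (T1c_1 : 1/392 * m1 + 4/49 * b1 ≤ 3/343) (T1c_2 : 1/98 * m2 + 4/49 * b2 ≤ 6/343) :
    2 + (4/7 - (q1 + q2)) + P1 + P2 ≤ e1 + e2 := by
  linarith only [h.E2a_0_1, h.E2a_0_3, h.E2a_0_5, h.E2a_2_1, h.E2a_3_1, h.E2a_3_2, h.E2a_3_5, h.E2b_0_1, h.E2b_0_2, h.E2b_0_4, h.E2b_0_5, h.E2b_1_2, h.E2b_1_4, h.E2b_4_1, h.E2b_4_2, h.E2b_4_5, h.E3a_0_3, h.E3a_0_4, h.E3a_2_1, h.E3a_3_1, h.E3a_3_2, h.E3a_3_4, h.E3a_4_3, h.E3a_5_1, h.E3a_5_3, h.E3a_5_4, h.E3b_0_2, h.E3b_0_4, h.E3b_1_1, h.E3b_2_2, h.E3b_3_3, h.E3b_4_1, h.E3b_4_2, h.E3b_4_3, h.E3b_4_4, h.E3b_5_1, h.R_1, h.T2_1, h.et_1, h.et_2, h.mt_2,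 h.nn_0_4_4, h.nn_1_2_3, h.nn_1_2_4, h.nn_1_3_2, h.nn_1_3_3, h.nn_1_3_4, h.nn_1_4_1, h.nn_1_4_2, h.nn_1_4_3, h.nn_1_4_4, h.nn_2_2_2, h.nn_2_2_4, h.nn_2_3_2, h.nn_2_3_3, h.nn_2_3_4, h.nn_2_4_2, h.nn_2_4_3, h.nn_2_4_4, h.nn_3_4_3, h.nn_3_4_4, h.nn_4_2_1, h.nn_4_2_2, h.nn_4_2_3, h.nn_4_3_4, h.nn_4_4_4, h.nn_5_2_2, h.nn_5_2_3, h.nn_5_2_4, h.nn_5_3_2, h.nn_5_4_2, h.qd_1, h.qd_2, h.qd_3, h.sum, h.xa_0_1, h.xa_0_2, h.xa_0_3, h.xa_0_4, h.xa_2_1, h.xa_2_2, h.xa_2_3, h.xa_2_4, h.xa_3_1, h.xa_3_3, h.xa_3_4, h.xb_0_1, h.xb_0_2, h.xb_0_3, h.xb_0_4, h.xb_1_1, h.xb_1_2, h.xb_1_3, h.xb_1_4, h.xb_4_3, h.hq_1, h.hq_2, h.hb_1, h.hb_2, h.hq_3, Pe_1, Pe_2, T1c_1, T1c_2]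

theorem cell10 (h : Fx f q1 q2 q3 b1 b2 m1 m2 e1 e2) (Pe_1 : P1 ≤ 2/21 - 4/9 * (q1 - b1)) (Pe_2 : P2 ≤ 2/21 - 4/9 * (q2 - b2)) (T1c_1 : 1/98 * m1 + 4/49 * b1 ≤ 6/343) (T1c_2 : 1/98 * m2 + 4/49 * b2 ≤ 6/343) :
    2 + (4/7 - (q1 + q2)) + P1 + P2 ≤ e1 + e2 := by
  linarith only [h.E2a_0_1, h.E2a_0_2, h.E2a_0_3, h.E2a_0_5, h.E2a_2_2, h.E2a_2_4, h.E2a_3_1, h.E2a_3_2, h.E2a_3_5, h.E2b_0_1, h.E2b_0_2, h.E2b_0_3, h.E2b_0_5, h.E2b_1_1, h.E2b_1_2, h.E2b_1_4, h.E2b_4_2, h.E2b_4_5, h.E3a_0_3, h.E3a_0_4, h.E3a_2_1, h.E3a_3_1, h.E3a_3_2, h.E3a_3_4, h.E3a_4_3, h.E3a_5_1, h.E3b_0_3, h.E3b_0_4, h.E3b_1_1, h.E3b_3_3, h.E3b_4_1, h.E3b_4_2, h.E3b_4_4, h.E3b_5_1, h.E3b_5_3, h.R_1, h.et_1, h.et_2, h.nn_0_4_4, h.nn_1_2_3,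 h.nn_1_2_4, h.nn_1_3_2, h.nn_1_3_3, h.nn_1_3_4, h.nn_1_4_1, h.nn_1_4_2, h.nn_1_4_3, h.nn_1_4_4, h.nn_2_1_4, h.nn_2_2_3, h.nn_2_2_4, h.nn_2_3_2, h.nn_2_3_3, h.nn_2_3_4, h.nn_2_4_2, h.nn_2_4_3, h.nn_2_4_4, h.nn_3_1_2, h.nn_3_4_1, h.nn_3_4_3, h.nn_3_4_4, h.nn_4_1_4, h.nn_4_2_1, h.nn_4_3_4, h.nn_4_4_4, h.nn_5_2_2, h.nn_5_2_3, h.nn_5_2_4, h.nn_5_3_3, h.qd_1, h.qd_2, h.qd_3, h.sum, h.xa_0_1, h.xa_0_2, h.xa_0_3, h.xa_0_4, h.xa_2_1, h.xa_2_2, h.xa_2_3, h.xa_3_2, h.xa_3_3, h.xb_0_1, h.xb_0_2, h.xb_0_3, h.xb_0_4, h.xb_1_1, h.xb_1_2, h.xb_1_3, h.xb_4_3, h.hq_1, h.hq_2, h.hb_1, h.hb_2, h.hq_3, Pe_1, Pe_2, T1c_1, T1c_2]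

theorem cell11 (h : Fx f q1 q2 q3 b1 b2 m1 m2 e1 e2) (Pe_1 : P1 ≤ 2/21 - 2/3 * (q1 - b1)) (Pe_2 : P2 ≤ 2/21 - 4/9 * (q2 - b2)) (T1c_1 : 2/49 * m1 + 4/49 * b1 ≤ 12/343) (T1c_2 : 1/98 * m2 + 4/49 * b2 ≤ 6/343) :
    2 + (4/7 - (q1 + q2)) + P1 + P2 ≤ e1 + e2 := by
  linarith only [h.E2a_0_5, h.E2a_2_1, h.E2a_3_1, h.E2a_3_2, h.E2a_3_5, h.E2b_0_1, h.E2b_0_2, h.E2b_0_3, h.E2b_0_4, h.E2b_1_2, h.E2b_4_2, h.E2b_4_5, h.E3a_2_1, h.E3a_3_2, h.E3a_3_4, h.E3a_4_2, h.E3a_5_1, h.E3b_0_2, h.E3b_0_3, h.E3b_1_1, h.E3b_3_3, h.et_1, h.et_2, h.mt_2, h.nn_0_3_4, h.nn_0_4_3, h.nn_0_4_4, h.nn_1_2_3, h.nn_1_2_4, h.nn_1_3_1, h.nn_1_3_2, h.nn_1_3_3, h.nn_1_3_4, h.nn_1_4_1, h.nn_1_4_2, h.nn_1_4_3, h.nn_1_4_4, h.nn_2_1_3, h.nn_2_1_4,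 h.nn_2_2_2, h.nn_2_2_3, h.nn_2_2_4, h.nn_2_3_2, h.nn_2_3_3, h.nn_2_3_4, h.nn_2_4_1, h.nn_2_4_2, h.nn_2_4_3, h.nn_2_4_4, h.nn_3_1_2, h.nn_3_1_3, h.nn_3_1_4, h.nn_3_2_4, h.nn_3_3_3, h.nn_3_4_1, h.nn_3_4_3, h.nn_3_4_4, h.nn_4_1_3, h.nn_4_2_1, h.nn_4_2_2, h.nn_4_2_3, h.nn_4_2_4, h.nn_4_3_3, h.nn_4_3_4, h.nn_4_4_3, h.nn_4_4_4, h.nn_5_1_2, h.nn_5_1_3, h.nn_5_2_2, h.nn_5_2_3, h.nn_5_2_4, h.nn_5_3_2, h.nn_5_3_3, h.nn_5_3_4, h.nn_5_4_2, h.nn_5_4_3, h.nn_5_4_4, h.qd_1, h.qd_2, h.sum, h.xa_0_1, h.xa_0_2, h.xa_0_3, h.xa_0_4, h.xa_2_1, h.xa_2_2, h.xa_2_4, h.xa_3_1, h.xa_3_4, h.xb_0_1, h.xb_0_2, h.xb_0_3, h.xb_0_4, h.xb_1_1, h.xb_1_2, h.xb_1_3, h.xb_4_3, h.xb_4_4, h.hq_1, h.hq_2, h.hb_1, h.hb_2, Pe_1, Pe_2, T1c_1, T1c_2]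

theorem cell12 (h : Fx f q1 q2 q3 b1 b2 m1 m2 e1 e2) (Pe_1 : P1 ≤ 2/21 - 1/3 * (q1 - b1)) (Pe_2 : P2 ≤ 2/21 - 4/3 * (q2 - b2)) (T1c_2 : 3/98 * m2 + 4/49 * b2 ≤ 10/343) (bh_1 : b1 ≤ 1/14) (bh_2 : b2 ≤ 3/14) :
    2 + (4/7 - (q1 + q2)) + P1 + P2 ≤ e1 + e2 := by
  linarith only [h.E2a_0_1, h.E2a_0_2, h.E2a_0_3, h.E2a_2_2, h.E2a_3_2, h.E2a_3_5, h.E2b_0_1, h.E2b_0_5, h.E2b_1_1, h.E2b_4_1, h.E2b_4_2, h.E2b_4_3, h.E2b_4_4, h.E3a_0_2, h.E3a_0_3, h.E3a_2_1, h.T2_1, h.et_1, h.et_2, h.mt_2, h.nn_0_1_4, h.nn_0_2_4, h.nn_0_3_4, h.nn_0_4_3, h.nn_0_4_4, h.nn_1_1_4, h.nn_1_2_2, h.nn_1_2_3, h.nn_1_2_4, h.nn_1_3_1, h.nn_1_3_2, h.nn_1_3_3, h.nn_1_3_4, h.nn_1_4_1, h.nn_1_4_2, h.nn_1_4_3, h.nn_1_4_4, h.nn_2_1_4, h.nn_2_2_3,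 h.nn_2_2_4, h.nn_2_3_2, h.nn_2_3_3, h.nn_2_3_4, h.nn_2_4_2, h.nn_2_4_3, h.nn_2_4_4, h.nn_3_1_2, h.nn_3_3_1, h.nn_3_3_2, h.nn_3_3_3, h.nn_3_3_4, h.nn_3_4_1, h.nn_3_4_2, h.nn_3_4_3, h.nn_3_4_4, h.nn_4_1_4, h.nn_4_2_1, h.nn_4_2_3, h.nn_4_2_4, h.nn_4_3_1, h.nn_4_3_3, h.nn_4_3_4, h.nn_4_4_1, h.nn_4_4_3, h.nn_4_4_4, h.nn_5_1_2, h.nn_5_2_2, h.nn_5_2_3, h.nn_5_2_4, h.nn_5_3_1, h.nn_5_3_2, h.nn_5_3_3, h.nn_5_3_4, h.nn_5_4_1, h.nn_5_4_2, h.nn_5_4_3, h.nn_5_4_4, h.qd_1, h.sum, h.xa_0_1, h.xa_0_2, h.xa_0_3, h.xa_2_1, h.xa_2_2, h.xa_2_3, h.xa_3_1, h.xa_3_3, h.xa_3_4, h.xb_0_1, h.xb_0_2, h.xb_0_3, h.xb_0_4, h.xb_1_1, h.xb_1_2, h.xb_4_2, h.hq_1, h.hq_2, h.hb_1, h.hb_2, Pe_1, Pe_2, T1c_2, bh_1, bh_2]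

theorem cell13 (h : Fx f q1 q2 q3 b1 b2 m1 m2 e1 e2) (Pe_1 : P1 ≤ 2/21 - 1/3 * (q1 - b1)) (Pe_2 : P2 ≤ 0 - 0 * (q2 - b2)) (T1c_2 : 3/98 * m2 + 4/49 * b2 ≤ 10/343) (bh_1 : b1 ≤ 1/14) :
    2 + (4/7 - (q1 + q2)) + P1 + P2 ≤ e1 + e2 := by
  linarith only [h.E2a_0_1, h.E2a_0_2, h.E2a_0_3, h.E2a_0_4, h.E2a_2_2, h.E2a_3_1, h.E2a_3_2, h.E2a_3_5, h.E2b_0_1, h.E2b_0_2, h.E2b_0_5, h.E2b_1_1, h.E2b_4_1, h.E2b_4_5, h.E3a_0_2, h.E3a_0_3, h.E3a_2_1, h.E3b_1_1, h.E3b_4_3, h.T2_1, h.et_1, h.et_2, h.mt_2, h.nn_0_1_4, h.nn_0_3_4, h.nn_0_4_3, h.nn_0_4_4, h.nn_1_1_4, h.nn_1_2_2, h.nn_1_2_3, h.nn_1_2_4, h.nn_1_3_1, h.nn_1_3_2, h.nn_1_3_3, h.nn_1_3_4, h.nn_1_4_1, h.nn_1_4_2, h.nn_1_4_3, h.nn_1_4_4, h.nn_2_1_4, h.nn_2_2_3,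 h.nn_2_2_4, h.nn_2_3_2, h.nn_2_3_3, h.nn_2_3_4, h.nn_2_4_2, h.nn_2_4_3, h.nn_2_4_4, h.nn_3_1_2, h.nn_3_3_2, h.nn_3_3_3, h.nn_3_3_4, h.nn_3_4_2, h.nn_3_4_3, h.nn_3_4_4, h.nn_4_2_1, h.nn_4_2_2, h.nn_4_2_3, h.nn_4_2_4, h.nn_4_3_1, h.nn_4_3_3, h.nn_4_3_4, h.nn_4_4_2, h.nn_4_4_3, h.nn_4_4_4, h.nn_5_2_2, h.nn_5_2_3, h.nn_5_2_4, h.nn_5_3_1, h.nn_5_3_2, h.nn_5_3_3, h.nn_5_3_4, h.nn_5_4_2, h.nn_5_4_3, h.nn_5_4_4, h.qd_1, h.sum, h.xa_0_1, h.xa_0_2, h.xa_0_3, h.xa_2_1, h.xa_2_2, h.xa_2_3, h.xa_2_4, h.xa_3_1, h.xa_3_3, h.xa_3_4, h.xb_0_1, h.xb_0_2, h.xb_0_3, h.xb_0_4, h.xb_1_1, h.xb_1_2, h.xb_1_3, h.xb_1_4, h.xb_4_4, h.hq_1, h.hq_2, h.hb_1, h.hb_2, Pe_1, Pe_2, T1c_2, bh_1]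

theorem cell14 (h : Fx f q1 q2 q3 b1 b2 m1 m2 e1 e2) (Pe_1 : P1 ≤ 2/21 - 4/3 * (q1 - b1)) (Pe_2 : P2 ≤ 2/21 - 4/3 * (q2 - b2)) (Pt_2 : P2 ≤ q1 - b1) (T1c_2 : 3/49 * m2 + 4/49 * b2 ≤ 2/49) (bh_1 : b1 ≤ 1/14) :
    2 + (4/7 - (q1 + q2)) + P1 + P2 ≤ e1 + e2 := by
  linarith only [h.E2a_0_2, h.E2a_0_3, h.E2a_2_1, h.E2a_3_2, h.E2a_3_3, h.E2a_3_4, h.E2b_0_5, h.E2b_1_1, h.E2b_4_2, h.E3a_0_2, h.E3a_2_1, h.T2_1, h.et_1, h.et_2, h.nn_0_1_3, h.nn_0_1_4, h.nn_0_2_4, h.nn_0_3_3, h.nn_0_3_4, h.nn_0_4_3, h.nn_0_4_4, h.nn_1_2_2, h.nn_1_2_3, h.nn_1_2_4, h.nn_1_3_1, h.nn_1_3_2, h.nn_1_3_3, h.nn_1_3_4, h.nn_1_4_1, h.nn_1_4_2, h.nn_1_4_3, h.nn_1_4_4, h.nn_2_1_3, h.nn_2_1_4, h.nn_2_2_2, h.nn_2_2_3, h.nn_2_2_4, h.nn_2_3_2,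 h.nn_2_3_3, h.nn_2_3_4, h.nn_2_4_2, h.nn_2_4_3, h.nn_2_4_4, h.nn_3_1_2, h.nn_3_3_1, h.nn_3_3_2, h.nn_3_3_3, h.nn_3_3_4, h.nn_3_4_1, h.nn_3_4_2, h.nn_3_4_3, h.nn_3_4_4, h.nn_4_1_3, h.nn_4_1_4, h.nn_4_2_1, h.nn_4_2_2, h.nn_4_2_3, h.nn_4_2_4, h.nn_4_3_2, h.nn_4_3_3, h.nn_4_3_4, h.nn_4_4_1, h.nn_4_4_2, h.nn_4_4_3, h.nn_4_4_4, h.nn_5_1_3, h.nn_5_1_4, h.nn_5_2_1, h.nn_5_2_2, h.nn_5_2_3, h.nn_5_2_4, h.nn_5_3_1, h.nn_5_3_2, h.nn_5_3_3, h.nn_5_3_4, h.nn_5_4_2, h.nn_5_4_3, h.nn_5_4_4, h.qd_2, h.sum, h.xa_0_1, h.xa_0_2, h.xa_0_3, h.xa_0_4, h.xa_2_1, h.xa_2_2, h.xa_3_2, h.xa_3_3, h.xa_3_4, h.xb_0_1, h.xb_0_2, h.xb_0_3, h.xb_0_4, h.xb_1_1, h.xb_1_2, h.xb_4_1, h.xb_4_4, h.hq_1, h.hq_2, h.hb_1, h.hb_2, Pe_1, Pe_2, Pt_2,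 T1c_2, bh_1]

theorem cell15 (h : Fx f q1 q2 q3 b1 b2 m1 m2 e1 e2) (Pe_1 : P1 ≤ 0 - 0 * (q1 - b1)) (Pe_2 : P2 ≤ 2/21 - 4/3 * (q2 - b2)) (T1c_2 : 3/49 * m2 + 4/49 * b2 ≤ 2/49) (bh_1 : b1 ≤ 1/14) :
    2 + (4/7 - (q1 + q2)) + P1 + P2 ≤ e1 + e2 := by
  linarith only [h.E2a_0_2, h.E2a_0_3, h.E2a_2_1, h.E2a_3_2, h.E2a_3_5, h.E2b_0_1, h.E2b_0_5, h.E2b_1_1, h.E3a_0_2, h.E3a_2_1, h.T2_1, h.et_1, h.et_2, h.nn_0_1_3, h.nn_0_1_4, h.nn_0_2_4, h.nn_0_3_3, h.nn_0_3_4, h.nn_0_4_3, h.nn_0_4_4, h.nn_1_1_4, h.nn_1_2_2, h.nn_1_2_3, h.nn_1_2_4, h.nn_1_3_1, h.nn_1_3_2, h.nn_1_3_3, h.nn_1_3_4, h.nn_1_4_1, h.nn_1_4_2, h.nn_1_4_3, h.nn_1_4_4, h.nn_2_1_3, h.nn_2_1_4, h.nn_2_2_2, h.nn_2_2_3, h.nn_2_2_4, h.nn_2_3_2, h.nn_2_3_3,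 h.nn_2_3_4, h.nn_2_4_2, h.nn_2_4_3, h.nn_2_4_4, h.nn_3_1_2, h.nn_3_3_1, h.nn_3_3_2, h.nn_3_3_3, h.nn_3_3_4, h.nn_3_4_1, h.nn_3_4_2, h.nn_3_4_3, h.nn_3_4_4, h.nn_4_1_3, h.nn_4_1_4, h.nn_4_2_1, h.nn_4_2_2, h.nn_4_2_3, h.nn_4_2_4, h.nn_4_3_1, h.nn_4_3_2, h.nn_4_3_3, h.nn_4_3_4, h.nn_4_4_1, h.nn_4_4_2, h.nn_4_4_3, h.nn_4_4_4, h.nn_5_2_2, h.nn_5_2_3, h.nn_5_2_4, h.nn_5_3_1, h.nn_5_3_2, h.nn_5_3_3, h.nn_5_3_4, h.nn_5_4_2, h.nn_5_4_3, h.nn_5_4_4, h.qd_1, h.qd_2, h.sum, h.xa_0_1, h.xa_0_2, h.xa_0_3, h.xa_2_1, h.xa_2_2, h.xa_3_1, h.xa_3_2, h.xa_3_3, h.xa_3_4, h.xb_0_1, h.xb_0_2, h.xb_0_3, h.xb_0_4, h.xb_1_1, h.xb_1_2, h.xb_4_2, h.xb_4_4, h.hq_1, h.hq_2, h.hb_1, h.hb_2, Pe_1, Pe_2, T1c_2, bh_1]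

theorem cell16 (h : Fx f q1 q2 q3 b1 b2 m1 m2 e1 e2) (Pe_1 : P1 ≤ 2/21 - 4/9 * (q1 - b1)) (Pe_2 : P2 ≤ 2/21 - 2/3 * (q2 - b2)) (T1c_1 : 1/98 * m1 + 4/49 * b1 ≤ 6/343) (T1c_2 : 2/49 * m2 + 4/49 * b2 ≤ 12/343) :
    2 + (4/7 - (q1 + q2)) + P1 + P2 ≤ e1 + e2 := by
  linarith only [h.E2a_0_1, h.E2a_0_2, h.E2a_0_3, h.E2a_0_4, h.E2a_2_2, h.E2a_3_2, h.E2a_3_5, h.E2b_0_5, h.E2b_1_1, h.E2b_4_1, h.E2b_4_2, h.E2b_4_5, h.E3a_0_2, h.E3a_0_3, h.E3a_2_1, h.E3a_4_3, h.E3b_1_1, h.E3b_3_2, h.E3b_4_2, h.E3b_4_4, h.E3b_5_1, h.et_1, h.et_2, h.mt_1, h.nn_0_3_4, h.nn_0_4_3, h.nn_0_4_4, h.nn_1_1_4, h.nn_1_2_2, h.nn_1_2_3, h.nn_1_2_4, h.nn_1_3_1, h.nn_1_3_2, h.nn_1_3_3, h.nn_1_3_4, h.nn_1_4_1, h.nn_1_4_2, h.nn_1_4_3, h.nn_1_4_4,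 h.nn_2_1_3, h.nn_2_1_4, h.nn_2_2_3, h.nn_2_2_4, h.nn_2_3_2, h.nn_2_3_3, h.nn_2_3_4, h.nn_2_4_2, h.nn_2_4_3, h.nn_2_4_4, h.nn_3_1_2, h.nn_3_2_3, h.nn_3_3_3, h.nn_3_3_4, h.nn_3_4_2, h.nn_3_4_3, h.nn_3_4_4, h.nn_4_1_4, h.nn_4_2_1, h.nn_4_2_4, h.nn_4_3_1, h.nn_4_3_4, h.nn_4_4_1, h.nn_4_4_4, h.nn_5_2_1, h.nn_5_2_2, h.nn_5_2_3, h.nn_5_2_4, h.nn_5_3_1, h.nn_5_3_2, h.nn_5_3_3, h.nn_5_3_4, h.nn_5_4_2, h.nn_5_4_3, h.nn_5_4_4, h.qd_1, h.qd_2, h.sum, h.xa_0_1, h.xa_0_2, h.xa_0_3, h.xa_0_4, h.xa_2_1, h.xa_2_2, h.xa_2_3, h.xa_3_1, h.xa_3_2, h.xa_3_3, h.xa_3_4, h.xb_0_1, h.xb_0_2, h.xb_0_3, h.xb_0_4, h.xb_1_1, h.xb_1_2, h.xb_1_3, h.xb_1_4, h.xb_4_4, h.hq_1, h.hq_2, h.hb_1, h.hb_2, Pe_1, Pe_2, T1c_1, T1c_2]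

theorem cell17 (h : Fx f q1 q2 q3 b1 b2 m1 m2 e1 e2) (Pe_1 : P1 ≤ 2/21 - 2/3 * (q1 - b1)) (Pe_2 : P2 ≤ 2/21 - 2/3 * (q2 - b2)) (T1c_1 : 2/49 * m1 + 4/49 * b1 ≤ 12/343) (T1c_2 : 2/49 * m2 + 4/49 * b2 ≤ 12/343) :
    2 + (4/7 - (q1 + q2)) + P1 + P2 ≤ e1 + e2 := by
  linarith only [h.E2a_0_2, h.E2a_0_3, h.E2a_2_1, h.E2b_0_2, h.E2b_0_3, h.E2b_1_1, h.E2b_4_2, h.et_1, h.et_2, h.nn_0_1_4, h.nn_0_2_4, h.nn_0_3_3, h.nn_0_3_4, h.nn_0_4_2, h.nn_0_4_3, h.nn_0_4_4, h.nn_1_2_2, h.nn_1_2_3, h.nn_1_2_4, h.nn_1_3_1, h.nn_1_3_2, h.nn_1_3_3, h.nn_1_3_4, h.nn_1_4_1, h.nn_1_4_2, h.nn_1_4_3, h.nn_1_4_4, h.nn_2_1_2, h.nn_2_1_3, h.nn_2_1_4, h.nn_2_2_2, h.nn_2_2_3, h.nn_2_2_4, h.nn_2_3_2, h.nn_2_3_3, h.nn_2_3_4, h.nn_2_4_1, h.nn_2_4_2,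 h.nn_2_4_3, h.nn_2_4_4, h.nn_3_1_2, h.nn_3_1_3, h.nn_3_1_4, h.nn_3_2_2, h.nn_3_2_3, h.nn_3_2_4, h.nn_3_3_1, h.nn_3_3_2, h.nn_3_3_3, h.nn_3_3_4, h.nn_3_4_1, h.nn_3_4_2, h.nn_3_4_3, h.nn_3_4_4, h.nn_4_1_3, h.nn_4_1_4, h.nn_4_2_1, h.nn_4_2_2, h.nn_4_2_3, h.nn_4_2_4, h.nn_4_3_2, h.nn_4_3_3, h.nn_4_3_4, h.nn_4_4_1, h.nn_4_4_2, h.nn_4_4_3, h.nn_4_4_4, h.nn_5_1_3, h.nn_5_2_2, h.nn_5_2_3, h.nn_5_2_4, h.nn_5_3_2, h.nn_5_3_3, h.nn_5_3_4, h.nn_5_4_2, h.nn_5_4_3, h.nn_5_4_4, h.qd_1, h.qd_2, h.sum, h.xa_0_1, h.xa_0_2, h.xa_0_3, h.xa_0_4, h.xa_2_1, h.xa_2_2, h.xa_3_2, h.xa_3_4, h.xb_0_1, h.xb_0_2, h.xb_0_3, h.xb_0_4, h.xb_1_1, h.xb_1_2, h.xb_4_1, h.xb_4_2, h.xb_4_3, h.xb_4_4, h.hq_1, h.hq_2, h.hb_1, h.hb_2, Pe_1, Pe_2,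 T1c_1, T1c_2]

/-- chord form of `m * b ≤ q ^ 2` -/
theorem t1c {m b q b0 b1 : ℝ} (hm : 0 ≤ m) (h : m * b ≤ q ^ 2) (hq0 : 0 ≤ q) (hq : q ≤ 2/7) (h0 : b0 ≤ b) (h1 : b ≤ b1) (hb : 0 ≤ b0) :
    b0 * b1 * m + 4/49 * b ≤ 4/49 * (b0 + b1) := by
  have hq2 : q ^ 2 ≤ 4/49 := by nlinarith
  have h2 : m * b ≤ 4/49 := h.trans hq2
  have h3 : 0 ≤ (b - b0) * (b1 - b) := mul_nonneg (by linarith) (by linarith)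
  have h4 : m * ((b - b0) * (b1 - b)) ≥ 0 := mul_nonneg hm h3
  have h5 : 0 ≤ (4/49 - m * b) * (b0 + b1 - b) := mul_nonneg (by linarith) (by linarith)
  nlinarith

theorem t1q {m b q b0 : ℝ} (hm : 0 ≤ m) (h : m * b ≤ q ^ 2) (hq0 : 0 ≤ q) (hq : q ≤ 2/7) (h0 : b0 ≤ b) :
    b0 * m ≤ 2/7 * q := by
  have h1 : 0 ≤ m * (b - b0) := mul_nonneg hm (by linarith)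
  nlinarith

theorem pe {P t t0 t1 : ℝ} (h : P ≤ max 0 (2/21 - 4/3 * t)) (h0 : t0 ≤ t) (h1 : t ≤ t1) (h01 : t0 < t1) (c s : ℝ)
    (e0 : max 0 (2/21 - 4/3 * t0) ≤ c - s * t0) (e1 : max 0 (2/21 - 4/3 * t1) ≤ c - s * t1) : P ≤ c - s * t := by
  obtain ⟨l, hl0, hl1, hl⟩ : ∃ l : ℝ, 0 ≤ l ∧ l ≤ 1 ∧ t = (1 - l) * t0 + l * t1 := by
    refine ⟨(t - t0) / (t1 - t0), div_nonneg (by linarith) (by linarith), ?_, ?_⟩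
    · rw [div_le_one (by linarith)]; linarith
    · have : t1 - t0 ≠ 0 := by linarith
      field_simp
      ring
  refine h.trans (max_le ?_ ?_)
  · have a0 := (le_max_left _ _).trans e0
    have a1 := (le_max_left _ _).trans e1
    have := mul_nonneg (sub_nonneg.2 hl1) a0
    have := mul_nonneg hl0 a1
    subst hl
    nlinarith
  · have a0 := (le_max_right _ _).trans e0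
    have a1 := (le_max_right _ _).trans e1
    have := mul_nonneg (sub_nonneg.2 hl1) (sub_nonneg.2 a0)
    have := mul_nonneg hl0 (sub_nonneg.2 a1)
    subst hl
    nlinarith

theorem main (h : Fx f q1 q2 q3 b1 b2 m1 m2 e1 e2) (hm1 : 0 ≤ m1) (hm2 : 0 ≤ m2) (hb1 : 0 ≤ b1) (hb2 : 0 ≤ b2)
    (hbq1 : b1 ≤ q1) (hbq2 : b2 ≤ q2) (T1_1 : m1 * b1 ≤ q1 ^ 2) (T1_2 : m2 * b2 ≤ q2 ^ 2)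
    (Pt_1 : P1 ≤ q2 - b2) (Pt_2 : P2 ≤ q1 - b1) (Q_1 : P1 ≤ max 0 (2/21 - 4/3 * (q1 - b1))) (Q_2 : P2 ≤ max 0 (2/21 - 4/3 * (q2 - b2))) :
    2 + (4/7 - (q1 + q2)) + P1 + P2 ≤ e1 + e2 := by
  have hq1 := h.qd_1
  have hq2 := h.qd_2
  have u1 : 0 ≤ q1 := by linarith
  have u2 : 0 ≤ q2 := by linarith
  rcases le_total b2 (1/7 : ℝ) with hc1 | hc1
  · rcases le_total b2 (1/14 : ℝ) with hc2 | hc2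
    · rcases le_total b1 (1/7 : ℝ) with hc3 | hc3
      · rcases le_total b1 (1/14 : ℝ) with hc4 | hc4
        · rcases le_total (q2 - b2) (1/14 : ℝ) with hc5 | hc5
          · exact cell0 h (pe (t0 := 0) (t1 := 2/7) Q_1 (by linarith) (by linarith) (by norm_num) _ _ (by norm_num) (by norm_num)) (pe (t0 := 0) (t1 := 1/14) Q_2 (by linarith) (by linarith) (by norm_num) _ _ (by norm_num) (by norm_num)) Pt_1 (by linarith) (by linarith)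
          · exact cell1 h (pe (t0 := 0) (t1 := 2/7) Q_1 (by linarith) (by linarith) (by norm_num) _ _ (by norm_num) (by norm_num)) (pe (t0 := 1/14) (t1 := 2/7) Q_2 (by linarith) (by linarith) (by norm_num) _ _ (by norm_num) (by norm_num)) (by linarith) (by linarith)
        · rcases le_total b2 (1/28 : ℝ) with hc5 | hc5
          · exact cell2 h (pe (t0 := 0) (t1 := 3/14) Q_1 (by linarith) (by linarith) (by norm_num) _ _ (by norm_num) (by norm_num)) (pe (t0 := 0) (t1 := 2/7) Q_2 (by linarith) (by linarith) (by norm_num) _ _ (by norm_num) (by norm_num)) (by have := t1c (b0 := 1/14) (b1 := 1/7) hm1 T1_1 u1 hq1 (by linarith) (by linarith) (by norm_num); norm_num at this ⊢; linarith) (by linarith)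
          · exact cell3 h (pe (t0 := 0) (t1 := 3/14) Q_1 (by linarith) (by linarith) (by norm_num) _ _ (by norm_num) (by norm_num)) (pe (t0 := 0) (t1 := 1/4) Q_2 (by linarith) (by linarith) (by norm_num) _ _ (by norm_num) (by norm_num)) (by have := t1c (b0 := 1/14) (b1 := 1/7) hm1 T1_1 u1 hq1 (by linarith) (by linarith) (by norm_num); norm_num at this ⊢; linarith) (by have := t1c (b0 := 1/28) (b1 := 1/14) hm2 T1_2 u2 hq2 (by linarith) (by linarith) (by norm_num); norm_num at this ⊢; linarith)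
      · rcases le_total b1 (3/14 : ℝ) with hc4 | hc4
        · rcases le_total (q1 - b1) (1/14 : ℝ) with hc5 | hc5
          · exact cell4 h (pe (t0 := 0) (t1 := 1/14) Q_1 (by linarith) (by linarith) (by norm_num) _ _ (by norm_num) (by norm_num)) (pe (t0 := 0) (t1 := 2/7) Q_2 (by linarith) (by linarith) (by norm_num) _ _ (by norm_num) (by norm_num)) (by have := t1c (b0 := 1/7) (b1 := 3/14) hm1 T1_1 u1 hq1 (by linarith) (by linarith) (by norm_num); norm_num at this ⊢; linarith) (by linarith) (by linarith)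
          · exact cell5 h (pe (t0 := 1/14) (t1 := 1/7) Q_1 (by linarith) (by linarith) (by norm_num) _ _ (by norm_num) (by norm_num)) (pe (t0 := 0) (t1 := 2/7) Q_2 (by linarith) (by linarith) (by norm_num) _ _ (by norm_num) (by norm_num)) (by have := t1c (b0 := 1/7) (b1 := 3/14) hm1 T1_1 u1 hq1 (by linarith) (by linarith) (by norm_num); norm_num at this ⊢; linarith) (by linarith)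
        · rcases le_total (q2 - b2) (1/14 : ℝ) with hc5 | hc5
          · exact cell6 h (pe (t0 := 0) (t1 := 1/14) Q_1 (by linarith) (by linarith) (by norm_num) _ _ (by norm_num) (by norm_num)) (pe (t0 := 0) (t1 := 1/14) Q_2 (by linarith) (by linarith) (by norm_num) _ _ (by norm_num) (by norm_num)) Pt_1 (by have := t1c (b0 := 3/14) (b1 := 2/7) hm1 T1_1 u1 hq1 (by linarith) (by linarith) (by norm_num); norm_num at this ⊢; linarith) (by linarith)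
          · exact cell7 h (pe (t0 := 0) (t1 := 1/14) Q_1 (by linarith) (by linarith) (by norm_num) _ _ (by norm_num) (by norm_num)) (pe (t0 := 1/14) (t1 := 2/7) Q_2 (by linarith) (by linarith) (by norm_num) _ _ (by norm_num) (by norm_num)) (by have := t1c (b0 := 3/14) (b1 := 2/7) hm1 T1_1 u1 hq1 (by linarith) (by linarith) (by norm_num); norm_num at this ⊢; linarith) (by linarith)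
    · rcases le_total b1 (1/7 : ℝ) with hc3 | hc3
      · rcases le_total b1 (1/14 : ℝ) with hc4 | hc4
        · rcases le_total b1 (1/28 : ℝ) with hc5 | hc5
          · exact cell8 h (pe (t0 := 0) (t1 := 2/7) Q_1 (by linarith) (by linarith) (by norm_num) _ _ (by norm_num) (by norm_num)) (pe (t0 := 0) (t1 := 3/14) Q_2 (by linarith) (by linarith) (by norm_num) _ _ (by norm_num) (by norm_num)) (by have := t1c (b0 := 1/14) (b1 := 1/7) hm2 T1_2 u2 hq2 (by linarith) (by linarith) (by norm_num); norm_num at this ⊢; linarith) (by linarith)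
          · exact cell9 h (pe (t0 := 0) (t1 := 1/4) Q_1 (by linarith) (by linarith) (by norm_num) _ _ (by norm_num) (by norm_num)) (pe (t0 := 0) (t1 := 3/14) Q_2 (by linarith) (by linarith) (by norm_num) _ _ (by norm_num) (by norm_num)) (by have := t1c (b0 := 1/28) (b1 := 1/14) hm1 T1_1 u1 hq1 (by linarith) (by linarith) (by norm_num); norm_num at this ⊢; linarith) (by have := t1c (b0 := 1/14) (b1 := 1/7) hm2 T1_2 u2 hq2 (by linarith) (by linarith) (by norm_num); norm_num at this ⊢; linarith)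
        · exact cell10 h (pe (t0 := 0) (t1 := 3/14) Q_1 (by linarith) (by linarith) (by norm_num) _ _ (by norm_num) (by norm_num)) (pe (t0 := 0) (t1 := 3/14) Q_2 (by linarith) (by linarith) (by norm_num) _ _ (by norm_num) (by norm_num)) (by have := t1c (b0 := 1/14) (b1 := 1/7) hm1 T1_1 u1 hq1 (by linarith) (by linarith) (by norm_num); norm_num at this ⊢; linarith) (by have := t1c (b0 := 1/14) (b1 := 1/7) hm2 T1_2 u2 hq2 (by linarith) (by linarith) (by norm_num); norm_num at this ⊢; linarith)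
      · exact cell11 h (pe (t0 := 0) (t1 := 1/7) Q_1 (by linarith) (by linarith) (by norm_num) _ _ (by norm_num) (by norm_num)) (pe (t0 := 0) (t1 := 3/14) Q_2 (by linarith) (by linarith) (by norm_num) _ _ (by norm_num) (by norm_num)) (by have := t1c (b0 := 1/7) (b1 := 2/7) hm1 T1_1 u1 hq1 (by linarith) (by linarith) (by norm_num); norm_num at this ⊢; linarith) (by have := t1c (b0 := 1/14) (b1 := 1/7) hm2 T1_2 u2 hq2 (by linarith) (by linarith) (by norm_num); norm_num at this ⊢; linarith)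
  · rcases le_total b1 (1/7 : ℝ) with hc2 | hc2
    · rcases le_total b1 (1/14 : ℝ) with hc3 | hc3
      · rcases le_total b2 (3/14 : ℝ) with hc4 | hc4
        · rcases le_total (q2 - b2) (1/14 : ℝ) with hc5 | hc5
          · exact cell12 h (pe (t0 := 0) (t1 := 2/7) Q_1 (by linarith) (by linarith) (by norm_num) _ _ (by norm_num) (by norm_num)) (pe (t0 := 0) (t1 := 1/14) Q_2 (by linarith) (by linarith) (by norm_num) _ _ (by norm_num) (by norm_num)) (by have := t1c (b0 := 1/7) (b1 := 3/14) hm2 T1_2 u2 hq2 (by linarith) (by linarith) (by norm_num); norm_num at this ⊢; linarith) (by linarith) (by linarith)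
          · exact cell13 h (pe (t0 := 0) (t1 := 2/7) Q_1 (by linarith) (by linarith) (by norm_num) _ _ (by norm_num) (by norm_num)) (pe (t0 := 1/14) (t1 := 1/7) Q_2 (by linarith) (by linarith) (by norm_num) _ _ (by norm_num) (by norm_num)) (by have := t1c (b0 := 1/7) (b1 := 3/14) hm2 T1_2 u2 hq2 (by linarith) (by linarith) (by norm_num); norm_num at this ⊢; linarith) (by linarith)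
        · rcases le_total (q1 - b1) (1/14 : ℝ) with hc5 | hc5
          · exact cell14 h (pe (t0 := 0) (t1 := 1/14) Q_1 (by linarith) (by linarith) (by norm_num) _ _ (by norm_num) (by norm_num)) (pe (t0 := 0) (t1 := 1/14) Q_2 (by linarith) (by linarith) (by norm_num) _ _ (by norm_num) (by norm_num)) Pt_2 (by have := t1c (b0 := 3/14) (b1 := 2/7) hm2 T1_2 u2 hq2 (by linarith) (by linarith) (by norm_num); norm_num at this ⊢; linarith) (by linarith)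
          · exact cell15 h (pe (t0 := 1/14) (t1 := 2/7) Q_1 (by linarith) (by linarith) (by norm_num) _ _ (by norm_num) (by norm_num)) (pe (t0 := 0) (t1 := 1/14) Q_2 (by linarith) (by linarith) (by norm_num) _ _ (by norm_num) (by norm_num)) (by have := t1c (b0 := 3/14) (b1 := 2/7) hm2 T1_2 u2 hq2 (by linarith) (by linarith) (by norm_num); norm_num at this ⊢; linarith) (by linarith)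
      · exact cell16 h (pe (t0 := 0) (t1 := 3/14) Q_1 (by linarith) (by linarith) (by norm_num) _ _ (by norm_num) (by norm_num)) (pe (t0 := 0) (t1 := 1/7) Q_2 (by linarith) (by linarith) (by norm_num) _ _ (by norm_num) (by norm_num)) (by have := t1c (b0 := 1/14) (b1 := 1/7) hm1 T1_1 u1 hq1 (by linarith) (by linarith) (by norm_num); norm_num at this ⊢; linarith) (by have := t1c (b0 := 1/7) (b1 := 2/7) hm2 T1_2 u2 hq2 (by linarith) (by linarith) (by norm_num); norm_num at this ⊢; linarith)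
    · exact cell17 h (pe (t0 := 0) (t1 := 1/7) Q_1 (by linarith) (by linarith) (by norm_num) _ _ (by norm_num) (by norm_num)) (pe (t0 := 0) (t1 := 1/7) Q_2 (by linarith) (by linarith) (by norm_num) _ _ (by norm_num) (by norm_num)) (by have := t1c (b0 := 1/7) (b1 := 2/7) hm1 T1_1 u1 hq1 (by linarith) (by linarith) (by norm_num); norm_num at this ⊢; linarith) (by have := t1c (b0 := 1/7) (b1 := 2/7) hm2 T1_2 u2 hq2 (by linarith) (by linarith) (by norm_num); norm_num at this ⊢; linarith)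

end Pool.Agent.BFT2.FourNum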