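import Mathlib
import Pool.Agent.BFT.Swap
import Pool.Agent.BFT2.Dual

/-! # Exchanges inside a triple (owner: helper68)

`F r x y z k l = Pr[D x y = k, D y z = l]`. -/

set_option autoImplicit false

namespace Pool.Agent.BFT2

open Finset Pool.Agent.Helper1.Balance Pool.Agent.Helper8.KS Pool.Agent.Helper18.KSC Pool.Agent.BFT

variable {n : ℕ} {r : Fin n → Fin n → Prop}

/-- exchange of the first two, adjacent, elements, for an arbitrary condition on the third -/
theorem Pr_swap_left {x y z : Fin n} (h : ¬ r x y) (hzx : z ≠ x) (hzy : z ≠ y) (p : ℤ → Prop) :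
    Pr r (fun σ => D x y σ = 1 ∧ p (D y z σ)) ≤ Pr r (fun σ => D y x σ = 1 ∧ p (D x z σ)) := by
  refine Pr_le_of_inj' _ _ (fun σ => σ * Equiv.swap x y) (fun σ => σ * Equiv.swap x y) ?_ ?_
  · rintro σ hσ ⟨h1, h2⟩
    refine ⟨swap_mem hσ h1 h, ?_, ?_⟩
    · rw [D_neg, D_swap_both, ← D_neg]
      exact h1
    · rw [D_swap_left hzx hzy]
      exact h2
  · intro σ _ _
    simp [mul_assoc]

/-- exchange of the first two elements when adjacent -/
theorem F_left {x y z : Fin n} (h : Inc r x y) (hzx : z ≠ x) (hzy : z ≠ y) (l : ℤ) :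
    F r x y z 1 l = F r y x z 1 l := by
  unfold F
  exact le_antisymm (Pr_swap_left h.1 hzx hzy (fun k => k = l))
    (Pr_swap_left h.2 hzy hzx (fun k => k = l))

/-- exchange of the last two elements when adjacent -/
theorem F_right {x y z : Fin n} (h : Inc r y z) (hxy : x ≠ y) (hxz : x ≠ z) (k : ℤ) :
    F r x y z k 1 = F r x z y k 1 := by
  have := F_left (r := op r) (op_inc.2 h.symm) hxz hxy k
  rw [F_op, F_op] at this
  exact this

/-- (E2), for an arbitrary condition on the third element (which comes last) -/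
theorem Pr_two_le (hr : IsPoset r) {x y z : Fin n} (h : Inc r x y) (hzx : z ≠ x) (hzy : z ≠ y)
    (p : ℤ → Prop) (hp : ∀ l, p l → 1 ≤ l) :
    Pr r (fun σ => D x y σ = 2 ∧ p (D y z σ)) + Pr r (fun σ => D y x σ = 2 ∧ p (D x z σ)) ≤
      Pr r (fun σ => D x y σ = 1 ∧ p (D y z σ)) +
        Pr r (fun σ => D x y σ = 1 ∧ p (D y z σ - 1)) := by
  have hne := h.ne hr
  have e1 : Pr r (fun σ => D x y σ = 2 ∧ p (D y z σ)) = Pr r (fun σ => (D x y σ = 2 ∧ p (D y z σ)) ∧ r x (el σ x 1)) +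
      Pr r (fun σ => (D x y σ = 2 ∧ p (D y z σ)) ∧ ¬ r x (el σ x 1)) := by
    rw [Pr_split r (fun σ => D x y σ = 2 ∧ p (D y z σ)) (fun σ => r x (el σ x 1))]
  have e2 : Pr r (fun σ => D y x σ = 2 ∧ p (D x z σ)) = Pr r (fun σ => (D y x σ = 2 ∧ p (D x z σ)) ∧ r (el σ x (-1)) x) +
      Pr r (fun σ => (D y x σ = 2 ∧ p (D x z σ)) ∧ ¬ r (el σ x (-1)) x) := by
    rw [Pr_split r (fun σ => D y x σ = 2 ∧ p (D x z σ)) (fun σ => r (el σ x (-1)) x)]
  have e3 : Pr r (fun σ => (D x y σ = 2 ∧ p (D y z σ)) ∧ ¬ r x (el σ x 1)) +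
      Pr r (fun σ => (D y x σ = 2 ∧ p (D x z σ)) ∧ r (el σ x (-1)) x) ≤
        Pr r (fun σ => D x y σ = 1 ∧ p (D y z σ)) := by
    refine Pr_add_le_of_inj' _ _ _ (fun σ => PI r x σ)
      (fun σ => σ * Equiv.swap x (el σ x 1)) (fun τ => τ * Equiv.swap x (el τ x (-1)))
      (fun σ => σ * Equiv.swap y (el σ x (-1)) * Equiv.swap y x)
      (fun σ => σ * Equiv.swap y x * Equiv.swap y (el σ x (-1))) ?_ ?_
    · rintro σ hσ ⟨⟨h1, h1z⟩, h2⟩
      obtain ⟨e, h3, h4, h5, h6, h7, h8, h9, h10, h11⟩ := two_data hr h hσ h1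
      have hze : z ≠ e := by
        rintro rfl
        have := hp _ h1z
        rw [D_neg] at h4
        omega
      obtain ⟨g1, g2, g3, g4, g5⟩ := left_map hr hne hσ h3 h6 (by rwa [h7] at h2)
      refine ⟨g1, ⟨by omega, ?_⟩, ⟨e, g3, g4⟩, g5⟩
      rw [h7, D_swap_none hne.symm h6.symm hzx hze]
      exact h1z
    · rintro σ hσ ⟨⟨h1, h1z⟩, h2⟩
      obtain ⟨e, h3, h4, h5, h6, h7, h8, h9, h10, h11⟩ := two_data hr h.symm hσ h1
      have hze : z ≠ e := by
        rintro rfl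
        have := hp _ h1z
        rw [D_neg] at h4
        omega
      rw [h8] at h2 ⊢
      have h12 : ¬ r y e := fun h13 => h11 h13 h2
      have g1 := swap_mem hσ h3 h12
      have g2 : D y x (σ * Equiv.swap y e) = 1 := by
        rw [D_swap_left hne h6.symm]
        exact h4
      obtain ⟨g3, g4⟩ := pair_map hr g1 g2 h.2
      have g5 : D e x (σ * Equiv.swap y e * Equiv.swap y x) = 1 := by
        rw [D_neg, D_swap_right h5 h6, ← D_neg, D_neg, D_swap_both, D_neg]
        omega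
      have g6 : D x e (σ * Equiv.swap y e * Equiv.swap y x) = -1 := by
        rw [D_neg, g5]
      refine ⟨g3, ⟨g4, ?_⟩, ?_, ?_⟩
      · rw [D_swap_left hzy hzx, D_swap_none hne h6.symm hzy hze]
        exact h1z
      · rw [PI_iff g5]
        exact fun hh => hh h2
      · rw [el_eq g6]
        simp [mul_assoc]
  have e4 : Pr r (fun σ => (D x y σ = 2 ∧ p (D y z σ)) ∧ r x (el σ x 1)) +
      Pr r (fun σ => (D y x σ = 2 ∧ p (D x z σ)) ∧ ¬ r (el σ x (-1)) x) ≤
        Pr r (fun σ => D x y σ = 1 ∧ p (D y z σ - 1)) := by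
    refine Pr_add_le_of_inj' _ _ _ (fun σ => r x (el σ y 1))
      (fun σ => σ * Equiv.swap (el σ y (-1)) y) (fun τ => τ * Equiv.swap (el τ y 1) y)
      (fun σ => σ * Equiv.swap (el σ x (-1)) x * Equiv.swap y x)
      (fun σ => σ * Equiv.swap y x * Equiv.swap (el σ y 1) x) ?_ ?_
    · rintro σ hσ ⟨⟨h1, h1z⟩, h2⟩
      obtain ⟨e, h3, h4, h5, h6, h7, h8, h9, h10, h11⟩ := two_data hr h hσ h1
      have hze : z ≠ e := by
        rintro rfl
        have := hp _ h1z
        rw [D_neg] at h4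
        omega
      rw [h7] at h2
      obtain ⟨g1, g2, g3, g4, g5⟩ := right_map hr hne hσ h4 h5 (h11 h2)
      refine ⟨g1, ⟨by omega, ?_⟩, ?_, g5⟩
      · rw [h8, D_swap_right hze hzy]
        have h12 : D e z σ - 1 = D y z σ := by
          have := D_add e y z σ
          omega
        rw [h12]
        exact h1z
      · rw [el_eq g3]
        exact h2
    · rintro σ hσ ⟨⟨h1, h1z⟩, h2⟩
      obtain ⟨e, h3, h4, h5, h6, h7, h8, h9, h10, h11⟩ := two_data hr h.symm hσ h1
      have hze : z ≠ e := by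
        rintro rfl
        have := hp _ h1z
        rw [D_neg] at h4
        omega
      rw [h8] at h2 ⊢
      have g1 := swap_mem hσ h4 h2
      have g2 : D y x (σ * Equiv.swap e x) = 1 := by
        rw [D_neg, D_swap_right h5.symm hne.symm, ← D_neg]
        exact h3
      obtain ⟨g3, g4⟩ := pair_map hr g1 g2 h.2
      have g5 : D y e (σ * Equiv.swap e x * Equiv.swap y x) = 1 := by
        rw [D_swap_left h5 h6, D_neg, D_swap_both, ← D_neg]
        omega
      refine ⟨g3, ⟨g4, ?_⟩, ?_, ?_⟩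
      · rw [D_swap_left hzy hzx, D_swap_right hze hzx]
        have h12 : D e z σ - 1 = D x z σ := by
          have := D_add e x z σ
          omega
        rw [h12]
        exact h1z
      · rw [el_eq g5]
        exact h10
      · rw [el_eq g5]
        simp [mul_assoc]
  linarith

/-- (E2) -/
theorem F_two_le (hr : IsPoset r) {x y z : Fin n} (h : Inc r x y) (hzx : z ≠ x) (hzy : z ≠ y)
    {l : ℤ} (hl : 1 ≤ l) :
    F r x y z 2 l + F r y x z 2 l ≤ F r x y z 1 l + F r x y z 1 (l + 1) := by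
  have h1 := Pr_two_le hr h hzx hzy (fun k => k = l) (fun k hk => by omega)
  unfold F
  have e : (fun σ => D x y σ = 1 ∧ D y z σ - 1 = l) =
      (fun σ : Equiv.Perm (Fin n) => D x y σ = 1 ∧ D y z σ = l + 1) := by
    funext σ
    rw [sub_eq_iff_eq_add]
  rw [e] at h1
  exact h1

/-- (E2), dual form -/
theorem F_le_two (hr : IsPoset r) {x y z : Fin n} (h : Inc r y z) (hxy : x ≠ y) (hxz : x ≠ z)
    {k : ℤ} (hk : 1 ≤ k) :
    F r x y z k 2 + F r x z y k 2 ≤ F r x y z k 1 + F r x y z (k + 1) 1 := by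
  have := F_two_le (r := op r) (op_isPoset hr) (x := z) (y := y) (z := x) (op_inc.2 h.symm)
    hxz hxy hk
  rw [F_op, F_op, F_op, F_op] at this
  exact this

/-- (E3), for an arbitrary condition on the third element (which comes last) -/
theorem Pr_three_le (hr : IsPoset r) {x y z : Fin n} (h : Inc r x y) (hzx : z ≠ x) (hzy : z ≠ y)
    (p : ℤ → Prop) (hp : ∀ l, p l → 1 ≤ l) :
    Pr r (fun σ => D x y σ = 3 ∧ p (D y z σ)) ≤
      Pr r (fun σ => D x y σ = 2 ∧ p (D y z σ)) +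
        Pr r (fun σ => D x y σ = 2 ∧ p (D y z σ - 1)) := by
  have hne := h.ne hr
  have e1 : Pr r (fun σ => D x y σ = 3 ∧ p (D y z σ)) =
      Pr r (fun σ => (D x y σ = 3 ∧ p (D y z σ)) ∧ ¬ r x (el σ x 1)) +
      (Pr r (fun σ => ((D x y σ = 3 ∧ p (D y z σ)) ∧ r x (el σ x 1)) ∧ ¬ r (el σ y (-1)) y) +
        Pr r (fun σ => ((D x y σ = 3 ∧ p (D y z σ)) ∧ r x (el σ x 1)) ∧ r (el σ y (-1)) y)) := by
    rw [Pr_split r (fun σ => D x y σ = 3 ∧ p (D y z σ)) (fun σ => r x (el σ x 1)),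
      Pr_split r (fun σ => (D x y σ = 3 ∧ p (D y z σ)) ∧ r x (el σ x 1))
        (fun σ => r (el σ y (-1)) y)]
    ring
  have key : ∀ σ ∈ LEs r, (D x y σ = 3 ∧ p (D y z σ)) → ∃ e f, D x e σ = 1 ∧ D e f σ = 1 ∧
      D f y σ = 1 ∧ D y f σ = -1 ∧ e ≠ x ∧ e ≠ y ∧ f ≠ x ∧ f ≠ y ∧ e ≠ f ∧ ¬ r f x ∧
      ¬ r y e ∧ z ≠ e ∧ z ≠ f := by
    rintro σ hσ ⟨h1, hz⟩
    have hz' := hp _ hz
    obtain ⟨e, he⟩ := exists_el σ x y 1 (by norm_num) (by omega)
    obtain ⟨f, hf⟩ := exists_el σ x y 2 (by norm_num) (by omega)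
    have h2 := D_add x e f σ
    have h3 := D_add x f y σ
    have h4 := D_neg y f σ
    have h5 := D_add x e y σ
    have h6 := D_neg y e σ
    refine ⟨e, f, he, by omega, by omega, by omega, ?_, ?_, ?_, ?_, ?_, ?_, ?_, ?_, ?_⟩
    · rintro rfl
      rw [D_self] at he; omega
    · rintro rfl
      omega
    · rintro rfl
      rw [D_self] at hf; omega
    · rintro rfl
      omega
    · rintro rfl
      omega
    · exact not_rel_of_D hσ (by omega)
    · exact not_rel_of_D hσ (by omega)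
    · rintro rfl
      omega
    · rintro rfl
      omega
  have e2 : Pr r (fun σ => (D x y σ = 3 ∧ p (D y z σ)) ∧ ¬ r x (el σ x 1)) ≤
      Pr r (fun σ => D x y σ = 2 ∧ p (D y z σ)) := by
    refine Pr_le_of_inj' _ _ (fun σ => σ * Equiv.swap x (el σ x 1))
      (fun τ => τ * Equiv.swap x (el τ x (-1))) ?_ ?_
    · rintro σ hσ ⟨h1, h2⟩
      obtain ⟨e, f, k1, k2, k3, k4, k5, k6, k7, k8, k9, k10, k11, k12, k13⟩ := key σ hσ h1
      obtain ⟨g1, g2, g3, g4, g5⟩ := left_map hr hne hσ k1 k6 (by rwa [el_eq k1] at h2)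
      refine ⟨g1, by have := h1.1; omega, ?_⟩
      rw [el_eq k1, D_swap_none hne.symm k6.symm hzx k12]
      exact h1.2
    · rintro σ hσ ⟨h1, h2⟩
      obtain ⟨e, f, k1, k2, k3, k4, k5, k6, k7, k8, k9, k10, k11, k12, k13⟩ := key σ hσ h1
      exact (left_map hr hne hσ k1 k6 (by rwa [el_eq k1] at h2)).2.2.2.2
  have e3 : Pr r (fun σ => ((D x y σ = 3 ∧ p (D y z σ)) ∧ r x (el σ x 1)) ∧
        ¬ r (el σ y (-1)) y) +
      Pr r (fun σ => ((D x y σ = 3 ∧ p (D y z σ)) ∧ r x (el σ x 1)) ∧ r (el σ y (-1)) y) ≤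
      Pr r (fun σ => D x y σ = 2 ∧ p (D y z σ - 1)) := by
    refine Pr_add_le_of_inj' _ _ _ (fun σ => r x (el σ x 1))
      (fun σ => σ * Equiv.swap (el σ y (-1)) y) (fun τ => τ * Equiv.swap (el τ y 1) y)
      (fun σ => σ * Equiv.swap (el σ x 1) (el σ y (-1)) * Equiv.swap (el σ x 1) y)
      (fun σ => σ * Equiv.swap (el σ y 1) y * Equiv.swap (el σ y 1) (el σ x 1)) ?_ ?_
    · rintro σ hσ ⟨⟨h1, h2⟩, h3⟩
      obtain ⟨e, f, k1, k2, k3, k4, k5, k6, k7, k8, k9, k10, k11, k12, k13⟩ := key σ hσ h1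
      rw [el_eq k4] at h3
      obtain ⟨g1, g2, g3, g4, g5⟩ := right_map hr hne hσ k3 k7 h3
      refine ⟨g1, ⟨by have := h1.1; omega, ?_⟩, ?_, g5⟩
      · rw [el_eq k4, D_swap_right k13 hzy]
        have h12 : D f z σ - 1 = D y z σ := by
          have := D_add f y z σ
          omega
        rw [h12]
        exact h1.2
      · have g6 : D x e (σ * Equiv.swap (el σ y (-1)) y) = 1 := by
          rw [el_eq k4, D_swap_none k7.symm hne k9 k6]
          exact k1
        rw [el_eq g6]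
        rwa [el_eq k1] at h2
    · rintro σ hσ ⟨⟨h1, h2⟩, h3⟩
      obtain ⟨e, f, k1, k2, k3, k4, k5, k6, k7, k8, k9, k10, k11, k12, k13⟩ := key σ hσ h1
      rw [el_eq k4] at h3 ⊢
      rw [el_eq k1] at h2 ⊢
      -- `x e f y` with `x < e`, `f < y`
      have h4 : ¬ r x f := fun hh => h.1 (hr.2.1 _ _ _ hh h3)
      have h5 : ¬ r e y := fun hh => h.1 (hr.2.1 _ _ _ h2 hh)
      have h6 : ¬ r e f := fun hh => h5 (hr.2.1 _ _ _ hh h3)
      have g1 := swap_mem hσ k2 h6
      have g2 : D e y (σ * Equiv.swap e f) = 1 := by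
        rw [D_swap_left k6.symm k8.symm]
        exact k3
      have g3 := swap_mem g1 g2 h5
      have g4 : D x f (σ * Equiv.swap e f) = 1 := by
        rw [D_neg, D_swap_right k5.symm k7.symm, ← D_neg]
        exact k1
      have g5 : D x f (σ * Equiv.swap e f * Equiv.swap e y) = 1 := by
        rw [D_swap_none k5.symm hne k9.symm k8]
        exact g4
      have g6 : D y e (σ * Equiv.swap e f * Equiv.swap e y) = 1 := by
        rw [D_neg, D_swap_both, ← D_neg]
        exact g2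
      have g7 : D x y (σ * Equiv.swap e f * Equiv.swap e y) = 2 := by
        rw [D_neg, D_swap_right k5.symm hne, ← D_neg]
        have g8 : D x e (σ * Equiv.swap e f) = D x f σ := by
          rw [D_neg, D_swap_left k5.symm k7.symm, ← D_neg]
        have g9 := D_add x e f σ
        omega
      have g8 : D y z (σ * Equiv.swap e f * Equiv.swap e y) - 1 = D y z σ := by
        rw [D_swap_right k12 hzy, D_swap_left k12 k13]
        have := D_add f y z σ
        omega
      refine ⟨g3, ⟨g7, ?_⟩, ?_, ?_⟩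
      · rw [g8]
        exact h1.2
      · rw [el_eq g5]
        exact h4
      · rw [el_eq g6, el_eq g5]
        simp [mul_assoc]
  linarith

/-- (E3) -/
theorem F_three_le (hr : IsPoset r) {x y z : Fin n} (h : Inc r x y) (hzx : z ≠ x) (hzy : z ≠ y)
    {l : ℤ} (hl : 1 ≤ l) : F r x y z 3 l ≤ F r x y z 2 l + F r x y z 2 (l + 1) := by
  have h1 := Pr_three_le hr h hzx hzy (fun k => k = l) (fun k hk => by omega)
  unfold F
  have e : (fun σ => D x y σ = 2 ∧ D y z σ - 1 = l) =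
      (fun σ : Equiv.Perm (Fin n) => D x y σ = 2 ∧ D y z σ = l + 1) := by
    funext σ
    rw [sub_eq_iff_eq_add]
  rw [e] at h1
  exact h1

/-- (E3), dual form -/
theorem F_le_three (hr : IsPoset r) {x y z : Fin n} (h : Inc r y z) (hxy : x ≠ y) (hxz : x ≠ z)
    {k : ℤ} (hk : 1 ≤ k) : F r x y z k 3 ≤ F r x y z k 2 + F r x y z (k + 1) 2 := by
  have := F_three_le (r := op r) (op_isPoset hr) (x := z) (y := y) (z := x) (op_inc.2 h.symm)
    hxz hxy hk
  rw [F_op, F_op, F_op] at this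
  exact this

end Pool.Agent.BFT2
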