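import Mathlib
import Pool.Agent.BFT.TripleOne
import Pool.Agent.BFT.Swap
import Pool.Agent.BFT2.Dual
import Pool.Agent.BFT2.Exch

/-! # Three pairwise incomparable elements: the truncated joint law (owner: helper18) -/

set_option autoImplicit false

namespace Pool.Agent.BFT2

open Finset Pool.Agent.Helper1.Balance Pool.Agent.Helper8.KS Pool.Agent.Helper18.KSC Pool.Agent.BFT
open Pool.Agent.BFT.One

variable {n : ℕ} {r : Fin n → Fin n → Prop}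

/-- class `k` of a positive distance: equal to `k` for `k = 1, 2, 3`, at least `4` for `k = 4` -/
def tl (k : ℕ) (t : ℤ) : Prop := if k < 4 then t = (k : ℤ) else 4 ≤ t

/-- truncated joint law of the two distances -/
noncomputable def ff (r : Fin n → Fin n → Prop) (x y z : Fin n) (k l : ℕ) : ℝ :=
  Pr r (fun σ => tl k (D x y σ) ∧ tl l (D y z σ))

/-- probability of the order `x, y, z` -/
noncomputable def ord (r : Fin n → Fin n → Prop) (x y z : Fin n) : ℝ :=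
  Pr r (fun σ => 1 ≤ D x y σ ∧ 1 ≤ D y z σ)

theorem ff_nonneg (x y z : Fin n) (k l : ℕ) : 0 ≤ ff r x y z k l := Pr_nonneg _

theorem tl_one (t : ℤ) : tl 1 t ↔ t = 1 := by simp [tl]
theorem tl_two (t : ℤ) : tl 2 t ↔ t = 2 := by simp [tl]
theorem tl_three (t : ℤ) : tl 3 t ↔ t = 3 := by simp [tl]
theorem tl_four (t : ℤ) : tl 4 t ↔ 4 ≤ t := by simp [tl]

theorem ff_row (x y z : Fin n) (k : ℕ) :
    ff r x y z k 1 + ff r x y z k 2 + ff r x y z k 3 + ff r x y z k 4 =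
      Pr r (fun σ => tl k (D x y σ) ∧ 1 ≤ D y z σ) := by
  unfold ff
  rw [← Ex_ii, ← Ex_ii (fun σ => tl k (D x y σ) ∧ tl 2 (D y z σ)),
    ← Ex_ii (fun σ => tl k (D x y σ) ∧ tl 3 (D y z σ)),
    ← Ex_ii (fun σ => tl k (D x y σ) ∧ tl 4 (D y z σ)),
    ← Ex_ii (fun σ => tl k (D x y σ) ∧ 1 ≤ D y z σ), ← Ex_add, ← Ex_add, ← Ex_add]
  refine Ex_congr_on (fun σ _ => ?_)
  have : ii (tl k (D x y σ) ∧ tl 1 (D y z σ)) + ii (tl k (D x y σ) ∧ tl 2 (D y z σ)) +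
      ii (tl k (D x y σ) ∧ tl 3 (D y z σ)) + ii (tl k (D x y σ) ∧ tl 4 (D y z σ)) =
      ii (tl k (D x y σ) ∧ 1 ≤ D y z σ) := by
    rw [tl_one, tl_two, tl_three, tl_four]
    by_cases h : tl k (D x y σ)
    · simp only [h, true_and]
      unfold ii
      split_ifs <;> omega
    · simp only [h, false_and]
      unfold ii
      simp
  exact_mod_cast this

theorem ff_col (x y z : Fin n) (l : ℕ) :
    ff r x y z 1 l + ff r x y z 2 l + ff r x y z 3 l + ff r x y z 4 l =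
      Pr r (fun σ => 1 ≤ D x y σ ∧ tl l (D y z σ)) := by
  unfold ff
  rw [← Ex_ii, ← Ex_ii (fun σ => tl 2 (D x y σ) ∧ tl l (D y z σ)),
    ← Ex_ii (fun σ => tl 3 (D x y σ) ∧ tl l (D y z σ)),
    ← Ex_ii (fun σ => tl 4 (D x y σ) ∧ tl l (D y z σ)),
    ← Ex_ii (fun σ => 1 ≤ D x y σ ∧ tl l (D y z σ)), ← Ex_add, ← Ex_add, ← Ex_add]
  refine Ex_congr_on (fun σ _ => ?_)
  have : ii (tl 1 (D x y σ) ∧ tl l (D y z σ)) + ii (tl 2 (D x y σ) ∧ tl l (D y z σ)) +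
      ii (tl 3 (D x y σ) ∧ tl l (D y z σ)) + ii (tl 4 (D x y σ) ∧ tl l (D y z σ)) =
      ii (1 ≤ D x y σ ∧ tl l (D y z σ)) := by
    rw [tl_one, tl_two, tl_three, tl_four]
    by_cases h : tl l (D y z σ)
    · simp only [h, and_true]
      unfold ii
      split_ifs <;> omega
    · simp only [h, and_false]
      unfold ii
      simp
  exact_mod_cast this

theorem ord_eq (x y z : Fin n) :
    ord r x y z = (ff r x y z 1 1 + ff r x y z 1 2 + ff r x y z 1 3 + ff r x y z 1 4) +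
      (ff r x y z 2 1 + ff r x y z 2 2 + ff r x y z 2 3 + ff r x y z 2 4) +
      (ff r x y z 3 1 + ff r x y z 3 2 + ff r x y z 3 3 + ff r x y z 3 4) +
      (ff r x y z 4 1 + ff r x y z 4 2 + ff r x y z 4 3 + ff r x y z 4 4) := by
  rw [ff_row, ff_row, ff_row, ff_row]
  unfold ord
  rw [← Ex_ii, ← Ex_ii (fun σ => tl 1 (D x y σ) ∧ 1 ≤ D y z σ),
    ← Ex_ii (fun σ => tl 2 (D x y σ) ∧ 1 ≤ D y z σ),
    ← Ex_ii (fun σ => tl 3 (D x y σ) ∧ 1 ≤ D y z σ),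
    ← Ex_ii (fun σ => tl 4 (D x y σ) ∧ 1 ≤ D y z σ), ← Ex_add, ← Ex_add, ← Ex_add]
  refine Ex_congr_on (fun σ _ => ?_)
  have : ii (1 ≤ D x y σ ∧ 1 ≤ D y z σ) =
      ii (tl 1 (D x y σ) ∧ 1 ≤ D y z σ) + ii (tl 2 (D x y σ) ∧ 1 ≤ D y z σ) +
      ii (tl 3 (D x y σ) ∧ 1 ≤ D y z σ) + ii (tl 4 (D x y σ) ∧ 1 ≤ D y z σ) := by
    rw [tl_one, tl_two, tl_three, tl_four]
    unfold ii
    split_ifs <;> omega
  exact_mod_cast this

/-- the six orders -/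
theorem ord_total (hr : IsPoset r) {x y z : Fin n} (hxy : x ≠ y) (hyz : y ≠ z) (hxz : x ≠ z) :
    ord r x y z + ord r y x z + ord r x z y + ord r y z x + ord r z x y + ord r z y x = 1 := by
  unfold ord
  rw [← Ex_ii, ← Ex_ii (fun σ => 1 ≤ D y x σ ∧ 1 ≤ D x z σ),
    ← Ex_ii (fun σ => 1 ≤ D x z σ ∧ 1 ≤ D z y σ), ← Ex_ii (fun σ => 1 ≤ D y z σ ∧ 1 ≤ D z x σ),
    ← Ex_ii (fun σ => 1 ≤ D z x σ ∧ 1 ≤ D x y σ), ← Ex_ii (fun σ => 1 ≤ D z y σ ∧ 1 ≤ D y x σ),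
    ← Ex_add, ← Ex_add, ← Ex_add, ← Ex_add, ← Ex_add, ← Ex_const hr 1]
  refine Ex_congr_on (fun σ _ => ?_)
  have e1 := BFT.One.D_ne hxy σ
  have e2 := BFT.One.D_ne hyz σ
  have e3 := BFT.One.D_ne hxz σ
  have e4 := BFT.One.D_add x y z σ
  have e5 : D y x σ = - D x y σ := by unfold D; ring
  have e6 : D z y σ = - D y z σ := by unfold D; ring
  have e7 : D z x σ = - D x z σ := by unfold D; ring
  have : ii (1 ≤ D x y σ ∧ 1 ≤ D y z σ) + ii (1 ≤ D y x σ ∧ 1 ≤ D x z σ) +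
      ii (1 ≤ D x z σ ∧ 1 ≤ D z y σ) + ii (1 ≤ D y z σ ∧ 1 ≤ D z x σ) +
      ii (1 ≤ D z x σ ∧ 1 ≤ D x y σ) + ii (1 ≤ D z y σ ∧ 1 ≤ D y x σ) = 1 := by
    rw [e5, e6, e7]
    unfold ii
    split_ifs <;> omega
  exact_mod_cast this

/-- `z` is placed in one of the three places with respect to `y < x` -/
theorem prob_ord {x y z : Fin n} (hxy : x ≠ y) (hyz : y ≠ z) (hxz : x ≠ z) :
    prob r y x = ord r y x z + ord r y z x + ord r z y x := by
  unfold ord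
  rw [prob_D, ← Ex_ii, ← Ex_ii (fun σ => 1 ≤ D y x σ ∧ 1 ≤ D x z σ),
    ← Ex_ii (fun σ => 1 ≤ D y z σ ∧ 1 ≤ D z x σ),
    ← Ex_ii (fun σ => 1 ≤ D z y σ ∧ 1 ≤ D y x σ), ← Ex_add, ← Ex_add]
  refine Ex_congr_on (fun σ _ => ?_)
  have e1 := BFT.One.D_ne hxy σ
  have e2 := BFT.One.D_ne hyz σ
  have e3 := BFT.One.D_ne hxz σ
  have e4 := BFT.One.D_add x y z σ
  have e5 : D y x σ = - D x y σ := by unfold D; ring
  have e6 : D z y σ = - D y z σ := by unfold D; ring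
  have e7 : D z x σ = - D x z σ := by unfold D; ring
  have : ii (D x y σ < 0) = ii (1 ≤ D y x σ ∧ 1 ≤ D x z σ) +
      ii (1 ≤ D y z σ ∧ 1 ≤ D z x σ) + ii (1 ≤ D z y σ ∧ 1 ≤ D y x σ) := by
    rw [e5, e6, e7]
    unfold ii
    split_ifs <;> omega
  exact_mod_cast this

/-- adjacency of `x, y` (in this order): `z` after both or before both -/
theorem gp_one_eq {x y z : Fin n} (hyz : y ≠ z) (hxz : x ≠ z) :
    gp r x y 1 = (ff r x y z 1 1 + ff r x y z 1 2 + ff r x y z 1 3 + ff r x y z 1 4) +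
      (ff r z x y 1 1 + ff r z x y 2 1 + ff r z x y 3 1 + ff r z x y 4 1) := by
  rw [ff_row, ff_col]
  unfold gp
  rw [← Ex_ii, ← Ex_ii (fun σ => tl 1 (D x y σ) ∧ 1 ≤ D y z σ),
    ← Ex_ii (fun σ => 1 ≤ D z x σ ∧ tl 1 (D x y σ)), ← Ex_add]
  refine Ex_congr_on (fun σ _ => ?_)
  have e2 := BFT.One.D_ne hyz σ
  have e3 := BFT.One.D_ne hxz σ
  have e4 := BFT.One.D_add x y z σ
  have e7 : D z x σ = - D x z σ := by unfold D; ring
  have : ii (D x y σ = 1) = ii (tl 1 (D x y σ) ∧ 1 ≤ D y z σ) +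
      ii (1 ≤ D z x σ ∧ tl 1 (D x y σ)) := by
    rw [e7, tl_one]
    unfold ii
    split_ifs <;> omega
  exact_mod_cast this

/-- exchange of the first two when adjacent -/
theorem ff_swap_left {x y z : Fin n} (h : Inc r x y) (hzx : z ≠ x) (hzy : z ≠ y) (l : ℕ) :
    ff r x y z 1 l = ff r y x z 1 l := by
  unfold ff
  simp only [tl_one]
  exact le_antisymm (Pr_swap_left h.1 hzx hzy (fun t => tl l t))
    (Pr_swap_left h.2 hzy hzx (fun t => tl l t))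

theorem ff_op (x y z : Fin n) (k l : ℕ) : ff (op r) x y z k l = ff r z y x l k := by
  unfold ff
  rw [Pr_op]
  simp only [D_rv]
  congr 1
  funext σ
  exact propext and_comm

/-- exchange of the last two when adjacent -/
theorem ff_swap_right {x y z : Fin n} (h : Inc r y z) (hxy : x ≠ y) (hxz : x ≠ z) (k : ℕ) :
    ff r x y z k 1 = ff r x z y k 1 := by
  have := ff_swap_left (r := op r) (op_inc.2 h.symm) hxz hxy k
  rw [ff_op, ff_op] at this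
  exact this

/-! ### truncated means -/

/-- mean of the positive part of the distance from `x` to `y` -/
noncomputable def epos (r : Fin n → Fin n → Prop) (x y : Fin n) : ℝ :=
  Ex r (fun σ => max ((D x y σ : ℤ) : ℝ) 0)

theorem mneg_eq_epos (x y : Fin n) : mneg r x y = epos r y x := by
  unfold mneg epos
  congr 1
  funext σ
  have : D y x σ = - D x y σ := by unfold D; ring
  rw [this]
  push_cast
  rfl

theorem mn_add_mneg (x y : Fin n) : mn r x y + mneg r x y = epos r x y := by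
  unfold mn mneg epos
  rw [← Ex_add]
  congr 1
  funext σ
  rcases le_total 0 ((D x y σ : ℤ) : ℝ) with h | h
  · rw [max_eq_right (by linarith), max_eq_left h]
    ring
  · rw [max_eq_left (by linarith), max_eq_right h]
    ring

/-- truncated mean of the first distance on the order `x, y, z` -/
noncomputable def w1 (r : Fin n → Fin n → Prop) (x y z : Fin n) : ℝ :=
  1 * (ff r x y z 1 1 + ff r x y z 1 2 + ff r x y z 1 3 + ff r x y z 1 4) +
    2 * (ff r x y z 2 1 + ff r x y z 2 2 + ff r x y z 2 3 + ff r x y z 2 4) +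
    3 * (ff r x y z 3 1 + ff r x y z 3 2 + ff r x y z 3 3 + ff r x y z 3 4) +
    4 * (ff r x y z 4 1 + ff r x y z 4 2 + ff r x y z 4 3 + ff r x y z 4 4)

/-- truncated mean of the second distance on the order `x, y, z` -/
noncomputable def w2 (r : Fin n → Fin n → Prop) (x y z : Fin n) : ℝ :=
  1 * (ff r x y z 1 1 + ff r x y z 2 1 + ff r x y z 3 1 + ff r x y z 4 1) +
    2 * (ff r x y z 1 2 + ff r x y z 2 2 + ff r x y z 3 2 + ff r x y z 4 2) +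
    3 * (ff r x y z 1 3 + ff r x y z 2 3 + ff r x y z 3 3 + ff r x y z 4 3) +
    4 * (ff r x y z 1 4 + ff r x y z 2 4 + ff r x y z 3 4 + ff r x y z 4 4)

theorem w1_eq (x y z : Fin n) : w1 r x y z =
    Ex r (fun σ => ((ii (1 ≤ D x y σ ∧ 1 ≤ D y z σ) * min (D x y σ) 4 : ℤ) : ℝ)) := by
  unfold w1
  rw [ff_row, ff_row, ff_row, ff_row, ← Ex_ii, ← Ex_ii (fun σ => tl 2 (D x y σ) ∧ 1 ≤ D y z σ),
    ← Ex_ii (fun σ => tl 3 (D x y σ) ∧ 1 ≤ D y z σ),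
    ← Ex_ii (fun σ => tl 4 (D x y σ) ∧ 1 ≤ D y z σ), ← Ex_mul_left, ← Ex_mul_left,
    ← Ex_mul_left, ← Ex_mul_left, ← Ex_add, ← Ex_add, ← Ex_add]
  refine Ex_congr_on (fun σ _ => ?_)
  have : 1 * ii (tl 1 (D x y σ) ∧ 1 ≤ D y z σ) + 2 * ii (tl 2 (D x y σ) ∧ 1 ≤ D y z σ) +
      3 * ii (tl 3 (D x y σ) ∧ 1 ≤ D y z σ) + 4 * ii (tl 4 (D x y σ) ∧ 1 ≤ D y z σ) =
      ii (1 ≤ D x y σ ∧ 1 ≤ D y z σ) * min (D x y σ) 4 := by
    rw [tl_one, tl_two, tl_three, tl_four]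
    unfold ii
    split_ifs <;> omega
  exact_mod_cast this

theorem w2_eq (x y z : Fin n) : w2 r x y z =
    Ex r (fun σ => ((ii (1 ≤ D x y σ ∧ 1 ≤ D y z σ) * min (D y z σ) 4 : ℤ) : ℝ)) := by
  unfold w2
  rw [ff_col, ff_col, ff_col, ff_col, ← Ex_ii, ← Ex_ii (fun σ => 1 ≤ D x y σ ∧ tl 2 (D y z σ)),
    ← Ex_ii (fun σ => 1 ≤ D x y σ ∧ tl 3 (D y z σ)),
    ← Ex_ii (fun σ => 1 ≤ D x y σ ∧ tl 4 (D y z σ)), ← Ex_mul_left, ← Ex_mul_left,
    ← Ex_mul_left, ← Ex_mul_left, ← Ex_add, ← Ex_add, ← Ex_add]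
  refine Ex_congr_on (fun σ _ => ?_)
  have : 1 * ii (1 ≤ D x y σ ∧ tl 1 (D y z σ)) + 2 * ii (1 ≤ D x y σ ∧ tl 2 (D y z σ)) +
      3 * ii (1 ≤ D x y σ ∧ tl 3 (D y z σ)) + 4 * ii (1 ≤ D x y σ ∧ tl 4 (D y z σ)) =
      ii (1 ≤ D x y σ ∧ 1 ≤ D y z σ) * min (D y z σ) 4 := by
    rw [tl_one, tl_two, tl_three, tl_four]
    unfold ii
    split_ifs <;> omega
  exact_mod_cast this

/-- truncated mean of the positive part -/
theorem epos_ge {x y z : Fin n} (hxy : x ≠ y) (hyz : y ≠ z) (hxz : x ≠ z) :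
    w1 r x y z + (w1 r x z y + w2 r x z y) + w2 r z x y ≤ epos r x y := by
  rw [w1_eq, w1_eq, w2_eq, w2_eq, ← Ex_add, ← Ex_add, ← Ex_add]
  unfold epos
  refine Ex_mono_on (fun σ _ => ?_)
  have e1 := BFT.One.D_ne hxy σ
  have e2 := BFT.One.D_ne hyz σ
  have e3 := BFT.One.D_ne hxz σ
  have e4 := BFT.One.D_add x y z σ
  have e6 : D z y σ = - D y z σ := by unfold D; ring
  have e7 : D z x σ = - D x z σ := by unfold D; ring
  have : ii (1 ≤ D x y σ ∧ 1 ≤ D y z σ) * min (D x y σ) 4 +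
      (ii (1 ≤ D x z σ ∧ 1 ≤ D z y σ) * min (D x z σ) 4 +
        ii (1 ≤ D x z σ ∧ 1 ≤ D z y σ) * min (D z y σ) 4) +
      ii (1 ≤ D z x σ ∧ 1 ≤ D x y σ) * min (D x y σ) 4 ≤ max (D x y σ) 0 := by
    rw [e6, e7]
    unfold ii
    split_ifs <;> omega
  exact_mod_cast this

end Pool.Agent.BFT2
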