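import Mathlib
import Pool.Agent.BFT2.FourSum
import Pool.Agent.BFT2.Exch

/-! # Exchange inequalities for the truncated joint law (helper67) -/

set_option autoImplicit false

namespace Pool.Agent.BFT2

open Finset Pool.Agent.Helper1.Balance Pool.Agent.Helper8.KS Pool.Agent.Helper18.KSC Pool.Agent.BFT

variable {n : ℕ} {r : Fin n → Fin n → Prop} {a b c : Fin n}

theorem tl_pos67 {l : ℕ} (h1 : 1 ≤ l) {t : ℤ} (h : tl l t) : 1 ≤ t := by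
  unfold tl at h
  split_ifs at h <;> omega

/-- (E2) with a shift bound -/
theorem ff_two_gen (hr : IsPoset r) (h : Inc r a b) (hca : c ≠ a) (hcb : c ≠ b) {l : ℕ}
    (h1 : 1 ≤ l) {m : ℕ} (hm : ∀ t : ℤ, tl l (t - 1) → tl m t) :
    ff r a b c 2 l + ff r b a c 2 l ≤ ff r a b c 1 l + ff r a b c 1 m := by
  have h2 := Pr_two_le hr h hca hcb (tl l) (fun t ht => tl_pos67 h1 ht)
  have h3 : Pr r (fun σ => D a b σ = 1 ∧ tl l (D b c σ - 1)) ≤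
      Pr r (fun σ => D a b σ = 1 ∧ tl m (D b c σ)) := Pr_mono fun σ hσ => ⟨hσ.1, hm _ hσ.2⟩
  unfold ff
  simp only [tl_one, tl_two]
  linarith

theorem ff_three_gen (hr : IsPoset r) (h : Inc r a b) (hca : c ≠ a) (hcb : c ≠ b) {l : ℕ}
    (h1 : 1 ≤ l) {m : ℕ} (hm : ∀ t : ℤ, tl l (t - 1) → tl m t) :
    ff r a b c 3 l ≤ ff r a b c 2 l + ff r a b c 2 m := by
  have h2 := Pr_three_le hr h hca hcb (tl l) (fun t ht => tl_pos67 h1 ht)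
  have h3 : Pr r (fun σ => D a b σ = 2 ∧ tl l (D b c σ - 1)) ≤
      Pr r (fun σ => D a b σ = 2 ∧ tl m (D b c σ)) := Pr_mono fun σ hσ => ⟨hσ.1, hm _ hσ.2⟩
  unfold ff
  simp only [tl_two, tl_three]
  linarith

theorem tl67_1 (t : ℤ) (h : tl 1 (t - 1)) : tl 2 t := by
  rw [tl_one] at h
  rw [tl_two]
  omega

theorem tl67_2 (t : ℤ) (h : tl 2 (t - 1)) : tl 3 t := by
  rw [tl_two] at h
  rw [tl_three]
  omega

theorem tl67_3 (t : ℤ) (h : tl 3 (t - 1)) : tl 4 t := by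
  rw [tl_three] at h
  rw [tl_four]
  omega

theorem tl67_4 (t : ℤ) (h : tl 4 (t - 1)) : tl 4 t := by
  rw [tl_four] at h ⊢
  omega

theorem tail_split67 (a b c : Fin n) (k : ℤ) :
    Pr r (fun σ => D a b σ = k ∧ 3 ≤ D b c σ) =
      Pr r (fun σ => D a b σ = k ∧ D b c σ = 3) + Pr r (fun σ => D a b σ = k ∧ 4 ≤ D b c σ) := by
  rw [BFT.Pr_split r (fun σ => D a b σ = k ∧ 3 ≤ D b c σ) (fun σ => D b c σ = 3)]
  congr 1
  · congr 1
    funext σ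
    apply propext
    constructor
    · rintro ⟨⟨h1, h2⟩, h3⟩
      exact ⟨h1, h3⟩
    · rintro ⟨h1, h3⟩
      exact ⟨⟨h1, by omega⟩, h3⟩
  · congr 1
    funext σ
    apply propext
    constructor
    · rintro ⟨⟨h1, h2⟩, h3⟩
      exact ⟨h1, by omega⟩
    · rintro ⟨h1, h3⟩
      exact ⟨⟨h1, by omega⟩, by omega⟩

/-- all the inequalities of the first gap, for one pair of orders -/
structure XA (g g' : ℕ → ℕ → ℝ) : Prop where
  x1 : g 1 1 = g' 1 1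
  x2 : g 1 2 = g' 1 2
  x3 : g 1 3 = g' 1 3
  x4 : g 1 4 = g' 1 4
  e1 : g 2 1 + g' 2 1 ≤ g 1 1 + g 1 2
  e2 : g 2 2 + g' 2 2 ≤ g 1 2 + g 1 3
  e3 : g 2 3 + g' 2 3 ≤ g 1 3 + g 1 4
  e4 : g 2 4 + g' 2 4 ≤ 2 * g 1 4
  e5 : g 2 3 + g 2 4 + g' 2 3 + g' 2 4 ≤ g 1 3 + 2 * g 1 4
  t1 : g 3 1 ≤ g 2 1 + g 2 2
  t2 : g 3 2 ≤ g 2 2 + g 2 3
  t3 : g 3 3 ≤ g 2 3 + g 2 4
  t4 : g 3 4 ≤ 2 * g 2 4
  s1 : g' 3 1 ≤ g' 2 1 + g' 2 2
  s2 : g' 3 2 ≤ g' 2 2 + g' 2 3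
  s3 : g' 3 3 ≤ g' 2 3 + g' 2 4
  s4 : g' 3 4 ≤ 2 * g' 2 4

/-- all the inequalities of the second gap, for one pair of orders -/
structure XB (g g' : ℕ → ℕ → ℝ) : Prop where
  x1 : g 1 1 = g' 1 1
  x2 : g 2 1 = g' 2 1
  x3 : g 3 1 = g' 3 1
  x4 : g 4 1 = g' 4 1
  e1 : g 1 2 + g' 1 2 ≤ g 1 1 + g 2 1
  e2 : g 2 2 + g' 2 2 ≤ g 2 1 + g 3 1
  e3 : g 3 2 + g' 3 2 ≤ g 3 1 + g 4 1
  e4 : g 4 2 + g' 4 2 ≤ 2 * g 4 1
  e5 : g 3 2 + g 4 2 + g' 3 2 + g' 4 2 ≤ g 3 1 + 2 * g 4 1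
  t1 : g 1 3 ≤ g 1 2 + g 2 2
  t2 : g 2 3 ≤ g 2 2 + g 3 2
  t3 : g 3 3 ≤ g 3 2 + g 4 2
  t4 : g 4 3 ≤ 2 * g 4 2
  s1 : g' 1 3 ≤ g' 1 2 + g' 2 2
  s2 : g' 2 3 ≤ g' 2 2 + g' 3 2
  s3 : g' 3 3 ≤ g' 3 2 + g' 4 2
  s4 : g' 4 3 ≤ 2 * g' 4 2

theorem ff_XA (hr : IsPoset r) (h : Inc r a b) (hca : c ≠ a) (hcb : c ≠ b) :
    XA (ff r a b c) (ff r b a c) where
  x1 := ff_swap_left h hca hcb 1
  x2 := ff_swap_left h hca hcb 2
  x3 := ff_swap_left h hca hcb 3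
  x4 := ff_swap_left h hca hcb 4
  e1 := ff_two_gen hr h hca hcb (by norm_num) tl67_1
  e2 := ff_two_gen hr h hca hcb (by norm_num) tl67_2
  e3 := ff_two_gen hr h hca hcb (by norm_num) tl67_3
  e4 := by
    have := ff_two_gen hr h hca hcb (l := 4) (by norm_num) tl67_4
    linarith
  e5 := by
    have h2 := Pr_two_le hr h hca hcb (fun t => 3 ≤ t) (fun t ht => by omega)
    have h3 : Pr r (fun σ => D a b σ = 1 ∧ 3 ≤ D b c σ - 1) =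
        Pr r (fun σ => D a b σ = 1 ∧ 4 ≤ D b c σ) := by
      congr 1
      funext σ
      apply propext
      constructor
      · rintro ⟨h4, h5⟩
        exact ⟨h4, by omega⟩
      · rintro ⟨h4, h5⟩
        exact ⟨h4, by omega⟩
    rw [h3] at h2
    rw [tail_split67, tail_split67, tail_split67] at h2
    unfold ff
    simp only [tl_one, tl_two, tl_three, tl_four]
    linarith
  t1 := ff_three_gen hr h hca hcb (by norm_num) tl67_1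
  t2 := ff_three_gen hr h hca hcb (by norm_num) tl67_2
  t3 := ff_three_gen hr h hca hcb (by norm_num) tl67_3
  t4 := by
    have := ff_three_gen hr h hca hcb (l := 4) (by norm_num) tl67_4
    linarith
  s1 := ff_three_gen hr h.symm hcb hca (by norm_num) tl67_1
  s2 := ff_three_gen hr h.symm hcb hca (by norm_num) tl67_2
  s3 := ff_three_gen hr h.symm hcb hca (by norm_num) tl67_3
  s4 := by
    have := ff_three_gen hr h.symm hcb hca (l := 4) (by norm_num) tl67_4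
    linarith

theorem ff_XB (hr : IsPoset r) (h : Inc r b c) (hab : a ≠ b) (hac : a ≠ c) :
    XB (ff r a b c) (ff r a c b) := by
  have h' := ff_XA (r := op r) (op_isPoset hr) (a := c) (b := b) (c := a) (op_inc.2 h.symm) hac hab
  obtain ⟨x1, x2, x3, x4, e1, e2, e3, e4, e5, t1, t2, t3, t4, s1, s2, s3, s4⟩ := h'
  simp only [ff_op] at x1 x2 x3 x4 e1 e2 e3 e4 e5 t1 t2 t3 t4 s1 s2 s3 s4
  exact ⟨x1, x2, x3, x4, e1, e2, e3, e4, e5, t1, t2, t3, t4, s1, s2, s3, s4⟩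

end Pool.Agent.BFT2
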