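import Mathlib
import Pool.Agent.BFT2.Base
import Pool.Agent.BFT2.FourNum
import Pool.Agent.BFT2.FourX
import Pool.Agent.BFT.Tail
import Pool.Agent.BFT.Moments
import Pool.Agent.BFT.CP

/-! # Three pairwise incomparable elements: (R4) at 2/7 (owner: helper67) -/

set_option autoImplicit false
set_option maxHeartbeats 4000000
set_option maxRecDepth 100000

namespace Pool.Agent.BFT2

open Finset Pool.Agent.Helper1.Balance Pool.Agent.Helper8.KS Pool.Agent.Helper18.KSC Pool.Agent.BFT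

variable {n : ℕ} {r : Fin n → Fin n → Prop} {x y z : Fin n}

theorem log_num67 : (12527 / 10000 : ℝ) ≤ Real.log (7 / 2) := by
  rw [Real.le_log_iff_exp_le (by norm_num)]
  have h1 := Real.exp_one_lt_d9
  have h2 := Real.exp_bound' (x := 2527 / 10000) (by norm_num) (by norm_num) (n := 6) (by norm_num)
  have h3 : Real.exp (2527 / 10000) ≤ 12876 / 10000 := by
    refine h2.trans ?_
    simp only [Finset.sum_range_succ, Finset.sum_range_zero, Nat.factorial]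
    norm_num
  have h4 : (12527 / 10000 : ℝ) = 1 + 2527 / 10000 := by norm_num
  rw [h4, Real.exp_add]
  have h5 := Real.exp_pos 1
  have h6 := Real.exp_pos (2527 / 10000)
  nlinarith

/-- (T2) at 2/7 -/
theorem T2_27 (hr : IsPoset r) (h : Inc r x y) (hq : prob r y x ≤ 2 / 7) :
    2527 / 10000 * mneg r x y ≤ 2 / 7 * mn r x y := by
  have h1 := tail_two hr h
  have h0 := prob_pos hr h
  have hm : 0 ≤ mneg r x y := by
    unfold mneg
    exact Ex_nonneg fun _ => le_max_right _ _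
  have h2 : Real.log (7 / 2) ≤ Real.log (1 / prob r y x) := by
    refine Real.log_le_log (by norm_num) ?_
    rw [le_div_iff₀ h0]
    linarith
  have h3 := log_num67
  have h4 : mneg r x y * (2527 / 10000) ≤ mneg r x y * (Real.log (1 / prob r y x) - 1) :=
    mul_le_mul_of_nonneg_left (by linarith) hm
  have h5 : 0 ≤ prob r y x * mn r x y := by
    have : 0 ≤ mneg r x y * (2527 / 10000) := mul_nonneg hm (by norm_num)
    linarith
  have h6 : 0 ≤ mn r x y := by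
    by_contra hc
    push Not at hc
    have := mul_neg_of_pos_of_neg h0 hc
    linarith
  have h7 : prob r y x * mn r x y ≤ 2 / 7 * mn r x y := mul_le_mul_of_nonneg_right hq h6
  linarith

theorem ord_xyz67 (hr : IsPoset r) (hxy : x ≠ y) (hyz : y ≠ z) (hxz : x ≠ z) :
    ord r z y x ≤ prob r z y * prob r y x := by
  refine le_trans (le_of_eq ?_) (xyz hr hxy hyz hxz)
  unfold ord
  congr 1
  funext σ
  apply propext
  unfold D
  rw [Fin.lt_def, Fin.lt_def]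
  omega

/-- the table of the six truncated laws -/
noncomputable def tbl (r : Fin n → Fin n → Prop) (x y z : Fin n) : ℕ → ℕ → ℕ → ℝ
  | 0 => ff r x y z
  | 1 => ff r y x z
  | 2 => ff r x z y
  | 3 => ff r y z x
  | 4 => ff r z x y
  | _ => ff r z y x

theorem tbl0 (k l : ℕ) : tbl r x y z 0 k l = ff r x y z k l := rfl
theorem tbl1 (k l : ℕ) : tbl r x y z 1 k l = ff r y x z k l := rfl
theorem tbl2 (k l : ℕ) : tbl r x y z 2 k l = ff r x z y k l := rfl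
theorem tbl3 (k l : ℕ) : tbl r x y z 3 k l = ff r y z x k l := rfl
theorem tbl4 (k l : ℕ) : tbl r x y z 4 k l = ff r z x y k l := rfl
theorem tbl5 (k l : ℕ) : tbl r x y z 5 k l = ff r z y x k l := rfl

theorem win (hr : IsPoset r) (ixy : Inc r x y) (iyz : Inc r y z) (ixz : Inc r x z)
    (q1 : prob r y x ≤ 2 / 7) (q2 : prob r z y ≤ 2 / 7) (q3 : prob r z x ≤ 2 / 7) :
    FourNum.Fx (tbl r x y z) (prob r y x) (prob r z y) (prob r z x) (gp r x y 1) (gp r y z 1)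
      (mneg r x y) (mneg r y z) (mn r x y) (mn r y z) := by
  have hxy := ixy.ne hr
  have hyz := iyz.ne hr
  have hxz := ixz.ne hr
  have A0 := ff_XA hr ixy hxz.symm hyz.symm
  have A2 := ff_XA hr ixz hxy.symm hyz
  have A3 := ff_XA hr iyz hxy hxz
  have B0 := ff_XB hr iyz hxy hxz
  have B1 := ff_XB hr ixz hxy.symm hyz
  have B4 := ff_XB hr ixy hxz.symm hyz.symm
  have H_sum : _ := ord_total hr hxy hyz hxz
  have H_hq_1 := prob_ord (r := r) hxy hyz hxz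
  have H_hq_2 := prob_ord (r := r) hyz hxz.symm hxy.symm
  have H_hq_3 := prob_ord (r := r) hxz hyz.symm hxy
  have H_hb_1 := gp_one_eq (r := r) hyz hxz
  have H_hb_2 := gp_one_eq (r := r) hxz.symm hxy.symm
  have H_mt_1 := epos_ge (r := r) hxy.symm hxz hyz
  have H_mt_2 := epos_ge (r := r) hyz.symm hxy.symm hxz.symm
  have H_et_1 := epos_ge (r := r) hxy hyz hxz
  have H_et_2 := epos_ge (r := r) hyz hxz.symm hxy.symm
  rw [← mneg_eq_epos] at H_mt_1 H_mt_2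
  rw [← mn_add_mneg] at H_et_1 H_et_2
  have H_R := ord_xyz67 hr hxy hyz hxz
  have p1 := prob_nonneg r y x
  have p2 := prob_nonneg r z y
  have H_R_1 : ord r z y x ≤ 2 / 7 * prob r y x :=
    H_R.trans (mul_le_mul_of_nonneg_right q2 p1)
  have H_R_2 : ord r z y x ≤ 2 / 7 * prob r z y := by
    rw [mul_comm] at H_R
    exact H_R.trans (mul_le_mul_of_nonneg_right q1 p2)
  have H_T2_1 := T2_27 hr ixy q1
  have H_T2_2 := T2_27 hr iyz q2
  have H_qd_1 := q1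
  have H_qd_2 := q2
  have H_qd_3 := q3
  unfold w1 w2 at H_mt_1 H_mt_2 H_et_1 H_et_2
  simp only [ord_eq] at H_sum H_hq_1 H_hq_2 H_hq_3 H_R_1 H_R_2
  exact {
    sum := by
      simp only [tbl0, tbl1, tbl2, tbl3, tbl4, tbl5]
      linarith only [H_sum]
    xa_0_1 := A0.x1
    E2a_0_1 := A0.e1
    xa_0_2 := A0.x2
    E2a_0_2 := A0.e2
    xa_0_3 := A0.x3
    E2a_0_3 := A0.e3
    xa_0_4 := A0.x4
    E2a_0_4 := A0.e4
    E2a_0_5 := A0.e5
    xb_0_1 := B0.x1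
    E2b_0_1 := B0.e1
    xb_0_2 := B0.x2
    E2b_0_2 := B0.e2
    xb_0_3 := B0.x3
    E2b_0_3 := B0.e3
    xb_0_4 := B0.x4
    E2b_0_4 := B0.e4
    E2b_0_5 := B0.e5
    E3a_0_1 := A0.t1
    E3b_0_1 := B0.t1
    E3a_0_2 := A0.t2
    E3b_0_2 := B0.t2
    E3a_0_3 := A0.t3
    E3b_0_3 := B0.t3
    E3a_0_4 := A0.t4
    E3b_0_4 := B0.t4
    xb_1_1 := B1.x1
    E2b_1_1 := B1.e1
    xb_1_2 := B1.x2
    E2b_1_2 := B1.e2
    xb_1_3 := B1.x3
    E2b_1_3 := B1.e3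
    xb_1_4 := B1.x4
    E2b_1_4 := B1.e4
    E2b_1_5 := B1.e5
    E3a_1_1 := A0.s1
    E3b_1_1 := B1.t1
    E3a_1_2 := A0.s2
    E3b_1_2 := B1.t2
    E3a_1_3 := A0.s3
    E3b_1_3 := B1.t3
    E3a_1_4 := A0.s4
    E3b_1_4 := B1.t4
    xa_2_1 := A2.x1
    E2a_2_1 := A2.e1
    xa_2_2 := A2.x2
    E2a_2_2 := A2.e2
    xa_2_3 := A2.x3
    E2a_2_3 := A2.e3
    xa_2_4 := A2.x4
    E2a_2_4 := A2.e4
    E2a_2_5 := A2.e5
    E3a_2_1 := A2.t1
    E3b_2_1 := B0.s1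
    E3a_2_2 := A2.t2
    E3b_2_2 := B0.s2
    E3a_2_3 := A2.t3
    E3b_2_3 := B0.s3
    E3a_2_4 := A2.t4
    E3b_2_4 := B0.s4
    xa_3_1 := A3.x1
    E2a_3_1 := A3.e1
    xa_3_2 := A3.x2
    E2a_3_2 := A3.e2
    xa_3_3 := A3.x3
    E2a_3_3 := A3.e3
    xa_3_4 := A3.x4
    E2a_3_4 := A3.e4
    E2a_3_5 := A3.e5
    E3a_3_1 := A3.t1
    E3b_3_1 := B1.s1
    E3a_3_2 := A3.t2
    E3b_3_2 := B1.s2
    E3a_3_3 := A3.t3
    E3b_3_3 := B1.s3
    E3a_3_4 := A3.t4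
    E3b_3_4 := B1.s4
    xb_4_1 := B4.x1
    E2b_4_1 := B4.e1
    xb_4_2 := B4.x2
    E2b_4_2 := B4.e2
    xb_4_3 := B4.x3
    E2b_4_3 := B4.e3
    xb_4_4 := B4.x4
    E2b_4_4 := B4.e4
    E2b_4_5 := B4.e5
    E3a_4_1 := A2.s1
    E3b_4_1 := B4.t1
    E3a_4_2 := A2.s2
    E3b_4_2 := B4.t2
    E3a_4_3 := A2.s3
    E3b_4_3 := B4.t3
    E3a_4_4 := A2.s4
    E3b_4_4 := B4.t4
    E3a_5_1 := A3.s1
    E3b_5_1 := B4.s1
    E3a_5_2 := A3.s2
    E3b_5_2 := B4.s2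
    E3a_5_3 := A3.s3
    E3b_5_3 := B4.s3
    E3a_5_4 := A3.s4
    E3b_5_4 := B4.s4
    nn_0_1_1 := ff_nonneg _ _ _ _ _
    nn_0_1_2 := ff_nonneg _ _ _ _ _
    nn_0_1_3 := ff_nonneg _ _ _ _ _
    nn_0_1_4 := ff_nonneg _ _ _ _ _
    nn_0_2_1 := ff_nonneg _ _ _ _ _
    nn_0_2_2 := ff_nonneg _ _ _ _ _
    nn_0_2_3 := ff_nonneg _ _ _ _ _
    nn_0_2_4 := ff_nonneg _ _ _ _ _
    nn_0_3_1 := ff_nonneg _ _ _ _ _
    nn_0_3_2 := ff_nonneg _ _ _ _ _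
    nn_0_3_3 := ff_nonneg _ _ _ _ _
    nn_0_3_4 := ff_nonneg _ _ _ _ _
    nn_0_4_1 := ff_nonneg _ _ _ _ _
    nn_0_4_2 := ff_nonneg _ _ _ _ _
    nn_0_4_3 := ff_nonneg _ _ _ _ _
    nn_0_4_4 := ff_nonneg _ _ _ _ _
    nn_1_1_1 := ff_nonneg _ _ _ _ _
    nn_1_1_2 := ff_nonneg _ _ _ _ _
    nn_1_1_3 := ff_nonneg _ _ _ _ _
    nn_1_1_4 := ff_nonneg _ _ _ _ _
    nn_1_2_1 := ff_nonneg _ _ _ _ _
    nn_1_2_2 := ff_nonneg _ _ _ _ _
    nn_1_2_3 := ff_nonneg _ _ _ _ _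
    nn_1_2_4 := ff_nonneg _ _ _ _ _
    nn_1_3_1 := ff_nonneg _ _ _ _ _
    nn_1_3_2 := ff_nonneg _ _ _ _ _
    nn_1_3_3 := ff_nonneg _ _ _ _ _
    nn_1_3_4 := ff_nonneg _ _ _ _ _
    nn_1_4_1 := ff_nonneg _ _ _ _ _
    nn_1_4_2 := ff_nonneg _ _ _ _ _
    nn_1_4_3 := ff_nonneg _ _ _ _ _
    nn_1_4_4 := ff_nonneg _ _ _ _ _
    nn_2_1_1 := ff_nonneg _ _ _ _ _
    nn_2_1_2 := ff_nonneg _ _ _ _ _
    nn_2_1_3 := ff_nonneg _ _ _ _ _
    nn_2_1_4 := ff_nonneg _ _ _ _ _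
    nn_2_2_1 := ff_nonneg _ _ _ _ _
    nn_2_2_2 := ff_nonneg _ _ _ _ _
    nn_2_2_3 := ff_nonneg _ _ _ _ _
    nn_2_2_4 := ff_nonneg _ _ _ _ _
    nn_2_3_1 := ff_nonneg _ _ _ _ _
    nn_2_3_2 := ff_nonneg _ _ _ _ _
    nn_2_3_3 := ff_nonneg _ _ _ _ _
    nn_2_3_4 := ff_nonneg _ _ _ _ _
    nn_2_4_1 := ff_nonneg _ _ _ _ _
    nn_2_4_2 := ff_nonneg _ _ _ _ _
    nn_2_4_3 := ff_nonneg _ _ _ _ _
    nn_2_4_4 := ff_nonneg _ _ _ _ _
    nn_3_1_1 := ff_nonneg _ _ _ _ _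
    nn_3_1_2 := ff_nonneg _ _ _ _ _
    nn_3_1_3 := ff_nonneg _ _ _ _ _
    nn_3_1_4 := ff_nonneg _ _ _ _ _
    nn_3_2_1 := ff_nonneg _ _ _ _ _
    nn_3_2_2 := ff_nonneg _ _ _ _ _
    nn_3_2_3 := ff_nonneg _ _ _ _ _
    nn_3_2_4 := ff_nonneg _ _ _ _ _
    nn_3_3_1 := ff_nonneg _ _ _ _ _
    nn_3_3_2 := ff_nonneg _ _ _ _ _
    nn_3_3_3 := ff_nonneg _ _ _ _ _
    nn_3_3_4 := ff_nonneg _ _ _ _ _
    nn_3_4_1 := ff_nonneg _ _ _ _ _
    nn_3_4_2 := ff_nonneg _ _ _ _ _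
    nn_3_4_3 := ff_nonneg _ _ _ _ _
    nn_3_4_4 := ff_nonneg _ _ _ _ _
    nn_4_1_1 := ff_nonneg _ _ _ _ _
    nn_4_1_2 := ff_nonneg _ _ _ _ _
    nn_4_1_3 := ff_nonneg _ _ _ _ _
    nn_4_1_4 := ff_nonneg _ _ _ _ _
    nn_4_2_1 := ff_nonneg _ _ _ _ _
    nn_4_2_2 := ff_nonneg _ _ _ _ _
    nn_4_2_3 := ff_nonneg _ _ _ _ _
    nn_4_2_4 := ff_nonneg _ _ _ _ _
    nn_4_3_1 := ff_nonneg _ _ _ _ _
    nn_4_3_2 := ff_nonneg _ _ _ _ _
    nn_4_3_3 := ff_nonneg _ _ _ _ _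
    nn_4_3_4 := ff_nonneg _ _ _ _ _
    nn_4_4_1 := ff_nonneg _ _ _ _ _
    nn_4_4_2 := ff_nonneg _ _ _ _ _
    nn_4_4_3 := ff_nonneg _ _ _ _ _
    nn_4_4_4 := ff_nonneg _ _ _ _ _
    nn_5_1_1 := ff_nonneg _ _ _ _ _
    nn_5_1_2 := ff_nonneg _ _ _ _ _
    nn_5_1_3 := ff_nonneg _ _ _ _ _
    nn_5_1_4 := ff_nonneg _ _ _ _ _
    nn_5_2_1 := ff_nonneg _ _ _ _ _
    nn_5_2_2 := ff_nonneg _ _ _ _ _
    nn_5_2_3 := ff_nonneg _ _ _ _ _
    nn_5_2_4 := ff_nonneg _ _ _ _ _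
    nn_5_3_1 := ff_nonneg _ _ _ _ _
    nn_5_3_2 := ff_nonneg _ _ _ _ _
    nn_5_3_3 := ff_nonneg _ _ _ _ _
    nn_5_3_4 := ff_nonneg _ _ _ _ _
    nn_5_4_1 := ff_nonneg _ _ _ _ _
    nn_5_4_2 := ff_nonneg _ _ _ _ _
    nn_5_4_3 := ff_nonneg _ _ _ _ _
    nn_5_4_4 := ff_nonneg _ _ _ _ _
    hq_1 := by
      simp only [tbl0, tbl1, tbl2, tbl3, tbl4, tbl5]
      linarith only [H_hq_1]
    hq_2 := by
      simp only [tbl0, tbl1, tbl2, tbl3, tbl4, tbl5]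
      linarith only [H_hq_2]
    hq_3 := by
      simp only [tbl0, tbl1, tbl2, tbl3, tbl4, tbl5]
      linarith only [H_hq_3]
    hb_1 := by
      simp only [tbl0, tbl1, tbl2, tbl3, tbl4, tbl5]
      linarith only [H_hb_1]
    hb_2 := by
      simp only [tbl0, tbl1, tbl2, tbl3, tbl4, tbl5]
      linarith only [H_hb_2]
    mt_1 := by
      simp only [tbl0, tbl1, tbl2, tbl3, tbl4, tbl5]
      linarith only [H_mt_1]
    et_1 := by
      simp only [tbl0, tbl1, tbl2, tbl3, tbl4, tbl5]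
      linarith only [H_et_1]
    T2_1 := H_T2_1
    mt_2 := by
      simp only [tbl0, tbl1, tbl2, tbl3, tbl4, tbl5]
      linarith only [H_mt_2]
    et_2 := by
      simp only [tbl0, tbl1, tbl2, tbl3, tbl4, tbl5]
      linarith only [H_et_2]
    T2_2 := H_T2_2
    qd_1 := H_qd_1
    qd_2 := H_qd_2
    qd_3 := H_qd_3
    R_1 := by
      simp only [tbl0, tbl1, tbl2, tbl3, tbl4, tbl5]
      linarith only [H_R_1]
    R_2 := by
      simp only [tbl0, tbl1, tbl2, tbl3, tbl4, tbl5]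
      linarith only [H_R_2]
  }

/-- (R4) -/
theorem four (hr : IsPoset r) {x y z : Fin n} (ixy : Inc r x y) (iyz : Inc r y z)
    (ixz : Inc r x z) (q1 : prob r y x ≤ 2 / 7) (q2 : prob r z y ≤ 2 / 7)
    (q3 : prob r z x ≤ 2 / 7) :
    2 + (4 / 7 - prob r y x - prob r z y) +
      pay (prob r z y - gp r y z 1) (prob r y x - gp r x y 1) +
      pay (prob r y x - gp r x y 1) (prob r z y - gp r y z 1) ≤ mn r x z := by
  have hm : ∀ a b : Fin n, 0 ≤ mneg r a b := fun a b => by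
    unfold mneg
    exact Ex_nonneg fun _ => le_max_right _ _
  have g : ∀ a b : Fin n, Inc r a b → gp r a b 1 ≤ prob r b a := fun a b h => by
    rw [prob_eq_Pr]
    refine Pr_le_of_inj' _ _ (fun σ => σ * Equiv.swap a b) (fun σ => σ * Equiv.swap a b) ?_ ?_
    · intro σ hσ h1
      refine ⟨swap_mem hσ h1 h.1, ?_⟩
      have h2 : D b a (σ * Equiv.swap a b) = 1 := by
        rw [D_neg, D_swap_both, ← D_neg]
        exact h1
      rw [Fin.lt_def]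
      unfold D at h2
      omega
    · intro σ _ _
      simp [mul_assoc]
  have h := FourNum.main (P1 := pay (prob r z y - gp r y z 1) (prob r y x - gp r x y 1))
    (P2 := pay (prob r y x - gp r x y 1) (prob r z y - gp r y z 1))
    (win hr ixy iyz ixz q1 q2 q3) (hm x y) (hm y z) (gp_nonneg r x y 1) (gp_nonneg r y z 1)
    (g x y ixy) (g y z iyz) (tail_one hr ixy) (tail_one hr iyz) (min_le_left _ _)
    (min_le_left _ _) (min_le_right _ _) (min_le_right _ _)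
  rw [mn_add r x y z]
  linarith

end Pool.Agent.BFT2
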