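import Mathlib
import Pool.Agent.BFT2.Base

/-!
# The local potential argument (owner: helper23)

Pure sequences.  Elements `x_0, .., x_(K+3)` in the majority order, the first three and the last
three pairwise comparable with everything (added chains).  Pair `i` is `(x_i, x_(i+1))`,
triple `i` is `(x_i, x_(i+1), x_(i+2))`.

* `h i` = mean position of `x_i`, `q i` = probability that `x_(i+1)` comes before `x_i`,
  `b i` = probability that `x_(i+1)` comes immediately before (= immediately after) `x_i`;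
* `inc i`: pair `i` is incomparable; `far i`: `x_i` and `x_(i+2)` are incomparable;
  `dfc i`: `x_i` and `x_(i+3)` are incomparable.
-/

set_option autoImplicit false

namespace Pool.Agent.BFT2

open Finset

/-- payment of an incomparable triple with pairs `i`, `i + 1` to the triple on its right -/
noncomputable def payR (e : ℝ) (bon : ℝ → ℝ) (q b : ℕ → ℝ) (i : ℕ) : ℝ :=
  min (q i - b i) (max 0 (e - bon (q (i + 1) - b (i + 1))))

/-- payment of an incomparable triple with pairs `i`, `i + 1` to the triple on its left -/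
noncomputable def payL (e : ℝ) (bon : ℝ → ℝ) (q b : ℕ → ℝ) (i : ℕ) : ℝ :=
  min (q (i + 1) - b (i + 1)) (max 0 (e - bon (q i - b i)))

/-- the local inequalities -/
structure Loc (K : ℕ) (d e z : ℝ) (bon : ℝ → ℝ) (h q b : ℕ → ℝ)
    (inc far dfc : ℕ → Prop) : Prop where
  /-- the added elements -/
  hh : h (K + 2) + h (K + 1) - h 1 - h 2 = 2 * (K : ℝ)
  c0 : ¬ inc 0
  c1 : ¬ inc 1
  c2 : ¬ inc 2
  k0 : ¬ inc K
  k1 : ¬ inc (K + 1)
  k2 : ¬ inc (K + 2)
  /-- constants -/
  he : 0 ≤ e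
  hez : e ≤ z
  hzd : z ≤ d
  bon0 : ∀ x, 0 ≤ x → 0 ≤ bon x
  /-- ranges -/
  q0 : ∀ i, ¬ inc i → q i = 0
  b0 : ∀ i, ¬ inc i → b i = 0
  hb : ∀ i, 0 ≤ b i
  hbq : ∀ i, b i ≤ q i
  hqd : ∀ i, q i ≤ d
  /-- comparable pairs -/
  hC : ∀ j, j ≤ K → ¬ inc (j + 1) → 1 + b j + b (j + 2) ≤ h (j + 2) - h (j + 1)
  /-- incomparable pairs -/
  hF : ∀ i, inc i → 1 + z < h (i + 1) - h i + 2 * b i
  /-- triples with comparable ends, both pairs incomparable, individually -/
  hG1 : ∀ i, inc i → inc (i + 1) → ¬ far i →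
    2 + 2 * d - q i - q (i + 1) - e + bon (q i - b i) ≤ h (i + 2) - h i
  hG2 : ∀ i, inc i → inc (i + 1) → ¬ far i →
    2 + 2 * d - q i - q (i + 1) - e + bon (q (i + 1) - b (i + 1)) ≤ h (i + 2) - h i
  /-- the same, exact count -/
  nqq : ∀ j, inc j → inc (j + 1) → inc (j + 2) → inc (j + 3) → ¬ far (j + 1) →
    ¬ dfc j → ¬ dfc (j + 1) →
    2 + q j - q (j + 1) - q (j + 2) + q (j + 3) ≤ h (j + 3) - h (j + 1)
  nbq : ∀ j, inc j → inc (j + 1) → inc (j + 2) → inc (j + 3) → ¬ far (j + 1) →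
    ¬ dfc (j + 1) →
    2 + b j - q (j + 1) - q (j + 2) + q (j + 3) ≤ h (j + 3) - h (j + 1)
  nqb : ∀ j, inc j → inc (j + 1) → inc (j + 2) → inc (j + 3) → ¬ far (j + 1) →
    ¬ dfc j →
    2 + q j - q (j + 1) - q (j + 2) + b (j + 3) ≤ h (j + 3) - h (j + 1)
  nbb : ∀ j, inc j → inc (j + 1) → inc (j + 2) → inc (j + 3) → ¬ far (j + 1) →
    2 + b j - q (j + 1) - q (j + 2) + b (j + 3) ≤ h (j + 3) - h (j + 1)
  /-- ladder defect on the right -/
  hLr : ∀ j, inc j → inc (j + 1) → inc (j + 2) → inc (j + 3) → ¬ far (j + 1) →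
    ¬ far (j + 2) → dfc (j + 1) →
    2 + q j - q (j + 1) - q (j + 2) + q (j + 3) ≤ h (j + 3) - h (j + 1)
  /-- ladder defect on the left -/
  hLl : ∀ j, inc j → inc (j + 1) → inc (j + 2) → inc (j + 3) → ¬ far (j + 1) →
    ¬ far j → dfc j →
    2 + q j - q (j + 1) - q (j + 2) + q (j + 3) ≤ h (j + 3) - h (j + 1)
  /-- pairwise incomparable triples -/
  hR : ∀ i, inc i → inc (i + 1) → far i →
    2 + 2 * d - q i - q (i + 1) + payR e bon q b i + payL e bon q b i ≤ h (i + 2) - h i

section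
variable {K : ℕ} {d e z : ℝ} {bon : ℝ → ℝ} {h q b : ℕ → ℝ} {inc far dfc : ℕ → Prop}

open Classical in
/-- the value of pair `i` on its right side -/
noncomputable def rho (q b : ℕ → ℝ) (inc : ℕ → Prop) (i : ℕ) : ℝ :=
  if inc i then (if inc (i + 1) then q i else b i) else 0

open Classical in
/-- the value of pair `i + 1` on its left side -/
noncomputable def lam (q b : ℕ → ℝ) (inc : ℕ → Prop) (i : ℕ) : ℝ :=
  if inc (i + 1) then (if inc i then q (i + 1) else b (i + 1)) else 0

open Classical in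
/-- shift from triple `i` to triple `i + 1` -/
noncomputable def sg (z : ℝ) (q : ℕ → ℝ) (inc : ℕ → Prop) (i : ℕ) : ℝ :=
  if ¬ inc i ∧ inc (i + 1) ∧ inc (i + 2) then max 0 (q (i + 2) - z) else 0

open Classical in
/-- shift from triple `i + 1` to triple `i` -/
noncomputable def tu (z : ℝ) (q : ℕ → ℝ) (inc : ℕ → Prop) (i : ℕ) : ℝ :=
  if inc i ∧ inc (i + 1) ∧ ¬ inc (i + 2) then max 0 (q i - z) else 0

open Classical in
/-- payment to the right -/
noncomputable def RR (e : ℝ) (bon : ℝ → ℝ) (q b : ℕ → ℝ) (inc far : ℕ → Prop) (i : ℕ) : ℝ :=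
  if inc i ∧ inc (i + 1) ∧ far i then payR e bon q b i else 0

open Classical in
/-- payment to the left -/
noncomputable def LL (e : ℝ) (bon : ℝ → ℝ) (q b : ℕ → ℝ) (inc far : ℕ → Prop) (i : ℕ) : ℝ :=
  if inc i ∧ inc (i + 1) ∧ far i then payL e bon q b i else 0

/-- the potential -/
noncomputable def pot (e z : ℝ) (bon : ℝ → ℝ) (q b : ℕ → ℝ) (inc far : ℕ → Prop) (j : ℕ) : ℝ :=
  rho q b inc j - lam q b inc (j + 1) + sg z q inc j - tu z q inc j
    - RR e bon q b inc far j + LL e bon q b inc far (j + 1)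

theorem payR_nonneg (hbq : ∀ i, b i ≤ q i) (i : ℕ) : 0 ≤ payR e bon q b i :=
  le_min (sub_nonneg.2 (hbq i)) (le_max_left _ _)

theorem payL_nonneg (hbq : ∀ i, b i ≤ q i) (i : ℕ) : 0 ≤ payL e bon q b i :=
  le_min (sub_nonneg.2 (hbq (i + 1))) (le_max_left _ _)

theorem RR_nonneg (hbq : ∀ i, b i ≤ q i) (i : ℕ) : 0 ≤ RR e bon q b inc far i := by
  unfold RR
  split_ifs
  · exact payR_nonneg hbq i
  · exact le_rfl

theorem LL_nonneg (hbq : ∀ i, b i ≤ q i) (i : ℕ) : 0 ≤ LL e bon q b inc far i := by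
  unfold LL
  split_ifs
  · exact payL_nonneg hbq i
  · exact le_rfl

/-- comparable, comparable -/
theorem Loc.cc (H : Loc K d e z bon h q b inc far dfc) {j : ℕ} (hj : j < K)
    (h1 : ¬ inc (j + 1)) (h2 : ¬ inc (j + 2)) :
    pot e z bon q b inc far j - pot e z bon q b inc far (j + 1) ≤ h (j + 3) - h (j + 1) - 2 := by
  have a1 := H.hC j hj.le h1
  have a2 := H.hC (j + 1) hj h2
  have e1 := H.b0 _ h1
  have e2 := H.b0 _ h2
  have n0 := H.hb j
  have n3 := H.hb (j + 3)
  have m0 := H.hbq j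
  rw [show j + 1 + 1 = j + 2 from rfl, show j + 1 + 2 = j + 3 from rfl] at a2
  have p1 : rho q b inc j ≤ b j := by
    unfold rho
    by_cases c : inc j
    · rw [if_pos c, if_neg h1]
    · rw [if_neg c]; exact n0
  have p2 : rho q b inc (j + 1) = 0 := by unfold rho; rw [if_neg h1]
  have p3 : lam q b inc (j + 1) = 0 := by unfold lam; rw [if_neg h2]
  have p4 : lam q b inc (j + 2) ≤ b (j + 3) := by
    unfold lam
    by_cases c : inc (j + 3)
    · rw [if_pos c, if_neg h2]
    · rw [if_neg c]; exact n3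
  have p5 : sg z q inc j = 0 := by unfold sg; rw [if_neg (fun c => h1 c.2.1)]
  have p6 : sg z q inc (j + 1) = 0 := by unfold sg; rw [if_neg (fun c => h2 c.2.1)]
  have p7 : tu z q inc j = 0 := by unfold tu; rw [if_neg (fun c => h1 c.2.1)]
  have p8 : tu z q inc (j + 1) = 0 := by unfold tu; rw [if_neg (fun c => h1 c.1)]
  have p9 : RR e bon q b inc far j = 0 := by unfold RR; rw [if_neg (fun c => h1 c.2.1)]
  have p10 : RR e bon q b inc far (j + 1) = 0 := by unfold RR; rw [if_neg (fun c => h1 c.1)]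
  have p11 : LL e bon q b inc far (j + 1) = 0 := by unfold LL; rw [if_neg (fun c => h1 c.1)]
  have p12 : LL e bon q b inc far (j + 2) = 0 := by unfold LL; rw [if_neg (fun c => h2 c.1)]
  unfold pot
  rw [show j + 1 + 1 = j + 2 from rfl]
  linarith

/-- comparable, incomparable -/
theorem Loc.ci (H : Loc K d e z bon h q b inc far dfc) {j : ℕ} (hj : j < K)
    (h1 : ¬ inc (j + 1)) (h2 : inc (j + 2)) :
    pot e z bon q b inc far j - pot e z bon q b inc far (j + 1) < h (j + 3) - h (j + 1) - 2 := by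
  have a1 := H.hC j hj.le h1
  have a2 := H.hF (j + 2) h2
  have n0 := H.hb j
  have hz : 0 ≤ z := H.he.trans H.hez
  rw [show j + 2 + 1 = j + 3 from rfl] at a2
  have p1 : rho q b inc j ≤ b j := by
    unfold rho
    by_cases c : inc j
    · rw [if_pos c, if_neg h1]
    · rw [if_neg c]; exact n0
  have p2 : rho q b inc (j + 1) = 0 := by unfold rho; rw [if_neg h1]
  have p3 : lam q b inc (j + 1) = b (j + 2) := by unfold lam; rw [if_pos h2, if_neg h1]
  have p4 : lam q b inc (j + 2) - sg z q inc (j + 1) ≤ z := by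
    unfold lam sg
    by_cases c : inc (j + 3)
    · rw [if_pos c, if_pos h2, if_pos ⟨h1, h2, c⟩]
      have := le_max_right 0 (q (j + 1 + 2) - z)
      linarith
    · rw [if_neg c, if_neg (fun c' => c c'.2.2)]
      linarith
  have p5 : sg z q inc j = 0 := by unfold sg; rw [if_neg (fun c => h1 c.2.1)]
  have p7 : tu z q inc j = 0 := by unfold tu; rw [if_neg (fun c => h1 c.2.1)]
  have p8 : tu z q inc (j + 1) = 0 := by unfold tu; rw [if_neg (fun c => h1 c.1)]
  have p9 : RR e bon q b inc far j = 0 := by unfold RR; rw [if_neg (fun c => h1 c.2.1)]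
  have p10 : RR e bon q b inc far (j + 1) = 0 := by unfold RR; rw [if_neg (fun c => h1 c.1)]
  have p11 : LL e bon q b inc far (j + 1) = 0 := by unfold LL; rw [if_neg (fun c => h1 c.1)]
  have p12 : 0 ≤ LL e bon q b inc far (j + 2) := LL_nonneg H.hbq _
  unfold pot
  rw [show j + 1 + 1 = j + 2 from rfl]
  linarith

/-- incomparable, comparable -/
theorem Loc.ic (H : Loc K d e z bon h q b inc far dfc) {j : ℕ} (hj : j < K)
    (h1 : inc (j + 1)) (h2 : ¬ inc (j + 2)) :
    pot e z bon q b inc far j - pot e z bon q b inc far (j + 1) < h (j + 3) - h (j + 1) - 2 := by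
  have a1 := H.hC (j + 1) hj h2
  have a2 := H.hF (j + 1) h1
  have n0 := H.hb (j + 3)
  have hz : 0 ≤ z := H.he.trans H.hez
  rw [show j + 1 + 1 = j + 2 from rfl, show j + 1 + 2 = j + 3 from rfl] at a1
  rw [show j + 1 + 1 = j + 2 from rfl] at a2
  have p1 : rho q b inc j - tu z q inc j ≤ z := by
    unfold rho tu
    by_cases c : inc j
    · rw [if_pos c, if_pos h1, if_pos ⟨c, h1, h2⟩]
      have := le_max_right 0 (q j - z)
      linarith
    · rw [if_neg c, if_neg (fun c' => c c'.1)]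
      linarith
  have p2 : rho q b inc (j + 1) = b (j + 1) := by unfold rho; rw [if_pos h1, if_neg h2]
  have p3 : lam q b inc (j + 1) = 0 := by unfold lam; rw [if_neg h2]
  have p4 : lam q b inc (j + 2) ≤ b (j + 3) := by
    unfold lam
    by_cases c : inc (j + 3)
    · rw [if_pos c, if_neg h2]
    · rw [if_neg c]; exact n0
  have p5 : sg z q inc j = 0 := by unfold sg; rw [if_neg (fun c => h2 c.2.2)]
  have p6 : sg z q inc (j + 1) = 0 := by unfold sg; rw [if_neg (fun c => h2 c.2.1)]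
  have p8 : tu z q inc (j + 1) = 0 := by unfold tu; rw [if_neg (fun c => h2 c.2.1)]
  have p9 : 0 ≤ RR e bon q b inc far j := RR_nonneg H.hbq _
  have p10 : RR e bon q b inc far (j + 1) = 0 := by unfold RR; rw [if_neg (fun c => h2 c.2.1)]
  have p11 : LL e bon q b inc far (j + 1) = 0 := by unfold LL; rw [if_neg (fun c => h2 c.2.1)]
  have p12 : LL e bon q b inc far (j + 2) = 0 := by unfold LL; rw [if_neg (fun c => h2 c.1)]
  unfold pot
  rw [show j + 1 + 1 = j + 2 from rfl]
  linarith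

/-- the number of a triple with comparable ends inside a stretch -/
theorem Loc.inner (H : Loc K d e z bon h q b inc far dfc) {j : ℕ}
    (i0 : inc j) (i1 : inc (j + 1)) (i2 : inc (j + 2)) (i3 : inc (j + 3))
    (hf : ¬ far (j + 1)) :
    2 + q j - q (j + 1) - q (j + 2) + q (j + 3) - RR e bon q b inc far j
      - LL e bon q b inc far (j + 2) ≤ h (j + 3) - h (j + 1) := by
  classical
  have hRn : 0 ≤ RR e bon q b inc far j := RR_nonneg H.hbq _
  have hLn : 0 ≤ LL e bon q b inc far (j + 2) := LL_nonneg H.hbq _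
  have v0 := H.hqd j
  have v3 := H.hqd (j + 3)
  have g1 := H.hG1 (j + 1) i1 i2 hf
  have g2 := H.hG2 (j + 1) i1 i2 hf
  rw [show j + 1 + 1 = j + 2 from rfl, show j + 1 + 2 = j + 3 from rfl] at g1 g2
  -- the left side
  have hl : (¬ dfc j) ∨ (2 + q j - q (j + 1) - q (j + 2) + q (j + 3) ≤ h (j + 3) - h (j + 1)) ∨
      (RR e bon q b inc far j = q j - b j) ∨
      (e - bon (q (j + 1) - b (j + 1)) ≤ RR e bon q b inc far j) := by
    by_cases dl : dfc j
    · right
      by_cases fl : far j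
      · right
        have hR' : RR e bon q b inc far j = payR e bon q b j := by
          unfold RR; rw [if_pos ⟨i0, i1, fl⟩]
        rw [hR']
        unfold payR
        rcases le_total (q j - b j) (max 0 (e - bon (q (j + 1) - b (j + 1)))) with c | c
        · left; exact min_eq_left c
        · right; rw [min_eq_right c]; exact le_max_right _ _
      · left; exact H.hLl j i0 i1 i2 i3 hf fl dl
    · left; exact dl
  have hr : (¬ dfc (j + 1)) ∨
      (2 + q j - q (j + 1) - q (j + 2) + q (j + 3) ≤ h (j + 3) - h (j + 1)) ∨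
      (LL e bon q b inc far (j + 2) = q (j + 3) - b (j + 3)) ∨
      (e - bon (q (j + 2) - b (j + 2)) ≤ LL e bon q b inc far (j + 2)) := by
    by_cases dr : dfc (j + 1)
    · right
      by_cases fr : far (j + 2)
      · right
        have hL' : LL e bon q b inc far (j + 2) = payL e bon q b (j + 2) := by
          unfold LL; rw [if_pos ⟨i2, i3, fr⟩]
        rw [hL']
        unfold payL
        rcases le_total (q (j + 2 + 1) - b (j + 2 + 1))
          (max 0 (e - bon (q (j + 2) - b (j + 2)))) with c | c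
        · left; exact min_eq_left c
        · right; rw [min_eq_right c]; exact le_max_right _ _
      · left; exact H.hLr j i0 i1 i2 i3 hf fr dr
    · left; exact dr
  have t1 := H.nbb j i0 i1 i2 i3 hf
  rcases hl with hl | hl | hl | hl
  · rcases hr with hr | hr | hr | hr
    · have := H.nqq j i0 i1 i2 i3 hf hl hr
      linarith
    · linarith
    · have := H.nqb j i0 i1 i2 i3 hf hl
      rw [hr]; linarith
    · linarith
  · linarith
  · rcases hr with hr | hr | hr | hr
    · have := H.nbq j i0 i1 i2 i3 hf hr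
      rw [hl]; linarith
    · linarith
    · rw [hl, hr]; linarith
    · linarith
  · linarith

/-- incomparable, incomparable -/
theorem Loc.ii (H : Loc K d e z bon h q b inc far dfc) {j : ℕ}
    (h1 : inc (j + 1)) (h2 : inc (j + 2)) :
    pot e z bon q b inc far j - pot e z bon q b inc far (j + 1) ≤ h (j + 3) - h (j + 1) - 2 := by
  classical
  have hz : 0 ≤ z := H.he.trans H.hez
  have hd : 0 ≤ d := hz.trans H.hzd
  have p1 : rho q b inc j = q j := by
    unfold rho
    by_cases c : inc j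
    · rw [if_pos c, if_pos h1]
    · rw [if_neg c, H.q0 _ c]
  have p2 : rho q b inc (j + 1) = q (j + 1) := by unfold rho; rw [if_pos h1, if_pos h2]
  have p3 : lam q b inc (j + 1) = q (j + 2) := by unfold lam; rw [if_pos h2, if_pos h1]
  have p4 : lam q b inc (j + 2) = q (j + 3) := by
    unfold lam
    by_cases c : inc (j + 3)
    · rw [if_pos c, if_pos h2]
    · rw [if_neg c, H.q0 _ c]
  have p6 : sg z q inc (j + 1) = 0 := by unfold sg; rw [if_neg (fun c => c.1 h1)]
  have p7 : tu z q inc j = 0 := by unfold tu; rw [if_neg (fun c => c.2.2 h2)]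
  have s1 : q j + sg z q inc j ≤ d ∧ (¬ inc j → q j + sg z q inc j ≤ d - e) := by
    by_cases c : inc j
    · have : sg z q inc j = 0 := by unfold sg; rw [if_neg (fun c' => c'.1 c)]
      rw [this]
      exact ⟨by linarith [H.hqd j], fun c' => absurd c c'⟩
    · have t : sg z q inc j ≤ d - e := by
        unfold sg
        rw [if_pos ⟨c, h1, h2⟩]
        have t1 := H.hqd (j + 2)
        have t2 := H.hez
        have t3 := H.hzd
        exact max_le (by linarith) (by linarith)
      rw [H.q0 _ c]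
      have := H.he
      exact ⟨by linarith, fun _ => by linarith⟩
  have s2 : q (j + 3) + tu z q inc (j + 1) ≤ d ∧
      (¬ inc (j + 3) → q (j + 3) + tu z q inc (j + 1) ≤ d - e) := by
    by_cases c : inc (j + 3)
    · have : tu z q inc (j + 1) = 0 := by unfold tu; rw [if_neg (fun c' => c'.2.2 c)]
      rw [this]
      exact ⟨by linarith [H.hqd (j + 3)], fun c' => absurd c c'⟩
    · have t : tu z q inc (j + 1) ≤ d - e := by
        unfold tu
        rw [if_pos ⟨h1, h2, c⟩]
        have t1 := H.hqd (j + 1)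
        have t2 := H.hez
        have t3 := H.hzd
        exact max_le (by linarith) (by linarith)
      rw [H.q0 _ c]
      have := H.he
      exact ⟨by linarith, fun _ => by linarith⟩
  have hRn : 0 ≤ RR e bon q b inc far j := RR_nonneg H.hbq _
  have hLn : 0 ≤ LL e bon q b inc far (j + 2) := LL_nonneg H.hbq _
  unfold pot
  rw [show j + 1 + 1 = j + 2 from rfl, p1, p2, p3, p4, p6, p7]
  by_cases hf : far (j + 1)
  · have t := H.hR (j + 1) h1 h2 hf
    rw [show j + 1 + 1 = j + 2 from rfl, show j + 1 + 2 = j + 3 from rfl] at t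
    have r1 : RR e bon q b inc far (j + 1) = payR e bon q b (j + 1) := by
      unfold RR; rw [if_pos ⟨h1, h2, hf⟩]
    have r2 : LL e bon q b inc far (j + 1) = payL e bon q b (j + 1) := by
      unfold LL; rw [if_pos ⟨h1, h2, hf⟩]
    rw [r1, r2]
    linarith [s1.1, s2.1]
  · have r1 : RR e bon q b inc far (j + 1) = 0 := by
      unfold RR; rw [if_neg (fun c => hf c.2.2)]
    have r2 : LL e bon q b inc far (j + 1) = 0 := by
      unfold LL; rw [if_neg (fun c => hf c.2.2)]
    rw [r1, r2]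
    by_cases c0 : inc j
    · by_cases c3 : inc (j + 3)
      · have t := H.inner c0 h1 h2 c3 hf
        have e1 : sg z q inc j = 0 := by unfold sg; rw [if_neg (fun c' => c'.1 c0)]
        have e2 : tu z q inc (j + 1) = 0 := by unfold tu; rw [if_neg (fun c' => c'.2.2 c3)]
        rw [e1, e2]
        linarith
      · have t := H.hG1 (j + 1) h1 h2 hf
        rw [show j + 1 + 1 = j + 2 from rfl, show j + 1 + 2 = j + 3 from rfl] at t
        have w := H.bon0 (q (j + 1) - b (j + 1)) (sub_nonneg.2 (H.hbq _))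
        have := s2.2 c3
        linarith [s1.1]
    · have t := H.hG1 (j + 1) h1 h2 hf
      rw [show j + 1 + 1 = j + 2 from rfl, show j + 1 + 2 = j + 3 from rfl] at t
      have w := H.bon0 (q (j + 1) - b (j + 1)) (sub_nonneg.2 (H.hbq _))
      have := s1.2 c0
      linarith [s2.1]

/-- the contradiction -/
theorem Loc.false (H : Loc K d e z bon h q b inc far dfc) (hex : ∃ i, i ≤ K + 2 ∧ inc i) :
    False := by
  classical
  have hle : ∀ j, j < K → pot e z bon q b inc far j - pot e z bon q b inc far (j + 1) ≤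
      h (j + 3) - h (j + 1) - 2 := by
    intro j hj
    by_cases h1 : inc (j + 1)
    · by_cases h2 : inc (j + 2)
      · exact H.ii h1 h2
      · exact (H.ic hj h1 h2).le
    · by_cases h2 : inc (j + 2)
      · exact (H.ci hj h1 h2).le
      · exact H.cc hj h1 h2
  -- a strict place
  obtain ⟨a, ha, hmin⟩ : ∃ a, (a ≤ K + 2 ∧ inc a) ∧ ∀ i, i < a → ¬ (i ≤ K + 2 ∧ inc i) := by
    refine ⟨Nat.find hex, Nat.find_spec hex, fun i hi => Nat.find_min hex hi⟩
  have a0 : a ≠ 0 := by rintro rfl; exact H.c0 ha.2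
  have a1 : a ≠ 1 := by rintro rfl; exact H.c1 ha.2
  have a2 : a ≠ K + 2 := by rintro rfl; exact H.k2 ha.2
  have a3 : a ≠ K + 1 := by rintro rfl; exact H.k1 ha.2
  obtain ⟨j, rfl⟩ : ∃ j, a = j + 2 := ⟨a - 2, by omega⟩
  have hj : j < K := by have := ha.1; omega
  have hn : ¬ inc (j + 1) := fun c => hmin (j + 1) (by omega) ⟨by omega, c⟩
  have hst := H.ci hj hn ha.2
  have hsum : ∑ i ∈ range K, (pot e z bon q b inc far i - pot e z bon q b inc far (i + 1)) <
      ∑ i ∈ range K, (h (i + 3) - h (i + 1) - 2) :=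
    sum_lt_sum (fun i hi => hle i (mem_range.1 hi)) ⟨j, mem_range.2 hj, hst⟩
  have e1 : ∑ i ∈ range K, (pot e z bon q b inc far i - pot e z bon q b inc far (i + 1)) =
      pot e z bon q b inc far 0 - pot e z bon q b inc far K := sum_range_sub' _ _
  have e2 : ∀ k : ℕ, ∑ i ∈ range k, (h (i + 3) - h (i + 1) - 2) =
      h (k + 2) + h (k + 1) - h 1 - h 2 - 2 * (k : ℝ) := by
    intro k
    induction k with
    | zero => simp
    | succ k ih =>
      rw [sum_range_succ, ih]
      push_cast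
      rw [show k + 1 + 2 = k + 3 from rfl, show k + 1 + 1 = k + 2 from rfl]
      ring
  have p0 : pot e z bon q b inc far 0 = 0 := by
    unfold pot
    have r1 : rho q b inc 0 = 0 := by unfold rho; rw [if_neg H.c0]
    have r2 : lam q b inc (0 + 1) = 0 := by unfold lam; rw [if_neg H.c2]
    have r3 : sg z q inc 0 = 0 := by unfold sg; rw [if_neg (fun c => H.c1 c.2.1)]
    have r4 : tu z q inc 0 = 0 := by unfold tu; rw [if_neg (fun c => H.c0 c.1)]
    have r5 : RR e bon q b inc far 0 = 0 := by unfold RR; rw [if_neg (fun c => H.c0 c.1)]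
    have r6 : LL e bon q b inc far (0 + 1) = 0 := by unfold LL; rw [if_neg (fun c => H.c1 c.1)]
    rw [r1, r2, r3, r4, r5, r6]
    ring
  have pK : pot e z bon q b inc far K = 0 := by
    unfold pot
    have r1 : rho q b inc K = 0 := by unfold rho; rw [if_neg H.k0]
    have r2 : lam q b inc (K + 1) = 0 := by unfold lam; rw [if_neg H.k2]
    have r3 : sg z q inc K = 0 := by unfold sg; rw [if_neg (fun c => H.k1 c.2.1)]
    have r4 : tu z q inc K = 0 := by unfold tu; rw [if_neg (fun c => H.k0 c.1)]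
    have r5 : RR e bon q b inc far K = 0 := by unfold RR; rw [if_neg (fun c => H.k0 c.1)]
    have r6 : LL e bon q b inc far (K + 1) = 0 := by unfold LL; rw [if_neg (fun c => H.k1 c.1)]
    rw [r1, r2, r3, r4, r5, r6]
    ring
  rw [e1, e2 K, p0, pK, H.hh] at hsum
  linarith

/-- the local inequalities at `d = 2/7` -/
structure Glob (K : ℕ) (h q b : ℕ → ℝ) (inc far dfc : ℕ → Prop) : Prop where
  hh : h (K + 2) + h (K + 1) - h 1 - h 2 = 2 * (K : ℝ)
  c0 : ¬ inc 0
  c1 : ¬ inc 1
  c2 : ¬ inc 2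
  k0 : ¬ inc K
  k1 : ¬ inc (K + 1)
  k2 : ¬ inc (K + 2)
  q0 : ∀ i, ¬ inc i → q i = 0
  b0 : ∀ i, ¬ inc i → b i = 0
  hb : ∀ i, 0 ≤ b i
  hbq : ∀ i, b i ≤ q i
  hqd : ∀ i, q i ≤ 2 / 7
  hC : ∀ j, j ≤ K → ¬ inc (j + 1) → 1 + b j + b (j + 2) ≤ h (j + 2) - h (j + 1)
  hF : ∀ i, inc i → 1 + 2 / 21 < h (i + 1) - h i + 2 * b i
  hG : ∀ i, inc i → inc (i + 1) → ¬ far i →
    4 - 3 * (q i + q (i + 1)) - 2 * (b i * b (i + 1)) / (1 - (q i + q (i + 1))) ≤ h (i + 2) - h i
  nqq : ∀ j, inc j → inc (j + 1) → inc (j + 2) → inc (j + 3) → ¬ far (j + 1) →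
    ¬ dfc j → ¬ dfc (j + 1) →
    2 + q j - q (j + 1) - q (j + 2) + q (j + 3) ≤ h (j + 3) - h (j + 1)
  nbq : ∀ j, inc j → inc (j + 1) → inc (j + 2) → inc (j + 3) → ¬ far (j + 1) →
    ¬ dfc (j + 1) →
    2 + b j - q (j + 1) - q (j + 2) + q (j + 3) ≤ h (j + 3) - h (j + 1)
  nqb : ∀ j, inc j → inc (j + 1) → inc (j + 2) → inc (j + 3) → ¬ far (j + 1) →
    ¬ dfc j →
    2 + q j - q (j + 1) - q (j + 2) + b (j + 3) ≤ h (j + 3) - h (j + 1)
  nbb : ∀ j, inc j → inc (j + 1) → inc (j + 2) → inc (j + 3) → ¬ far (j + 1) →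
    2 + b j - q (j + 1) - q (j + 2) + b (j + 3) ≤ h (j + 3) - h (j + 1)
  hLr : ∀ j, inc j → inc (j + 1) → inc (j + 2) → inc (j + 3) → ¬ far (j + 1) →
    ¬ far (j + 2) → dfc (j + 1) →
    2 + q j - q (j + 1) - q (j + 2) + q (j + 3) ≤ h (j + 3) - h (j + 1)
  hLl : ∀ j, inc j → inc (j + 1) → inc (j + 2) → inc (j + 3) → ¬ far (j + 1) →
    ¬ far j → dfc j →
    2 + q j - q (j + 1) - q (j + 2) + q (j + 3) ≤ h (j + 3) - h (j + 1)
  hR : ∀ i, inc i → inc (i + 1) → far i →
    2 + (4 / 7 - q i - q (i + 1)) + pay (q (i + 1) - b (i + 1)) (q i - b i)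
      + pay (q i - b i) (q (i + 1) - b (i + 1)) ≤ h (i + 2) - h i

/-- the individual bound at `2/7` -/
theorem one_num {q1 q2 b1 b2 g : ℝ} (h1 : 0 ≤ b1) (h2 : 0 ≤ b2) (h3 : b1 ≤ q1) (h4 : b2 ≤ q2)
    (h5 : q1 ≤ 2 / 7) (h6 : q2 ≤ 2 / 7)
    (hg : 4 - 3 * (q1 + q2) - 2 * (b1 * b2) / (1 - (q1 + q2)) ≤ g) :
    2 + 2 * (2 / 7) - q1 - q2 - 2 / 21 + 4 / 3 * (q1 - b1) ≤ g ∧
    2 + 2 * (2 / 7) - q1 - q2 - 2 / 21 + 4 / 3 * (q2 - b2) ≤ g := by
  have hQ : 0 < 1 - (q1 + q2) := by linarith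
  have k1 : 2 * (b1 * b2) / (1 - (q1 + q2)) ≤ 4 / 3 * b1 := by
    rw [div_le_iff₀ hQ]
    have e1 : b1 * b2 ≤ b1 * (2 / 7) := mul_le_mul_of_nonneg_left (by linarith) h1
    have e2 : b1 * (3 / 7) ≤ b1 * (1 - (q1 + q2)) := mul_le_mul_of_nonneg_left (by linarith) h1
    linarith
  have k2 : 2 * (b1 * b2) / (1 - (q1 + q2)) ≤ 4 / 3 * b2 := by
    rw [div_le_iff₀ hQ]
    have e1 : b1 * b2 ≤ (2 / 7) * b2 := mul_le_mul_of_nonneg_right (by linarith) h2
    have e2 : b2 * (3 / 7) ≤ b2 * (1 - (q1 + q2)) := mul_le_mul_of_nonneg_left (by linarith) h2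
    linarith
  constructor <;> linarith

theorem Glob.false (H : Glob K h q b inc far dfc) (hex : ∃ i, i ≤ K + 2 ∧ inc i) : False := by
  have L : Loc K (2 / 7) (2 / 21) (2 / 21) (fun x => 4 / 3 * x) h q b inc far dfc := by
    refine ⟨H.hh, H.c0, H.c1, H.c2, H.k0, H.k1, H.k2, by norm_num, le_refl _, by norm_num, ?_,
      H.q0, H.b0, H.hb, H.hbq, H.hqd, H.hC, H.hF, ?_, ?_, H.nqq, H.nbq, H.nqb, H.nbb, H.hLr,
      H.hLl, ?_⟩
    · intro x hx
      positivity
    · intro i h1 h2 h3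
      exact (one_num (H.hb i) (H.hb (i + 1)) (H.hbq i) (H.hbq (i + 1)) (H.hqd i) (H.hqd (i + 1))
        (H.hG i h1 h2 h3)).1
    · intro i h1 h2 h3
      exact (one_num (H.hb i) (H.hb (i + 1)) (H.hbq i) (H.hbq (i + 1)) (H.hqd i) (H.hqd (i + 1))
        (H.hG i h1 h2 h3)).2
    · intro i h1 h2 h3
      have t := H.hR i h1 h2 h3
      unfold pay at t
      unfold payR payL
      linarith
  exact L.false hex

end

end Pool.Agent.BFT2
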