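import Mathlib
import Pool.Agent.BFT2.One
import Pool.Agent.BFT.Swap

/-! # Type (1) triples: the asymmetric bound `4 - 3Q - 2 b₁ b₂ / (1 - Q)` (owner: helper43) -/

set_option autoImplicit false

namespace Pool.Agent.BFT2

open Finset Pool.Agent.Helper1.Balance Pool.Agent.Helper8.KS Pool.Agent.Helper18.KSC Pool.Agent.BFT
open Pool.Agent.BFT.One

variable {n : ℕ} {r : Fin n → Fin n → Prop}

/-- the numbers -/
theorem oneG_num {Q b1 b2 u v Ta Tb gap : ℝ} (hQ : Q < 1) (hu : 0 ≤ u) (huQ : u ≤ 1 - Q)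
    (hTa : 0 ≤ Ta) (hTb : 0 ≤ Tb) (h12 : 0 ≤ b1 - u - Ta) (h21 : 0 ≤ b2 - u - Tb)
    (hA : 4 - 3 * Q - 2 * u + 2 * (Ta + Tb) ≤ gap)
    (hB : 6 - 5 * Q - 2 * (b1 + b2) + (Ta + Tb) - 2 * v ≤ gap)
    (hC : u * v ≤ (b1 - u - Ta) * (b2 - u - Tb)) :
    4 - 3 * Q - 2 * (b1 * b2) / (1 - Q) + (Ta + Tb) ≤ gap := by
  have hP : 0 < 1 - Q := by linarith
  set w := b1 * b2 / (1 - Q) with hw
  have hwb : w * (1 - Q) = b1 * b2 := by rw [hw]; field_simp
  have e : 2 * (b1 * b2) / (1 - Q) = 2 * w := by rw [hw]; ring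
  rw [e]
  rcases le_or_gt u w with h | h
  · linarith
  · have hb1 : 0 ≤ b1 := by linarith
    have hb2 : 0 ≤ b2 := by linarith
    have hw0 : 0 ≤ w := by rw [hw]; positivity
    have hupos : 0 < u := by linarith
    -- `u * (2 v) ≤ ...`
    have h1 : (b1 - u - Ta) * (b2 - u - Tb) ≤ (b1 - u) * (b2 - u) := by
      have : (b1 - u - Ta) * (b2 - u - Tb) ≤ (b1 - u) * (b2 - u - Tb) :=
        mul_le_mul_of_nonneg_right (by linarith) h21
      have : (b1 - u) * (b2 - u - Tb) ≤ (b1 - u) * (b2 - u) :=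
        mul_le_mul_of_nonneg_left (by linarith) (by linarith)
      linarith
    have h2 : u * (4 - 3 * Q - 2 * w) ≤ u * (6 - 5 * Q - 2 * (b1 + b2) - 2 * v) := by
      nlinarith [mul_nonneg (sub_nonneg.2 h.le) (sub_nonneg.2 huQ)]
    have h3 := le_of_mul_le_mul_left h2 hupos
    linarith

/-- the mass of `D x y = 1, D y z = 1` is at most `1 - Q` -/
theorem F11_le (hr : IsPoset r) {x y z : Fin n} (hxz : r x z) (hne : x ≠ z) :
    F r x y z 1 1 ≤ 1 - (prob r y x + prob r z y) := by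
  have h : Pr r (fun σ => D x y σ < 0) + Pr r (fun σ => D y z σ < 0) +
      Pr r (fun σ => D x y σ = 1 ∧ D y z σ = 1) ≤ 1 := by
    rw [← Ex_ii, ← Ex_ii (fun σ => D y z σ < 0), ← Ex_ii (fun σ => D x y σ = 1 ∧ D y z σ = 1),
      ← Ex_const hr 1, ← Ex_add, ← Ex_add]
    refine Ex_mono_on (fun σ hσ => ?_)
    have h1 := BFT.One.D_pos hxz hne hσ
    have h2 := BFT.One.D_add x y z σ
    have : ii (D x y σ < 0) + ii (D y z σ < 0) + ii (D x y σ = 1 ∧ D y z σ = 1) ≤ 1 := by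
      unfold ii
      split_ifs <;> omega
    exact_mod_cast this
  rw [← prob_D, ← prob_D] at h
  unfold F
  linarith

/-- **TYPE (1), asymmetric bound**, with the tails. -/
theorem one_GT (hr : IsPoset r) {x y z : Fin n} (hxz : r x z) (hne : x ≠ z) (hxy : Inc r x y)
    (hyz : Inc r y z) (hQ : prob r y x + prob r z y < 1) :
    4 - 3 * (prob r y x + prob r z y) -
      2 * (gp r x y 1 * gp r y z 1) / (1 - (prob r y x + prob r z y)) +
        (Ta r x y z + Tb r x y z) ≤ mn r x z := by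
  have nxy := hxy.ne hr
  have nyz := hyz.ne hr
  have hTa : 0 ≤ Ta r x y z := by
    rw [Ta_eq hxz hne nyz]
    exact Pr_nonneg _
  have hTb : 0 ≤ Tb r x y z := by
    rw [Tb_eq hxz hne nxy]
    exact Pr_nonneg _
  have e1 : gp r x y 1 - F r x y z 1 1 - Ta r x y z = F r x y z 1 2 := by unfold Ta; ring
  have e2 : gp r y z 1 - F r x y z 1 1 - Tb r x y z = F r x y z 2 1 := by unfold Tb; ring
  refine oneG_num (u := F r x y z 1 1) (v := F r x y z 2 2) hQ (Pr_nonneg _)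
    (F11_le hr hxz hne) hTa hTb ?_ ?_ (one_A' hr hxz hne hxy hyz)
    (one_B' hr hxz hne hxy hyz) ?_
  · rw [e1]; exact Pr_nonneg _
  · rw [e2]; exact Pr_nonneg _
  · rw [e1, e2]
    exact cross hr nxy nyz hne

/-- **TYPE (1), asymmetric bound.** `x < z`, `y` incomparable to both -/
theorem one_G (hr : IsPoset r) {x y z : Fin n} (hxz : r x z) (hne : x ≠ z) (hxy : Inc r x y)
    (hyz : Inc r y z) (hQ : prob r y x + prob r z y < 1) :
    4 - 3 * (prob r y x + prob r z y) -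
      2 * (gp r x y 1 * gp r y z 1) / (1 - (prob r y x + prob r z y)) ≤ mn r x z := by
  have h := one_GT hr hxz hne hxy hyz hQ
  have hTa : 0 ≤ Ta r x y z := by
    rw [Ta_eq hxz hne (hyz.ne hr)]
    exact Pr_nonneg _
  have hTb : 0 ≤ Tb r x y z := by
    rw [Tb_eq hxz hne (hxy.ne hr)]
    exact Pr_nonneg _
  linarith

/-- **TYPE (1), symmetric form.** -/
theorem one_g2 (hr : IsPoset r) {x y z : Fin n} (hxz : r x z) (hne : x ≠ z) (hxy : Inc r x y)
    (hyz : Inc r y z) (hQ : prob r y x + prob r z y < 1) :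
    4 - 3 * (prob r y x + prob r z y) -
      (gp r x y 1 + gp r y z 1) ^ 2 / (2 * (1 - (prob r y x + prob r z y))) +
        (Ta r x y z + Tb r x y z) ≤ mn r x z := by
  have h := one_GT hr hxz hne hxy hyz hQ
  have hP : 0 < 1 - (prob r y x + prob r z y) := by linarith
  have h2 : 2 * (gp r x y 1 * gp r y z 1) / (1 - (prob r y x + prob r z y)) ≤
      (gp r x y 1 + gp r y z 1) ^ 2 / (2 * (1 - (prob r y x + prob r z y))) := by
    rw [div_le_div_iff₀ hP (by positivity)]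
    nlinarith [mul_nonneg hP.le (sq_nonneg (gp r x y 1 - gp r y z 1))]
  linarith

/-! ### the forms needed at `d = 2/7`, `e = 2/21` -/

/-- the numbers -/
theorem bon_num {Q t b1 b2 gap : ℝ} (hQ : Q ≤ 4 / 7) (htQ : t ≤ Q)
    (hb : b1 + b2 = Q - t) (h : 4 - 3 * Q - 2 * (b1 * b2) / (1 - Q) ≤ gap) :
    2 + 2 * (2 / 7) - Q - 2 / 21 + (8 * t - 7 * t ^ 2) / 6 ≤ gap := by
  have hP : 0 < 1 - Q := by linarith
  refine le_trans ?_ h
  have h1 : 2 * (b1 * b2) / (1 - Q) ≤ (Q - t) ^ 2 / (2 * (1 - Q)) := by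
    rw [div_le_div_iff₀ hP (by positivity), ← hb]
    nlinarith [mul_nonneg hP.le (sq_nonneg (b1 - b2))]
  have h2 : (Q - t) ^ 2 / (2 * (1 - Q)) ≤
      4 - 3 * Q - (2 + 2 * (2 / 7) - Q - 2 / 21 + (8 * t - 7 * t ^ 2) / 6) := by
    rw [div_le_iff₀ (by positivity)]
    have key : 0 ≤ (4 / 7 - Q) * (16 / 3 - 14 * t / 3 + 7 * t ^ 2 / 3 - 3 * Q) := by
      refine mul_nonneg (by linarith) ?_
      nlinarith [sq_nonneg t]
    nlinarith [key]
  linarith

theorem gp_le_prob (hr : IsPoset r) {x y : Fin n} (h : Inc r x y) : gp r x y 1 ≤ prob r y x := by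
  rw [← gp_neg_one hr h, prob_D]
  exact Pr_mono (fun σ h => by omega)

/-- **TYPE (1) with the bonus**: field `hG` of `Loc` at `d = 2/7`, `e = 2/21`,
`bon t = (8t - 7t²)/6`. -/
theorem one_bon (hr : IsPoset r) {x y z : Fin n} (hxz : r x z) (hne : x ≠ z) (hxy : Inc r x y)
    (hyz : Inc r y z) (hq1 : prob r y x ≤ 2 / 7) (hq2 : prob r z y ≤ 2 / 7) :
    2 + 2 * (2 / 7) - prob r y x - prob r z y - 2 / 21 +
      (8 * ((prob r y x - gp r x y 1) + (prob r z y - gp r y z 1)) -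
        7 * ((prob r y x - gp r x y 1) + (prob r z y - gp r y z 1)) ^ 2) / 6 ≤ mn r x z := by
  have h1 := gp_le_prob hr hxy
  have h2 := gp_le_prob hr hyz
  have g1 : 0 ≤ gp r x y 1 := Pr_nonneg _
  have g2 : 0 ≤ gp r y z 1 := Pr_nonneg _
  have h := bon_num (Q := prob r y x + prob r z y)
    (t := (prob r y x - gp r x y 1) + (prob r z y - gp r y z 1)) (b1 := gp r x y 1)
    (b2 := gp r y z 1) (by linarith) (by linarith) (by ring)
    (one_G hr hxz hne hxy hyz (by linarith))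
  linarith

/-- the numbers of the linear bonus -/
theorem lin_num {q1 q2 b1 b2 gap : ℝ} (h1 : q1 ≤ 2 / 7) (h2 : q2 ≤ 2 / 7) (hb1 : 0 ≤ b1)
    (hbq1 : b1 ≤ q1) (hbq2 : b2 ≤ q2)
    (h : 4 - 3 * (q1 + q2) - 2 * (b1 * b2) / (1 - (q1 + q2)) ≤ gap) :
    2 + 2 * (2 / 7) - q1 - q2 - 2 / 21 + 4 / 3 * (q1 - b1) ≤ gap := by
  have hP : 0 < 1 - (q1 + q2) := by linarith
  refine le_trans ?_ h
  have h3 : 2 * (b1 * b2) / (1 - (q1 + q2)) ≤
      4 - 3 * (q1 + q2) - (2 + 2 * (2 / 7) - q1 - q2 - 2 / 21 + 4 / 3 * (q1 - b1)) := by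
    rw [div_le_iff₀ hP]
    have a1 : b1 * b2 ≤ b1 * q2 := mul_le_mul_of_nonneg_left hbq2 hb1
    -- `w = q1 - b1`; the two ends `w = 0` and `w = q1`
    have e0 : 0 ≤ (32 / 21 - 2 * (q1 + q2)) * (1 - (q1 + q2)) - 2 * (q1 * q2) := by
      nlinarith [mul_nonneg (sub_nonneg.2 h1) (sub_nonneg.2 h2), sq_nonneg (2 / 7 - q1),
        sq_nonneg (2 / 7 - q2)]
    have e1 : 0 ≤ (32 / 21 - 2 * (q1 + q2) - 4 / 3 * q1) * (1 - (q1 + q2)) :=
      mul_nonneg (by linarith) hP.le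
    rcases eq_or_lt_of_le (show 0 ≤ q1 by linarith) with hq | hq
    · rw [← hq] at e0 hbq1 ⊢
      have hb : b1 = 0 := le_antisymm hbq1 hb1
      rw [hb]
      nlinarith
    · have k0 := mul_nonneg hb1 e0
      have k1 := mul_nonneg (sub_nonneg.2 hbq1) e1
      have k : 0 ≤ q1 * ((4 - 3 * (q1 + q2) - (2 + 2 * (2 / 7) - q1 - q2 - 2 / 21 +
          4 / 3 * (q1 - b1))) * (1 - (q1 + q2)) - 2 * (b1 * q2)) := by
        nlinarith
      have := nonneg_of_mul_nonneg_right k hq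
      linarith
  linarith

/-- **TYPE (1), linear bonus of the first pair.** -/
theorem one_G1 (hr : IsPoset r) {x y z : Fin n} (hxz : r x z) (hne : x ≠ z) (hxy : Inc r x y)
    (hyz : Inc r y z) (hq1 : prob r y x ≤ 2 / 7) (hq2 : prob r z y ≤ 2 / 7) :
    2 + 2 * (2 / 7) - prob r y x - prob r z y - 2 / 21 + 4 / 3 * (prob r y x - gp r x y 1) ≤
      mn r x z :=
  lin_num (b1 := gp r x y 1) (b2 := gp r y z 1) hq1 hq2 (Pr_nonneg _) (gp_le_prob hr hxy)
    (gp_le_prob hr hyz) (one_G hr hxz hne hxy hyz (by linarith))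

/-- **TYPE (1), linear bonus of the second pair.** -/
theorem one_G2 (hr : IsPoset r) {x y z : Fin n} (hxz : r x z) (hne : x ≠ z) (hxy : Inc r x y)
    (hyz : Inc r y z) (hq1 : prob r y x ≤ 2 / 7) (hq2 : prob r z y ≤ 2 / 7) :
    2 + 2 * (2 / 7) - prob r y x - prob r z y - 2 / 21 + 4 / 3 * (prob r z y - gp r y z 1) ≤
      mn r x z := by
  have g2 : 0 ≤ gp r y z 1 := Pr_nonneg _
  have h := lin_num (b1 := gp r y z 1) (b2 := gp r x y 1) hq2 hq1 g2 (gp_le_prob hr hyz)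
    (gp_le_prob hr hxy) (gap := mn r x z) (by
      have := one_G hr hxz hne hxy hyz (by linarith)
      rw [add_comm (prob r z y) (prob r y x), mul_comm (gp r y z 1) (gp r x y 1)]
      exact this)
  linarith

end Pool.Agent.BFT2
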