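import Mathlib
import Pool.Agent.BFT2.Local
import Pool.Agent.BFT2.Count
import Pool.Agent.BFT2.Defect
import Pool.Agent.BFT2.OneG
import Pool.Agent.BFT2.Fl
import Pool.Agent.BFT2.Four
import Pool.Agent.BFT.Major
import Pool.Agent.Helper11.KS.Chain

/-!
# From posets to sequences (owner: helper8)

A poset `r` that is not a chain gets three least and three greatest elements (`ext 3 r`).  If
`balance r ≤ 2/7` then the majority order of the extended poset is a linear extension `π`, and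
the mean positions, reversal probabilities and adjacency probabilities of its consecutive
elements satisfy all fields of `Glob`, which is contradictory.
-/

set_option autoImplicit false

namespace Pool.Agent.BFT2

open Finset Pool.Agent.Helper1.Balance Pool.Agent.Helper8.KS Pool.Agent.Helper18.KSC Pool.Agent.BFT

section
variable {N K : ℕ} {R : Fin N → Fin N → Prop} {π : Equiv.Perm (Fin N)}

/-- the `i`-th element of the order `π` (the last one for all larger `i`) -/
def ex (π : Equiv.Perm (Fin N)) (hN : 0 < N) (i : ℕ) : Fin N :=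
  π.symm ⟨min i (N - 1), by omega⟩

theorem pi_ex (hN : 0 < N) (i : ℕ) : ((π (ex π hN i) : Fin N) : ℕ) = min i (N - 1) := by
  unfold ex
  rw [Equiv.apply_symm_apply]

theorem ex_lt (hN : 0 < N) {i j : ℕ} (hij : i < j) (hj : j < N) :
    π (ex π hN i) < π (ex π hN j) := by
  rw [Fin.lt_def, pi_ex, pi_ex]
  omega

theorem ex_ne (hN : 0 < N) {i j : ℕ} (hij : i < j) (hj : j < N) : ex π hN i ≠ ex π hN j := by
  intro h
  have := ex_lt (π := π) hN hij hj
  rw [h] at this
  exact lt_irrefl _ this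

theorem ex_eq (hN : 0 < N) {i j : ℕ} (hi : N ≤ i + 1) (hij : i ≤ j) : ex π hN i = ex π hN j := by
  unfold ex
  congr 2
  omega

/-- incomparable elements have indices below `N` -/
theorem lt_of_inc (hr : IsPoset R) (hN : 0 < N) {i j : ℕ} (h : Inc R (ex π hN i) (ex π hN (i + j)))
    : i + 1 < N := by
  by_contra hcon
  rw [ex_eq hN (by omega) (Nat.le_add_right i j)] at h
  exact h.ne hr rfl

theorem rel_of_not_inc (hr : IsPoset R) (hπ : π ∈ LEs R) (hN : 0 < N) {i j : ℕ} (hij : i ≤ j)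
    (h : ¬ Inc R (ex π hN i) (ex π hN j)) : R (ex π hN i) (ex π hN j) := by
  by_contra hcon
  by_cases h2 : R (ex π hN j) (ex π hN i)
  · have h3 := BFT.mem_LEs.1 hπ _ _ h2
    rw [Fin.le_def, pi_ex, pi_ex] at h3
    have h4 : ex π hN j = ex π hN i := by
      unfold ex
      congr 2
      omega
    rw [h4] at hcon
    exact hcon (hr.1 _)
  · exact h ⟨hcon, h2⟩

theorem prob_ex_zero (hr : IsPoset R) (hπ : π ∈ LEs R) (hN : 0 < N) {i j : ℕ} (hij : i ≤ j)
    (h : ¬ Inc R (ex π hN i) (ex π hN j)) : prob R (ex π hN j) (ex π hN i) = 0 :=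
  prob_zero_of_rel (rel_of_not_inc hr hπ hN hij h)

theorem prob_ex_le (hN : 0 < N) {t : ℝ} (ht : 0 ≤ t)
    (hmaj : ∀ x y : Fin N, π x < π y → prob R y x ≤ t) {i j : ℕ} (hij : i < j) :
    prob R (ex π hN j) (ex π hN i) ≤ t := by
  by_cases h : i + 1 < N
  · refine hmaj _ _ ?_
    rw [Fin.lt_def, pi_ex, pi_ex]
    omega
  · rw [ex_eq hN (by omega) hij.le, prob_self_zero]
    exact ht

/-- the three bottoms and the three tops -/
theorem glob_of (hNK : N = K + 4) (hN : 0 < N) (hr : IsPoset R) (hπ : π ∈ LEs R)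
    (hmaj : ∀ x y : Fin N, π x < π y → prob R y x ≤ 2 / 7)
    (hcap : ∀ i, i < 3 ∨ K + 1 ≤ i → ∀ y, ¬ Inc R (ex π hN i) y)
    (hh : ht R (ex π hN (K + 2)) + ht R (ex π hN (K + 1)) - ht R (ex π hN 1) -
      ht R (ex π hN 2) = 2 * (K : ℝ)) :
    Glob K (fun i => ht R (ex π hN i)) (fun i => prob R (ex π hN (i + 1)) (ex π hN i))
      (fun i => be R (ex π hN i) (ex π hN (i + 1)))
      (fun i => Inc R (ex π hN i) (ex π hN (i + 1)))
      (fun i => Inc R (ex π hN i) (ex π hN (i + 2)))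
      (fun i => Inc R (ex π hN i) (ex π hN (i + 3))) := by
  have hmn : ∀ i j, ht R (ex π hN j) - ht R (ex π hN i) = mn R (ex π hN i) (ex π hN j) :=
    fun i j => (mn_eq_ht R _ _).symm
  have hq : ∀ i, prob R (ex π hN (i + 1)) (ex π hN i) ≤ 2 / 7 :=
    fun i => prob_ex_le hN (by norm_num) hmaj (Nat.lt_succ_self i)
  have hlt : ∀ i, Inc R (ex π hN i) (ex π hN (i + 1)) → i + 1 < N :=
    fun i h => lt_of_inc hr hN h
  refine ⟨hh, ?_, ?_, ?_, ?_, ?_, ?_, ?_, ?_, ?_, ?_, ?_, ?_, ?_, ?_, ?_, ?_, ?_, ?_, ?_, ?_, ?_⟩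
  · exact hcap 0 (by omega) _
  · exact hcap 1 (by omega) _
  · exact hcap 2 (by omega) _
  · exact fun h => hcap (K + 1) (by omega) _ h.symm
  · exact hcap (K + 1) (by omega) _
  · exact hcap (K + 2) (by omega) _
  · -- q0
    intro i h
    exact prob_ex_zero hr hπ hN (Nat.le_succ i) h
  · -- b0
    intro i h
    exact be_comp h
  · -- hb
    intro i
    exact be_nonneg _ _
  · -- hbq
    intro i
    by_cases h : Inc R (ex π hN i) (ex π hN (i + 1))
    · show be R _ _ ≤ prob R _ _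
      rw [be_inc h]
      exact gp_le_prob hr h
    · show be R _ _ ≤ prob R _ _
      rw [be_comp h]
      exact prob_nonneg' R _ _
  · exact hq
  · -- hC
    intro j hj h
    show 1 + be R _ _ + be R _ _ ≤ ht R _ - ht R _
    rw [hmn]
    have h12 := rel_of_not_inc hr hπ hN (Nat.le_succ (j + 1)) h
    exact loc_C hr h12 (ex_ne hN (by omega) (by omega)) (ex_ne hN (by omega) (by omega))
      (ex_ne hN (by omega) (by omega)) (ex_ne hN (by omega) (by omega))
  · -- hF
    intro i h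
    show 1 + 2 / 21 < ht R _ - ht R _ + 2 * be R _ _
    rw [hmn, be_inc h]
    exact fl hr h (hq i)
  · -- hG
    intro i h1 h2 h3
    have e1 := hlt i h1
    have e2 := hlt (i + 1) h2
    show 4 - 3 * (prob R _ _ + prob R _ _) - 2 * (be R _ _ * be R _ _) /
      (1 - (prob R _ _ + prob R _ _)) ≤ ht R _ - ht R _
    rw [hmn, be_inc h1, be_inc h2]
    have h13 := rel_of_not_inc hr hπ hN (by omega) h3
    have a1 := hq i
    have a2 := hq (i + 1)
    exact one_G hr h13 (ex_ne hN (by omega) (by omega)) h1 h2 (by linarith)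
  · -- nqq
    intro j h0 h1 h2 h3 hf hd hd'
    have e3 := hlt (j + 3) h3
    show 2 + prob R _ _ - prob R _ _ - prob R _ _ + prob R _ _ ≤ ht R _ - ht R _
    rw [hmn]
    have k1 := rel_of_not_inc hr hπ hN (i := j + 1) (j := j + 3) (by omega) hf
    have k2 := rel_of_not_inc hr hπ hN (i := j) (j := j + 3) (by omega) hd
    have k3 := rel_of_not_inc hr hπ hN (i := j + 1) (j := j + 4) (by omega) hd'
    have t := loc_qq hr (x0 := ex π hN j) (x1 := ex π hN (j + 1)) (x2 := ex π hN (j + 2))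
      (x3 := ex π hN (j + 3)) (x4 := ex π hN (j + 4)) k1 k2 k3
      (ex_ne hN (by omega) (by omega)) (ex_ne hN (by omega) (by omega))
      (ex_ne hN (by omega) (by omega)) (ex_ne hN (by omega) (by omega))
      (ex_ne hN (by omega) (by omega)) (ex_ne hN (by omega) (by omega))
      (ex_ne hN (by omega) (by omega)) (ex_ne hN (by omega) (by omega))
    refine le_trans (le_of_eq ?_) t
    ring
  · -- nbq
    intro j h0 h1 h2 h3 hf hd'
    have e3 := hlt (j + 3) h3
    show 2 + be R _ _ - prob R _ _ - prob R _ _ + prob R _ _ ≤ ht R _ - ht R _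
    rw [hmn]
    have k1 := rel_of_not_inc hr hπ hN (i := j + 1) (j := j + 3) (by omega) hf
    have k3 := rel_of_not_inc hr hπ hN (i := j + 1) (j := j + 4) (by omega) hd'
    have t := loc_bq hr (x0 := ex π hN j) (x1 := ex π hN (j + 1)) (x2 := ex π hN (j + 2))
      (x3 := ex π hN (j + 3)) (x4 := ex π hN (j + 4)) k1 k3
      (ex_ne hN (by omega) (by omega)) (ex_ne hN (by omega) (by omega))
      (ex_ne hN (by omega) (by omega)) (ex_ne hN (by omega) (by omega))
      (ex_ne hN (by omega) (by omega)) (ex_ne hN (by omega) (by omega))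
      (ex_ne hN (by omega) (by omega)) (ex_ne hN (by omega) (by omega))
    refine le_trans (le_of_eq ?_) t
    ring
  · -- nqb
    intro j h0 h1 h2 h3 hf hd
    have e3 := hlt (j + 3) h3
    show 2 + prob R _ _ - prob R _ _ - prob R _ _ + be R _ _ ≤ ht R _ - ht R _
    rw [hmn]
    have k1 := rel_of_not_inc hr hπ hN (i := j + 1) (j := j + 3) (by omega) hf
    have k2 := rel_of_not_inc hr hπ hN (i := j) (j := j + 3) (by omega) hd
    have t := loc_qb hr (x0 := ex π hN j) (x1 := ex π hN (j + 1)) (x2 := ex π hN (j + 2))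
      (x3 := ex π hN (j + 3)) (x4 := ex π hN (j + 4)) k1 k2
      (ex_ne hN (by omega) (by omega)) (ex_ne hN (by omega) (by omega))
      (ex_ne hN (by omega) (by omega)) (ex_ne hN (by omega) (by omega))
      (ex_ne hN (by omega) (by omega)) (ex_ne hN (by omega) (by omega))
      (ex_ne hN (by omega) (by omega)) (ex_ne hN (by omega) (by omega))
    refine le_trans (le_of_eq ?_) t
    ring
  · -- nbb
    intro j h0 h1 h2 h3 hf
    have e3 := hlt (j + 3) h3
    show 2 + be R _ _ - prob R _ _ - prob R _ _ + be R _ _ ≤ ht R _ - ht R _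
    rw [hmn]
    have k1 := rel_of_not_inc hr hπ hN (i := j + 1) (j := j + 3) (by omega) hf
    have t := loc_bb hr (x0 := ex π hN j) (x1 := ex π hN (j + 1)) (x2 := ex π hN (j + 2))
      (x3 := ex π hN (j + 3)) (x4 := ex π hN (j + 4)) k1
      (ex_ne hN (by omega) (by omega)) (ex_ne hN (by omega) (by omega))
      (ex_ne hN (by omega) (by omega)) (ex_ne hN (by omega) (by omega))
      (ex_ne hN (by omega) (by omega)) (ex_ne hN (by omega) (by omega))
      (ex_ne hN (by omega) (by omega)) (ex_ne hN (by omega) (by omega))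
    refine le_trans (le_of_eq ?_) t
    ring
  · -- hLr
    intro j h0 h1 h2 h3 hf hf' hd
    have e3 := hlt (j + 3) h3
    show 2 + prob R _ _ - prob R _ _ - prob R _ _ + prob R _ _ ≤ ht R _ - ht R _
    rw [hmn]
    have k1 := rel_of_not_inc hr hπ hN (i := j + 1) (j := j + 3) (by omega) hf
    have k2 := rel_of_not_inc hr hπ hN (i := j + 2) (j := j + 4) (by omega) hf'
    have t := defect_right hr (a := ex π hN (j + 1)) (b := ex π hN (j + 2))
      (c := ex π hN (j + 3)) (e := ex π hN (j + 4)) k1 k2 h1 h2 h3 hd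
      (ex_ne hN (by omega) (by omega)) (ex_ne hN (by omega) (by omega)) (d := 2 / 7)
      (q0 := prob R (ex π hN (j + 1)) (ex π hN j)) (hq j) (hq (j + 1)) (hq (j + 2)) (hq (j + 3))
    refine le_trans (le_of_eq ?_) t
    ring
  · -- hLl
    intro j h0 h1 h2 h3 hf hf' hd
    have e3 := hlt (j + 3) h3
    show 2 + prob R _ _ - prob R _ _ - prob R _ _ + prob R _ _ ≤ ht R _ - ht R _
    rw [hmn]
    have k1 := rel_of_not_inc hr hπ hN (i := j) (j := j + 2) (by omega) hf'
    have k2 := rel_of_not_inc hr hπ hN (i := j + 1) (j := j + 3) (by omega) hf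
    have t := defect_left hr (a := ex π hN j) (b := ex π hN (j + 1))
      (c := ex π hN (j + 2)) (e := ex π hN (j + 3)) k1 k2 h0 h1 h2 hd
      (ex_ne hN (by omega) (by omega)) (ex_ne hN (by omega) (by omega)) (d := 2 / 7)
      (q4 := prob R (ex π hN (j + 3 + 1)) (ex π hN (j + 3))) (hq j) (hq (j + 1)) (hq (j + 2))
      (hq (j + 3))
    refine le_trans (le_of_eq ?_) t
    ring
  · -- hR
    intro i h1 h2 h3
    show 2 + (4 / 7 - prob R _ _ - prob R _ _) + pay (prob R _ _ - be R _ _)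
      (prob R _ _ - be R _ _) + pay (prob R _ _ - be R _ _) (prob R _ _ - be R _ _) ≤
      ht R _ - ht R _
    rw [hmn, be_inc h1, be_inc h2]
    exact four hr h1 h2 h3 (hq i) (hq (i + 1))
      (prob_ex_le hN (by norm_num) hmaj (by omega))

/-- an incomparable pair gives an incomparable consecutive pair -/
theorem exists_inc (hr : IsPoset R) (hπ : π ∈ LEs R) (hN : 0 < N) {x y : Fin N} (h : Inc R x y) :
    ∃ i, i + 1 < N ∧ Inc R (ex π hN i) (ex π hN (i + 1)) := by
  by_contra hcon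
  push Not at hcon
  have h1 : ∀ i, R (ex π hN i) (ex π hN (i + 1)) := by
    intro i
    by_cases hi : i + 1 < N
    · exact rel_of_not_inc hr hπ hN (Nat.le_succ i) (hcon i hi)
    · rw [ex_eq hN (by omega) (Nat.le_succ i)]
      exact hr.1 _
  have h2 : ∀ i k, R (ex π hN i) (ex π hN (i + k)) := by
    intro i k
    induction k with
    | zero => exact hr.1 _
    | succ k ih => exact hr.2.1 _ _ _ ih (h1 (i + k))
  have h3 : ∀ z : Fin N, ex π hN (π z) = z := by
    intro z
    unfold ex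
    rw [Equiv.symm_apply_eq]
    apply Fin.ext
    have := (π z).2
    show min _ _ = _
    omega
  rcases le_total (π x) (π y) with h4 | h4
  · rw [Fin.le_def] at h4
    have := h2 (π x) ((π y : ℕ) - (π x : ℕ))
    rw [Nat.add_sub_cancel' h4, h3, h3] at this
    exact h.1 this
  · rw [Fin.le_def] at h4
    have := h2 (π y) ((π x : ℕ) - (π y : ℕ))
    rw [Nat.add_sub_cancel' h4, h3, h3] at this
    exact h.2 this

end

section
variable {n : ℕ} {r : Fin n → Fin n → Prop}

open Pool.Agent.Helper11.Chain in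
theorem not_inc_chain (r : Fin n → Fin n → Prop) (q y : Fin (3 + n + 3))
    (hq : (q : ℕ) < 3 ∨ 3 + n ≤ (q : ℕ)) : ¬ Inc (ext 3 r) q y := by
  rintro ⟨h1, h2⟩
  rcases le_total q y with hl | hl
  · rcases hq with hq | hq
    · exact h1 (Or.inl ⟨hq, hl⟩)
    · exact h1 (Or.inr (Or.inl ⟨le_trans hq hl, hl⟩))
  · rcases hq with hq | hq
    · exact h2 (Or.inl ⟨lt_of_le_of_lt hl hq, hl⟩)
    · exact h2 (Or.inr (Or.inl ⟨hq, hl⟩))

open Pool.Agent.Helper11.Chain in
theorem balance_ext_le (hr : IsPoset r) {t : ℝ} (ht : 0 ≤ t) (hb : balance r ≤ t) :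
    balance (ext 3 r) ≤ t := by
  unfold balance
  refine Real.sSup_le ?_ ht
  rintro s ⟨x, y, h1, h2, rfl⟩
  have hx : ¬ ((x : ℕ) < 3 ∨ 3 + n ≤ (x : ℕ)) := fun h => not_inc_chain r x y h ⟨h1, h2⟩
  have hy : ¬ ((y : ℕ) < 3 ∨ 3 + n ≤ (y : ℕ)) := fun h => not_inc_chain r y x h ⟨h2, h1⟩
  obtain ⟨a, rfl⟩ := exists_emb 3 x (by omega) (by omega)
  obtain ⟨b, rfl⟩ := exists_emb 3 y (by omega) (by omega)
  rw [ext_emb] at h1 h2
  rw [prob_ext, prob_ext]
  exact (min_le_balance' r hr h1 h2).trans hb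

open Pool.Agent.Helper11.Chain in
/-- **Every finite poset that is not a chain has balance constant above `2/7`.** -/
theorem two_sevenths (hr : IsPoset r) (hex : ∃ x y : Fin n, ¬ r x y ∧ ¬ r y x) :
    2 / 7 < balance r := by
  by_contra hcon
  push Not at hcon
  have hE := ext_isPoset 3 r hr
  obtain ⟨π, hπ, hmaj⟩ := exists_major hE (by norm_num : (0 : ℝ) ≤ 2 / 7)
    (by norm_num : (2 / 7 : ℝ) < 1 / 3) (balance_ext_le hr (by norm_num) hcon)
  have hN : 0 < 3 + n + 3 := by omega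
  have hNK : 3 + n + 3 = (n + 2) + 4 := by ring
  have hfix : ∀ i, i < 3 ∨ (n + 2) + 1 ≤ i → ((ex π hN i : Fin (3 + n + 3)) : ℕ) =
      min i (3 + n + 3 - 1) := by
    intro i hi
    unfold ex
    have h1 : π ⟨min i (3 + n + 3 - 1), by omega⟩ = ⟨min i (3 + n + 3 - 1), by omega⟩ :=
      le_chain 3 r hπ _ (by
        show min i (3 + n + 3 - 1) < 3 ∨ 3 + n ≤ min i (3 + n + 3 - 1)
        omega)
    rw [(Equiv.symm_apply_eq π).2 h1.symm]
  have hmem : ∀ i, i < 3 ∨ (n + 2) + 1 ≤ i → ((ex π hN i : Fin (3 + n + 3)) : ℕ) < 3 ∨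
      3 + n ≤ ((ex π hN i : Fin (3 + n + 3)) : ℕ) := by
    intro i hi
    rw [hfix i hi]
    omega
  have hcap : ∀ i, i < 3 ∨ (n + 2) + 1 ≤ i → ∀ y, ¬ Inc (ext 3 r) (ex π hN i) y :=
    fun i hi y => not_inc_chain r _ y (hmem i hi)
  have hht : ∀ i, i < 3 ∨ (n + 2) + 1 ≤ i → i ≤ n + 5 → ht (ext 3 r) (ex π hN i) = (i : ℝ) + 1 := by
    intro i hi hi2
    rw [ht_chain 3 r hr _ (hmem i hi), hfix i hi, min_eq_left (by omega)]
  have hh : ht (ext 3 r) (ex π hN (n + 2 + 2)) + ht (ext 3 r) (ex π hN (n + 2 + 1)) -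
      ht (ext 3 r) (ex π hN 1) - ht (ext 3 r) (ex π hN 2) = 2 * ((n + 2 : ℕ) : ℝ) := by
    rw [hht _ (by omega) (by omega), hht _ (by omega) (by omega), hht 1 (by omega) (by omega),
      hht 2 (by omega) (by omega)]
    push_cast
    ring
  have hG := glob_of hNK hN hE hπ hmaj hcap hh
  obtain ⟨x, y, h1, h2⟩ := hex
  have hinc : Inc (ext 3 r) (emb 3 x) (emb 3 y) :=
    ⟨fun h => h1 ((ext_emb 3 r x y).1 h), fun h => h2 ((ext_emb 3 r y x).1 h)⟩
  obtain ⟨i, hi1, hi2⟩ := exists_inc hE hπ hN hinc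
  exact hG.false ⟨i, by omega, hi2⟩

end

end Pool.Agent.BFT2
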