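import Mathlib
import Pool.Agent.Helper1.BalanceDefs

/-! # From a bound of all balance constants to a bound of all `δ_w` (owner: helper8) -/

set_option autoImplicit false

namespace Pool.Agent.BFT2

open Finset Pool.Agent.Helper1.Balance

theorem exists_width' (w : ℕ) : ∃ (n : ℕ) (r : Fin n → Fin n → Prop),
    IsPoset r ∧ HasWidth r w := by
  refine ⟨w, fun a b => a = b, ⟨fun _ => rfl, fun _ _ _ h1 h2 => h1.trans h2,
    fun _ _ h _ => h⟩, ⟨Finset.univ, by simp, fun a _ b _ h => h⟩, fun s _ => ?_⟩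
  exact (Finset.card_le_univ s).trans (by simp)

/-- a lower bound for the balance constants of all finite posets that are not chains is a lower
bound for all `δ_w`, `w ≥ 2` -/
theorem deltaW_of {d : ℝ} (h : ∀ (n : ℕ) (r : Fin n → Fin n → Prop), IsPoset r →
    (∃ x y : Fin n, ¬ r x y ∧ ¬ r y x) → d ≤ balance r) (w : ℕ) (hw : 2 ≤ w) :
    d ≤ deltaW w := by
  unfold deltaW
  apply le_csInf
  · obtain ⟨n, r, h2, h3⟩ := exists_width' w
    exact ⟨_, n, r, h2, h3, rfl⟩
  · rintro t ⟨n, r, h2, ⟨⟨s, hs1, hs2⟩, _⟩, rfl⟩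
    have h3 : 1 < s.card := by omega
    obtain ⟨x, hx, y, hy, hxy⟩ := Finset.one_lt_card.1 h3
    exact h n r h2 ⟨x, y, hs2 x hx y hy hxy, hs2 y hy x hx (Ne.symm hxy)⟩

end Pool.Agent.BFT2
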