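import Mathlib
import Pool.Agent.BFT2.Assembly
import Pool.Agent.BFT2.DeltaW

/-! # The bound 2/7 (owner: helper8) -/

set_option autoImplicit false

namespace Pool.Agent.BFT2

open Pool.Agent.Helper1.Balance

theorem main :
    (∀ (n : ℕ) (r : Fin n → Fin n → Prop), IsPoset r → (∃ x y : Fin n, ¬ r x y ∧ ¬ r y x) →
      2 / 7 < balance r) ∧
    (∀ w : ℕ, 2 ≤ w → 2 / 7 ≤ deltaW w) :=
  ⟨fun _ _ hr hex => two_sevenths hr hex,
    deltaW_of (fun _ _ hr hex => (two_sevenths hr hex).le)⟩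

end Pool.Agent.BFT2
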