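import Mathlib
import Pool.Agent.BFT2.FourSum

/-! # Exchange inequalities for the truncated law (owner: helper68) -/

set_option autoImplicit false

namespace Pool.Agent.BFT2

open Finset Pool.Agent.Helper1.Balance Pool.Agent.Helper8.KS Pool.Agent.Helper18.KSC Pool.Agent.BFT

variable {n : ℕ} {r : Fin n → Fin n → Prop} {a b c : Fin n}

namespace FE

theorem mono {p q : Equiv.Perm (Fin n) → Prop} (h : ∀ σ, p σ → q σ) : Pr r p ≤ Pr r q :=
  Pr_le_of_inj' p q id id (fun σ hσ hp => ⟨hσ, h σ hp⟩) fun _ _ _ => rfl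

theorem tl_pos {l : ℕ} (h1 : 1 ≤ l) {d : ℤ} (h : tl l d) : 1 ≤ d := by
  unfold tl at h
  split_ifs at h with h4 <;> omega

theorem tl_lt {l : ℕ} (h3 : l ≤ 3) {d : ℤ} : tl l d ↔ d = l := by
  unfold tl
  rw [if_pos (by omega)]

theorem tl_shift {l : ℕ} (h3 : l ≤ 3) {d : ℤ} (h : tl l (d - 1)) : tl (l + 1) d := by
  rw [tl_lt h3] at h
  unfold tl
  split_ifs with h4
  · push_cast
    omega
  · omega

theorem ff_eq (a b c : Fin n) {k : ℕ} (hk : k ≤ 3) (l : ℕ) :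
    ff r a b c k l = Pr r (fun σ => D a b σ = k ∧ tl l (D b c σ)) := by
  unfold ff
  simp only [tl_lt hk]

theorem ff_one (a b c : Fin n) (l : ℕ) :
    ff r a b c 1 l = Pr r (fun σ => D a b σ = 1 ∧ tl l (D b c σ)) := by
  rw [ff_eq a b c (by norm_num)]
  simp only [Nat.cast_one]

theorem ff_two (a b c : Fin n) (l : ℕ) :
    ff r a b c 2 l = Pr r (fun σ => D a b σ = 2 ∧ tl l (D b c σ)) := by
  rw [ff_eq a b c (by norm_num)]
  simp only [Nat.cast_ofNat]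

theorem ff_three (a b c : Fin n) (l : ℕ) :
    ff r a b c 3 l = Pr r (fun σ => D a b σ = 3 ∧ tl l (D b c σ)) := by
  rw [ff_eq a b c (by norm_num)]
  simp only [Nat.cast_ofNat]

/-- splitting the tail `≥ 3` -/
theorem tail_three (a b c : Fin n) (k : ℤ) :
    Pr r (fun σ => D a b σ = k ∧ 3 ≤ D b c σ) =
      Pr r (fun σ => D a b σ = k ∧ tl 3 (D b c σ)) +
        Pr r (fun σ => D a b σ = k ∧ tl 4 (D b c σ)) := by
  rw [Pr_split r (fun σ => D a b σ = k ∧ 3 ≤ D b c σ) (fun σ => D b c σ = 3)]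
  congr 1
  · congr 1
    funext σ
    rw [tl_lt (le_refl 3)]
    apply propext
    push_cast
    constructor
    · rintro ⟨⟨h1, h2⟩, h3⟩
      exact ⟨h1, h3⟩
    · rintro ⟨h1, h3⟩
      exact ⟨⟨h1, by omega⟩, h3⟩
  · congr 1
    funext σ
    rw [tl_four]
    apply propext
    constructor
    · rintro ⟨⟨h1, h2⟩, h3⟩
      exact ⟨h1, by omega⟩
    · rintro ⟨h1, h3⟩
      exact ⟨⟨h1, by omega⟩, by omega⟩

end FE

open FE

theorem ff_E2a (hr : IsPoset r) (h : Inc r a b) (hca : c ≠ a) (hcb : c ≠ b) {l : ℕ}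
    (h1 : 1 ≤ l) (h3 : l ≤ 3) :
    ff r a b c 2 l + ff r b a c 2 l ≤ ff r a b c 1 l + ff r a b c 1 (l + 1) := by
  rw [ff_two, ff_two, ff_one, ff_one]
  refine (Pr_two_le hr h hca hcb (tl l) (fun d hd => tl_pos h1 hd)).trans ?_
  refine add_le_add le_rfl (mono ?_)
  rintro σ ⟨h4, h5⟩
  exact ⟨h4, tl_shift h3 h5⟩

theorem ff_E2a4 (hr : IsPoset r) (h : Inc r a b) (hca : c ≠ a) (hcb : c ≠ b) :
    ff r a b c 2 4 + ff r b a c 2 4 ≤ 2 * ff r a b c 1 4 := by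
  rw [ff_two, ff_two, ff_one, two_mul]
  refine (Pr_two_le hr h hca hcb (tl 4) (fun d hd => tl_pos (by norm_num) hd)).trans ?_
  refine add_le_add le_rfl (mono ?_)
  rintro σ ⟨h4, h5⟩
  rw [tl_four] at h5 ⊢
  exact ⟨h4, by omega⟩

theorem ff_E2a5 (hr : IsPoset r) (h : Inc r a b) (hca : c ≠ a) (hcb : c ≠ b) :
    ff r a b c 2 3 + ff r a b c 2 4 + ff r b a c 2 3 + ff r b a c 2 4 ≤
      ff r a b c 1 3 + 2 * ff r a b c 1 4 := by
  have h1 := Pr_two_le hr h hca hcb (fun d => 3 ≤ d) (fun d hd => by omega)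
  have h2 : Pr r (fun σ => D a b σ = 1 ∧ 3 ≤ D b c σ - 1) ≤
      Pr r (fun σ => D a b σ = 1 ∧ tl 4 (D b c σ)) := by
    refine mono ?_
    rintro σ ⟨h4, h5⟩
    rw [tl_four]
    exact ⟨h4, by omega⟩
  rw [tail_three, tail_three, tail_three] at h1
  rw [ff_two, ff_two, ff_two, ff_two, ff_one, ff_one]
  linarith

theorem ff_E3a (hr : IsPoset r) (h : Inc r a b) (hca : c ≠ a) (hcb : c ≠ b) {l : ℕ}
    (h1 : 1 ≤ l) (h3 : l ≤ 3) : ff r a b c 3 l ≤ ff r a b c 2 l + ff r a b c 2 (l + 1) := by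
  rw [ff_three, ff_two, ff_two]
  refine (Pr_three_le hr h hca hcb (tl l) (fun d hd => tl_pos h1 hd)).trans ?_
  refine add_le_add le_rfl (mono ?_)
  rintro σ ⟨h4, h5⟩
  exact ⟨h4, tl_shift h3 h5⟩

theorem ff_E3a4 (hr : IsPoset r) (h : Inc r a b) (hca : c ≠ a) (hcb : c ≠ b) :
    ff r a b c 3 4 ≤ 2 * ff r a b c 2 4 := by
  rw [ff_three, ff_two, two_mul]
  refine (Pr_three_le hr h hca hcb (tl 4) (fun d hd => tl_pos (by norm_num) hd)).trans ?_
  refine add_le_add le_rfl (mono ?_)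
  rintro σ ⟨h4, h5⟩
  rw [tl_four] at h5 ⊢
  exact ⟨h4, by omega⟩

theorem ff_E2b (hr : IsPoset r) (h : Inc r b c) (hab : a ≠ b) (hac : a ≠ c) {k : ℕ}
    (h1 : 1 ≤ k) (h3 : k ≤ 3) :
    ff r a b c k 2 + ff r a c b k 2 ≤ ff r a b c k 1 + ff r a b c (k + 1) 1 := by
  have := ff_E2a (r := op r) (op_isPoset hr) (op_inc.2 h.symm) hac hab h1 h3
  rw [ff_op, ff_op, ff_op, ff_op] at this
  exact this

theorem ff_E2b4 (hr : IsPoset r) (h : Inc r b c) (hab : a ≠ b) (hac : a ≠ c) :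
    ff r a b c 4 2 + ff r a c b 4 2 ≤ 2 * ff r a b c 4 1 := by
  have := ff_E2a4 (r := op r) (op_isPoset hr) (op_inc.2 h.symm) hac hab
  rw [ff_op, ff_op, ff_op] at this
  exact this

theorem ff_E2b5 (hr : IsPoset r) (h : Inc r b c) (hab : a ≠ b) (hac : a ≠ c) :
    ff r a b c 3 2 + ff r a b c 4 2 + ff r a c b 3 2 + ff r a c b 4 2 ≤
      ff r a b c 3 1 + 2 * ff r a b c 4 1 := by
  have := ff_E2a5 (r := op r) (op_isPoset hr) (op_inc.2 h.symm) hac hab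
  rw [ff_op, ff_op, ff_op, ff_op, ff_op, ff_op] at this
  exact this

theorem ff_E3b (hr : IsPoset r) (h : Inc r b c) (hab : a ≠ b) (hac : a ≠ c) {k : ℕ}
    (h1 : 1 ≤ k) (h3 : k ≤ 3) : ff r a b c k 3 ≤ ff r a b c k 2 + ff r a b c (k + 1) 2 := by
  have := ff_E3a (r := op r) (op_isPoset hr) (op_inc.2 h.symm) hac hab h1 h3
  rw [ff_op, ff_op, ff_op] at this
  exact this

theorem ff_E3b4 (hr : IsPoset r) (h : Inc r b c) (hab : a ≠ b) (hac : a ≠ c) :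
    ff r a b c 4 3 ≤ 2 * ff r a b c 4 2 := by
  have := ff_E3a4 (r := op r) (op_isPoset hr) (op_inc.2 h.symm) hac hab
  rw [ff_op, ff_op] at this
  exact this

end Pool.Agent.BFT2
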