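import Mathlib
import Pool.Agent.BFT.Pair
import Pool.Agent.BFT.CP
import Pool.Agent.BFT2.FourSum

/-! # The fields T1, T2, XYZ of the law structure (owner: helper18) -/

set_option autoImplicit false

namespace Pool.Agent.BFT2

open Finset Pool.Agent.Helper1.Balance Pool.Agent.Helper8.KS Pool.Agent.Helper18.KSC Pool.Agent.BFT
open Pool.Agent.BFT.One

variable {n : ℕ} {r : Fin n → Fin n → Prop}

theorem log_72 {q : ℝ} (h0 : 0 < q) (h1 : q ≤ 2 / 7) : 1.2527 ≤ Real.log (1 / q) := by
  have h2 : Real.exp 1.2527 ≤ 1 / q := by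
    have h3 : Real.exp 1.2527 ≤ 7 / 2 := by
      have h4 := Real.exp_bound' (x := 0.2527) (by norm_num) (by norm_num) (n := 8) (by norm_num)
      have h5 : Real.exp 1.2527 = Real.exp 1 * Real.exp 0.2527 := by
        rw [← Real.exp_add]; norm_num
      have h6 : Real.exp 1 < 2.7182818286 := Real.exp_one_lt_d9
      rw [h5]
      have h7 : Real.exp 0.2527 ≤ 1.28750 := by
        refine h4.trans ?_
        simp only [Finset.sum_range_succ, Finset.sum_range_zero, Nat.factorial]
        norm_num
      have h8 : 0 < Real.exp 0.2527 := Real.exp_pos _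
      have h9 : Real.exp 1 * Real.exp 0.2527 ≤ 2.7182818286 * 1.28750 := by
        apply mul_le_mul h6.le h7 h8.le (by norm_num)
      refine h9.trans ?_
      norm_num
    refine h3.trans ?_
    rw [le_div_iff₀ h0]
    linarith
  rw [Real.le_log_iff_exp_le (by positivity)]
  exact h2

/-- T1 -/
theorem T1_pair (hr : IsPoset r) {x y : Fin n} (h : Inc r x y) :
    mneg r x y * gp r x y 1 ≤ prob r y x ^ 2 := (pairIneq hr h).T1

/-- T2 -/
theorem T2_pair (hr : IsPoset r) {x y : Fin n} (h : Inc r x y) (hq : prob r y x ≤ 2 / 7) :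
    0.2527 * mneg r x y ≤ 2 / 7 * mn r x y := by
  have P := pairIneq hr h
  have h1 := log_72 P.q_pos hq
  have h2 := P.T2
  have h3 := P.m_nonneg
  have h4 : 0.2527 * mneg r x y ≤ prob r y x * mn r x y := by nlinarith
  have h5 : 0 ≤ mn r x y := by
    by_contra hc
    push Not at hc
    have := P.q_pos
    nlinarith
  nlinarith

/-- XYZ -/
theorem ord_xyz (hr : IsPoset r) {x y z : Fin n} (hxy : x ≠ y) (hyz : y ≠ z) (hxz : x ≠ z) :
    ord r z y x ≤ prob r z y * prob r y x := by
  refine le_trans (le_of_eq ?_) (xyz hr hxy hyz hxz)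
  unfold ord
  congr 1
  funext σ
  unfold D
  rw [Fin.lt_def, Fin.lt_def]
  apply propext
  constructor
  · rintro ⟨h1, h2⟩
    exact ⟨by omega, by omega⟩
  · rintro ⟨h1, h2⟩
    exact ⟨by omega, by omega⟩

end Pool.Agent.BFT2
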