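import Mathlib
import Pool.Agent.BFT.Defs

/-! # Telescoping of the losses (owner: helper18) -/

set_option autoImplicit false

namespace Pool.Agent.BFT2

open Finset Pool.Agent.Helper1.Balance Pool.Agent.Helper8.KS Pool.Agent.Helper18.KSC Pool.Agent.BFT

/-- even indices are increasing -/
theorem lt_even {p : ℕ → ℤ} {M : ℕ} (hp : ∀ i, i + 2 ≤ M → p i < p (i + 2)) {i k : ℕ} (hk : 1 ≤ k)
    (h : i + 2 * k ≤ M) : p i < p (i + 2 * k) := by
  induction k, hk using Nat.le_induction with
  | base => exact hp i (by omega)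
  | succ k hk ih =>
    have h1 := ih (by omega)
    have h2 := hp (i + 2 * k) (by omega)
    have e : i + 2 * (k + 1) = i + 2 * k + 2 := by ring
    rw [e]
    exact h1.trans h2

/-- the integer inequality: distinct integers with `p i < p (i + 2)` -/
theorem tele_int (p : ℕ → ℤ) (N : ℕ) (hN : 1 ≤ N)
    (hinj : ∀ i ≤ 2 * N + 2, ∀ j ≤ 2 * N + 2, p i = p j → i = j)
    (hp : ∀ i, i + 2 ≤ 2 * N + 2 → p i < p (i + 2)) :
    2 * (N : ℤ) + (if p 1 < p 0 then 1 else 0) + (if p (2 * N + 2) < p (2 * N + 1) then 1 else 0)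
      - max (p 1 - p 2) 0 - max (p (2 * N) - p (2 * N + 1)) 0 ≤ p (2 * N + 1) - p 1 := by
  classical
  -- the two families
  set A : Finset ℤ := (Finset.range N).image (fun k => p (2 * k + 3)) with hA
  set B : Finset ℤ := (Finset.range (N + 2)).image (fun k => p (2 * k)) with hB
  have hAc : A.card = N := by
    rw [hA, Finset.card_image_of_injOn, Finset.card_range]
    intro i hi j hj h
    have hi' := Finset.mem_range.1 (Finset.mem_coe.1 hi)
    have hj' := Finset.mem_range.1 (Finset.mem_coe.1 hj)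
    have := hinj _ (by omega) _ (by omega) h
    omega
  have hBc : B.card = N + 2 := by
    rw [hB, Finset.card_image_of_injOn, Finset.card_range]
    intro i hi j hj h
    have hi' := Finset.mem_range.1 (Finset.mem_coe.1 hi)
    have hj' := Finset.mem_range.1 (Finset.mem_coe.1 hj)
    have := hinj _ (by omega) _ (by omega) h
    omega
  have h1b : p 1 < p (2 * N + 1) := by
    have := lt_even hp (i := 1) hN (by omega)
    rwa [Nat.add_comm 1 (2 * N)] at this
  -- middle
  have hmid : (N : ℤ) + (B.filter (fun t => p 1 < t ∧ t < p (2 * N + 1))).card ≤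
      p (2 * N + 1) - p 1 := by
    have hd : Disjoint A (B.filter (fun t => p 1 < t ∧ t < p (2 * N + 1))) := by
      rw [Finset.disjoint_left]
      intro t ht ht'
      rw [hA, Finset.mem_image] at ht
      obtain ⟨i, hi, rfl⟩ := ht
      rw [Finset.mem_filter, hB, Finset.mem_image] at ht'
      obtain ⟨⟨j, hj, h⟩, _⟩ := ht'
      rw [Finset.mem_range] at hi hj
      have := hinj _ (by omega) _ (by omega) h
      omega
    have hs : A ∪ B.filter (fun t => p 1 < t ∧ t < p (2 * N + 1)) ⊆
        Finset.Ioc (p 1) (p (2 * N + 1)) := by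
      intro t ht
      rw [Finset.mem_union] at ht
      rw [Finset.mem_Ioc]
      rcases ht with ht | ht
      · rw [hA, Finset.mem_image] at ht
        obtain ⟨i, hi, rfl⟩ := ht
        rw [Finset.mem_range] at hi
        constructor
        · have := lt_even hp (i := 1) (k := i + 1) (by omega) (by omega)
          have e : 1 + 2 * (i + 1) = 2 * i + 3 := by ring
          rwa [e] at this
        · rcases Nat.eq_or_lt_of_le (show i + 1 ≤ N by omega) with h | h
          · have e : 2 * i + 3 = 2 * N + 1 := by omega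
            rw [e]
          · have := lt_even hp (i := 2 * i + 3) (k := N - (i + 1)) (by omega) (by omega)
            have e : 2 * i + 3 + 2 * (N - (i + 1)) = 2 * N + 1 := by omega
            rw [e] at this
            exact this.le
      · rw [Finset.mem_filter] at ht
        exact ⟨ht.2.1, ht.2.2.le⟩
    have h2 := Finset.card_le_card hs
    rw [Finset.card_union_of_disjoint hd, hAc, Int.card_Ioc] at h2
    have h3 : (((p (2 * N + 1) - p 1).toNat : ℕ) : ℤ) = p (2 * N + 1) - p 1 :=
      Int.toNat_of_nonneg (by omega)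
    have h4 : ((N + (B.filter (fun t => p 1 < t ∧ t < p (2 * N + 1))).card : ℕ) : ℤ) ≤
        (((p (2 * N + 1) - p 1).toNat : ℕ) : ℤ) := by exact_mod_cast h2
    rw [h3] at h4
    push_cast at h4
    exact h4
  -- below
  have hlow : ((B.filter (fun t => t < p 1)).card : ℤ) ≤
      (1 - (if p 1 < p 0 then 1 else 0)) + max (p 1 - p 2) 0 := by
    have hs : B.filter (fun t => t < p 1) ⊆
        (if p 1 < p 0 then ∅ else {p 0}) ∪ Finset.Ico (p 2) (p 1) := by
      intro t ht
      rw [Finset.mem_filter, hB, Finset.mem_image] at ht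
      obtain ⟨⟨j, hj, rfl⟩, ht⟩ := ht
      rw [Finset.mem_range] at hj
      rw [Finset.mem_union]
      rcases Nat.eq_zero_or_pos j with rfl | hj0
      · left
        rw [if_neg (by simpa using ht.le)]
        simp
      · right
        rw [Finset.mem_Ico]
        refine ⟨?_, ht⟩
        rcases Nat.eq_or_lt_of_le (show 1 ≤ j from hj0) with h | h
        · rw [← h]
        · have := lt_even hp (i := 2) (k := j - 1) (by omega) (by omega)
          have e : 2 + 2 * (j - 1) = 2 * j := by omega
          rw [e] at this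
          exact this.le
    have h2 := (Finset.card_le_card hs).trans (Finset.card_union_le _ _)
    rw [Int.card_Ico] at h2
    have h3 : (((p 1 - p 2).toNat : ℕ) : ℤ) = max (p 1 - p 2) 0 := Int.toNat_eq_max _
    have h4 : ((B.filter (fun t => t < p 1)).card : ℤ) ≤
        (((if p 1 < p 0 then (∅ : Finset ℤ) else {p 0}).card : ℕ) : ℤ) + (((p 1 - p 2).toNat : ℕ) : ℤ) := by
      exact_mod_cast h2
    rw [h3] at h4
    refine h4.trans (le_of_eq ?_)
    split_ifs <;> simp
  -- above
  have hup : ((B.filter (fun t => p (2 * N + 1) < t)).card : ℤ) ≤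
      (1 - (if p (2 * N + 2) < p (2 * N + 1) then 1 else 0)) + max (p (2 * N) - p (2 * N + 1)) 0 := by
    have hs : B.filter (fun t => p (2 * N + 1) < t) ⊆
        (if p (2 * N + 2) < p (2 * N + 1) then ∅ else {p (2 * N + 2)}) ∪
          Finset.Ioc (p (2 * N + 1)) (p (2 * N)) := by
      intro t ht
      rw [Finset.mem_filter, hB, Finset.mem_image] at ht
      obtain ⟨⟨j, hj, rfl⟩, ht⟩ := ht
      rw [Finset.mem_range] at hj
      rw [Finset.mem_union]
      rcases Nat.eq_or_lt_of_le (show j ≤ N + 1 by omega) with h | h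
      · left
        have e : 2 * j = 2 * N + 2 := by omega
        rw [e] at ht ⊢
        rw [if_neg (by simpa using ht.le)]
        simp
      · right
        rw [Finset.mem_Ioc]
        refine ⟨ht, ?_⟩
        rcases Nat.eq_or_lt_of_le (show j ≤ N by omega) with h' | h'
        · rw [h']
        · have := lt_even hp (i := 2 * j) (k := N - j) (by omega) (by omega)
          have e : 2 * j + 2 * (N - j) = 2 * N := by omega
          rw [e] at this
          exact this.le
    have h2 := (Finset.card_le_card hs).trans (Finset.card_union_le _ _)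
    rw [Int.card_Ioc] at h2
    have h3 : (((p (2 * N) - p (2 * N + 1)).toNat : ℕ) : ℤ) = max (p (2 * N) - p (2 * N + 1)) 0 :=
      Int.toNat_eq_max _
    have h4 : ((B.filter (fun t => p (2 * N + 1) < t)).card : ℤ) ≤
        (((if p (2 * N + 2) < p (2 * N + 1) then (∅ : Finset ℤ) else {p (2 * N + 2)}).card : ℕ) : ℤ) +
          (((p (2 * N) - p (2 * N + 1)).toNat : ℕ) : ℤ) := by
      exact_mod_cast h2
    rw [h3] at h4
    refine h4.trans (le_of_eq ?_)
    split_ifs <;> simp
  -- the three parts
  have hsum : (N : ℤ) + 2 = (B.filter (fun t => p 1 < t ∧ t < p (2 * N + 1))).card +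
      (B.filter (fun t => t < p 1)).card + (B.filter (fun t => p (2 * N + 1) < t)).card := by
    have hne : ∀ t ∈ B, t ≠ p 1 ∧ t ≠ p (2 * N + 1) := by
      intro t ht
      rw [hB, Finset.mem_image] at ht
      obtain ⟨j, hj, rfl⟩ := ht
      rw [Finset.mem_range] at hj
      constructor
      · intro h
        have := hinj _ (by omega) _ (by omega) h
        omega
      · intro h
        have := hinj _ (by omega) _ (by omega) h
        omega
    have e : B = (B.filter (fun t => p 1 < t ∧ t < p (2 * N + 1))) ∪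
        (B.filter (fun t => t < p 1)) ∪ (B.filter (fun t => p (2 * N + 1) < t)) := by
      ext t
      rw [Finset.mem_union, Finset.mem_union, Finset.mem_filter, Finset.mem_filter,
        Finset.mem_filter]
      constructor
      · intro ht
        obtain ⟨h1, h2⟩ := hne t ht
        rcases lt_or_gt_of_ne h1 with h | h
        · exact Or.inl (Or.inr ⟨ht, h⟩)
        · rcases lt_or_gt_of_ne h2 with h' | h'
          · exact Or.inl (Or.inl ⟨ht, h, h'⟩)
          · exact Or.inr ⟨ht, h'⟩
      · rintro ((⟨h, _⟩ | ⟨h, _⟩) | ⟨h, _⟩) <;> exact h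
    have hd1 : Disjoint (B.filter (fun t => p 1 < t ∧ t < p (2 * N + 1)))
        (B.filter (fun t => t < p 1)) := by
      rw [Finset.disjoint_filter]
      intro t _ h h'
      omega
    have hd2 : Disjoint ((B.filter (fun t => p 1 < t ∧ t < p (2 * N + 1))) ∪
        (B.filter (fun t => t < p 1))) (B.filter (fun t => p (2 * N + 1) < t)) := by
      rw [Finset.disjoint_left]
      intro t h h'
      rw [Finset.mem_union, Finset.mem_filter, Finset.mem_filter] at h
      rw [Finset.mem_filter] at h'
      rcases h with h | h <;> omega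
    have h2 : B.card = (B.filter (fun t => p 1 < t ∧ t < p (2 * N + 1))).card +
        (B.filter (fun t => t < p 1)).card + (B.filter (fun t => p (2 * N + 1) < t)).card := by
      conv_lhs => rw [e]
      rw [Finset.card_union_of_disjoint hd2, Finset.card_union_of_disjoint hd1]
    rw [hBc] at h2
    exact_mod_cast h2
  linarith

variable {n : ℕ} {r : Fin n → Fin n → Prop}

theorem prob_le_mneg (r : Fin n → Fin n → Prop) (x y : Fin n) : prob r y x ≤ mneg r x y := by
  classical
  rw [prob_eq_Pr]
  unfold Pr mneg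
  refine Ex_mono (fun σ => ?_)
  by_cases h : σ y < σ x
  · rw [if_pos h]
    have h1 : D x y σ ≤ -1 := by
      unfold D
      have : (σ y : ℕ) < (σ x : ℕ) := h
      omega
    have h2 : ((D x y σ : ℤ) : ℝ) ≤ -1 := by exact_mod_cast h1
    exact le_trans (by linarith) (le_max_left _ _)
  · rw [if_neg h]
    exact le_max_right _ _

/-- telescoping: distances of `y 1` and `y (2 N + 1)` in a sequence with `y i < y (i + 2)` -/
theorem tele (hr : IsPoset r) (y : ℕ → Fin n) (N : ℕ)
    (hinj : ∀ i ≤ 2 * N + 2, ∀ j ≤ 2 * N + 2, y i = y j → i = j)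
    (hlt : ∀ i, i + 2 ≤ 2 * N + 2 → r (y i) (y (i + 2))) :
    2 * (N : ℝ) + prob r (y 1) (y 0) + prob r (y (2 * N + 2)) (y (2 * N + 1))
      - mneg r (y 1) (y 2) - mneg r (y (2 * N)) (y (2 * N + 1)) ≤ mn r (y 1) (y (2 * N + 1)) := by
  classical
  rcases Nat.eq_zero_or_pos N with rfl | hN
  · have h1 := prob_le_mneg r (y 1) (y 2)
    have h2 := prob_le_mneg r (y 0) (y 1)
    have h3 : mn r (y 1) (y 1) = 0 := by
      rw [mn_eq_ht]
      ring
    simp only [Nat.cast_zero, mul_zero, zero_add]
    rw [h3]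
    linarith
  · have key : ∀ σ ∈ LEs r, (((((2 * (N : ℝ)) + (if σ (y 1) < σ (y 0) then (1 : ℝ) else 0))
        + (if σ (y (2 * N + 2)) < σ (y (2 * N + 1)) then (1 : ℝ) else 0))
        - max (-((D (y 1) (y 2) σ : ℤ) : ℝ)) 0)
        - max (-((D (y (2 * N)) (y (2 * N + 1)) σ : ℤ) : ℝ)) 0)
        ≤ ((D (y 1) (y (2 * N + 1)) σ : ℤ) : ℝ) := by
      intro σ hσ
      have h := tele_int (fun i => ((σ (y i) : ℕ) : ℤ)) N hN ?_ ?_
      · have e1 : (((σ (y 1) : ℕ) : ℤ) < ((σ (y 0) : ℕ) : ℤ)) ↔ σ (y 1) < σ (y 0) := by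
          rw [Nat.cast_lt]
          exact Iff.rfl
        have e2 : (((σ (y (2 * N + 2)) : ℕ) : ℤ) < ((σ (y (2 * N + 1)) : ℕ) : ℤ)) ↔
            σ (y (2 * N + 2)) < σ (y (2 * N + 1)) := by
          rw [Nat.cast_lt]
          exact Iff.rfl
        simp only [e1, e2] at h
        have h' : (((2 * (N : ℤ) + (if σ (y 1) < σ (y 0) then 1 else 0) +
            (if σ (y (2 * N + 2)) < σ (y (2 * N + 1)) then 1 else 0)
            - max (((σ (y 1) : ℕ) : ℤ) - ((σ (y 2) : ℕ) : ℤ)) 0
            - max (((σ (y (2 * N)) : ℕ) : ℤ) - ((σ (y (2 * N + 1)) : ℕ) : ℤ)) 0 : ℤ)) : ℝ) ≤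
            ((((σ (y (2 * N + 1)) : ℕ) : ℤ) - ((σ (y 1) : ℕ) : ℤ) : ℤ) : ℝ) := by
          exact_mod_cast h
        have e3 : -((D (y 1) (y 2) σ : ℤ) : ℝ) = ((σ (y 1) : ℕ) : ℝ) - ((σ (y 2) : ℕ) : ℝ) := by
          unfold D
          push_cast
          ring
        have e4 : -((D (y (2 * N)) (y (2 * N + 1)) σ : ℤ) : ℝ) =
            ((σ (y (2 * N)) : ℕ) : ℝ) - ((σ (y (2 * N + 1)) : ℕ) : ℝ) := by
          unfold D
          push_cast
          ring
        have e5 : ((D (y 1) (y (2 * N + 1)) σ : ℤ) : ℝ) =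
            ((σ (y (2 * N + 1)) : ℕ) : ℝ) - ((σ (y 1) : ℕ) : ℝ) := by
          unfold D
          push_cast
          ring
        rw [e3, e4, e5]
        push_cast at h'
        exact h'
      · intro i hi j hj h
        have h1 : (σ (y i) : ℕ) = (σ (y j) : ℕ) := by exact_mod_cast h
        exact hinj i hi j hj (σ.injective (Fin.ext h1))
      · intro i hi
        have h1 := mem_LEs.1 hσ _ _ (hlt i hi)
        have h2 : σ (y i) ≠ σ (y (i + 2)) := by
          intro h3
          have := hinj i (by omega) (i + 2) hi (σ.injective h3)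
          omega
        have h3 : σ (y i) < σ (y (i + 2)) := lt_of_le_of_ne h1 h2
        have h4 : (σ (y i) : ℕ) < (σ (y (i + 2)) : ℕ) := h3
        exact_mod_cast h4
    have h1 : Ex r (fun σ => (((((2 * (N : ℝ)) + (if σ (y 1) < σ (y 0) then (1 : ℝ) else 0))
        + (if σ (y (2 * N + 2)) < σ (y (2 * N + 1)) then (1 : ℝ) else 0))
        - max (-((D (y 1) (y 2) σ : ℤ) : ℝ)) 0)
        - max (-((D (y (2 * N)) (y (2 * N + 1)) σ : ℤ) : ℝ)) 0))
        ≤ Ex r (fun σ => ((D (y 1) (y (2 * N + 1)) σ : ℤ) : ℝ)) := by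
      unfold Ex
      exact div_le_div_of_nonneg_right (sum_le_sum key) (Nat.cast_nonneg _)
    rw [Ex_sub, Ex_sub, Ex_add, Ex_add, Ex_const hr] at h1
    have e1 : Ex r (fun σ => if σ (y 1) < σ (y 0) then (1 : ℝ) else 0) = prob r (y 1) (y 0) := by
      rw [prob_eq_Pr]
      unfold Pr
      refine congrArg (Ex r) (funext fun σ => ?_)
      by_cases h : σ (y 1) < σ (y 0) <;> simp [h]
    have e2 : Ex r (fun σ => if σ (y (2 * N + 2)) < σ (y (2 * N + 1)) then (1 : ℝ) else 0) =
        prob r (y (2 * N + 2)) (y (2 * N + 1)) := by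
      rw [prob_eq_Pr]
      unfold Pr
      refine congrArg (Ex r) (funext fun σ => ?_)
      by_cases h : σ (y (2 * N + 2)) < σ (y (2 * N + 1)) <;> simp [h]
    rw [e1, e2] at h1
    exact h1

end Pool.Agent.BFT2
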